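import Pool.Agent.P.MP_6f117a_ag.C.Iface

/-! Step ALG on specialisations of curves. -/

namespace Pool.Agent.P.MP_6f117a_ag.Sp

open MvPolynomial Filter
open scoped Polynomial WithZero

universe u

theorem pALG : S_ALG := by
  intro k K _ _ _ w y hw h
  have key : ∀ x : K, (∀ V : ValuationSubring K, x ∈ V) → IsIntegral k x := fun x hx => by
    have h1 : x ∈ (integralClosure (Subring.closure (Set.range (algebraMap k K))) K).toSubring := by
      rw [← iInf_valuationSubring_superset, Subring.mem_iInf]
      exact fun V => hx V.1
    have h2 : ∀ a ∈ Subring.closure (Set.range (algebraMap k K)), a ∈ integralClosure k K :=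
      fun a ha => (Subring.closure_le (t := (integralClosure k K).toSubring)).2
        (by rintro _ ⟨c, rfl⟩; exact isIntegral_algebraMap) ha
    have h3 : IsIntegral (integralClosure k K) x :=
      IsIntegral.map_of_comp_eq (Subring.inclusion (T := (integralClosure k K).toSubring) h2)
        (RingHom.id K) (RingHom.ext fun _ => rfl) h1
    exact isIntegral_trans x h3
  have h1 := (key w fun V => (h V).1).isAlgebraic
  have h2 := (key _ fun V => (h V).2).isAlgebraic
  rw [← mul_inv_cancel_right₀ hw y]
  exact h2.mul h1.inv

end Pool.Agent.P.MP_6f117a_ag.Sp
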