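import Pool.Agent.P.MP_6f117a_ag.C.Iface

/-! Step CHART on specialisations of curves. -/

namespace Pool.Agent.P.MP_6f117a_ag.Sp

open MvPolynomial Filter
open scoped Polynomial WithZero

universe u

namespace ChartA

variable {L K : Type u} [Field L] [Field K] [Algebra L K] (P : Place L K)

theorem v_le {ι : Type} {z : ι → K} (hz : ∀ i, P.v (z i) ≤ 1) (f : MvPolynomial ι L) :
    P.v (aeval z f) ≤ 1 := by
  induction f using MvPolynomial.induction_on with
  | C c => rw [aeval_C]; exact P.triv c
  | add f g hf hg => rw [map_add]; exact P.v.map_add_le hf hg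
  | mul_X f i hf => rw [map_mul, aeval_X, map_mul]; exact mul_le_one' hf (hz i)

theorem inv {n : ℕ} (m : Fin n → Fin n → K) (G : Fin n → K) (hG : ∀ i, P.v (G i) = 1)
    (h : ∀ i j, P.v (m i j - if i = j then G i else 0) < 1) :
    ∃ J : Fin n → Fin n → K, (∀ i j, J i j ∈ P.v.integer) ∧
      ∀ l l', ∑ i, J l i * m i l' = if l = l' then 1 else 0 := by
  have h0 : ∀ i j, P.v (if i = j then G i else 0) ≤ 1 := fun i j => by
    split_ifs
    exacts [(hG i).le, by simp]
  have hm : ∀ i j, m i j ∈ P.v.integer := fun i j => by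
    have := P.v.map_add_le (h i j).le (h0 i j)
    rwa [sub_add_cancel] at this
  let N : Matrix (Fin n) (Fin n) P.v.integer := Matrix.of fun i j => ⟨m i j, hm i j⟩
  let g : Fin n → P.v.integer := fun i => ⟨G i, (hG i).le⟩
  have r0 : ∀ a : P.v.integer, IsLocalRing.residue _ a = 0 ↔ P.v a < 1 := fun a => by
    rw [IsLocalRing.residue_eq_zero_iff, IsLocalRing.mem_maximalIdeal, mem_nonunits_iff,
      Valuation.Integer.not_isUnit_iff_valuation_lt_one]
  have e : (IsLocalRing.residue _).mapMatrix N =
      Matrix.diagonal fun i => IsLocalRing.residue _ (g i) := by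
    ext i j
    have := (r0 (N i j - if i = j then g i else 0)).2 (by
      convert h i j
      split_ifs <;> rfl)
    rw [map_sub, sub_eq_zero, apply_ite (IsLocalRing.residue _), map_zero] at this
    exact this
  have hu : IsUnit N.det := by
    by_contra hc
    rw [Valuation.Integer.not_isUnit_iff_valuation_lt_one, ← r0, RingHom.map_det, e,
      Matrix.det_diagonal, Finset.prod_eq_zero_iff] at hc
    obtain ⟨i, -, hi⟩ := hc
    exact ((r0 _).1 hi).ne (hG i)
  refine ⟨fun i j => N⁻¹ i j, fun i j => (N⁻¹ i j).2, fun l l' => ?_⟩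
  have := congrArg (fun A : Matrix (Fin n) (Fin n) P.v.integer => (A l l' : K))
    (N.nonsing_inv_mul hu)
  simp only [Matrix.mul_apply, Matrix.one_apply] at this
  rw [apply_ite Subtype.val] at this
  simpa [N] using this

end ChartA

open ChartA in
theorem pCHART (L : Type u) [Field L] [IsAlgClosed L] [CharZero L] :
    S_CHART L := by
  classical
  intro K _ _ _ P σ _ x hx
  have M := model P.π_trans
  obtain ⟨b, hb⟩ := M.basis
  generalize hr : Module.finrank (IntermediateField.adjoin L {P.π}) K = r at b hb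
  let e := Fintype.equivFin (Fin r ⊕ σ)
  let z : Option (Fin (Fintype.card (Fin r ⊕ σ))) → K := fun o =>
    o.elim P.π fun i => Sum.elim b x (e.symm i)
  have hz : ∀ i, P.v (z i) ≤ 1 := by
    rintro (_ | i)
    · exact P.v_π_le
    · change P.v (Sum.elim b x (e.symm i)) ≤ 1
      rcases e.symm i with j | j
      · exact (hb _).2 ⟨Pi.single j 1, by simp [Pi.single_apply, apply_ite]⟩ P P.v_π_le
      · exact hx j
  have reg : ∀ y, Reg L P.π y → ∃ a : MvPolynomial _ L, aeval z a = y := fun y hy => by
    obtain ⟨p, rfl⟩ := (hb y).1 hy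
    refine ⟨∑ i, Polynomial.aeval (X none) (p i) * X (some (e (.inl i))), ?_⟩
    simp [← Polynomial.aeval_algHom_apply, z]
  have key : ∀ l, ∃ (c : L) (a g : MvPolynomial _ L), P.v (z (some l) - algebraMap L K c) < 1 ∧
      P.v (aeval z g) = 1 ∧ (z (some l) - algebraMap L K c) * aeval z g = P.π * aeval z a := by
    intro l
    obtain ⟨c, hc⟩ := P.res (hz (some l))
    obtain ⟨y, w, hy, hw, w1, h⟩ := M.frac P P.v_π_le _ (P.le_π hc)
    obtain ⟨a, rfl⟩ := reg y hy
    obtain ⟨g, rfl⟩ := reg w hw
    refine ⟨c, a, g, hc, w1, ?_⟩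
    rw [← h, ← mul_assoc, mul_div_cancel₀ _ P.π_ne]
  choose c a g h1 h2 h3 using key
  obtain ⟨J, J1, J2⟩ := inv P (fun i l => aeval z (pderiv (some l)
    ((X (some i) - C (c i)) * g i - X none * a i))) (fun i => aeval z (g i)) h2 fun i j => by
      have e1 : aeval z (pderiv (some j) ((X (some i) - C (c i)) * g i - X none * a i)) -
          (if i = j then aeval z (g i) else 0) = (z (some i) - algebraMap L K (c i)) *
            aeval z (pderiv (some j) (g i)) - P.π * aeval z (pderiv (some j) (a i)) := by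
        have : z none = P.π := rfl
        by_cases h : i = j <;> simp [pderiv_X, h, this]
        ring
      have hπ : P.v P.π < 1 := by
        rw [P.v_π, ← WithZero.exp_zero, WithZero.exp_lt_exp]; omega
      rw [e1]
      refine P.v.map_sub_lt ?_ ?_ <;> rw [map_mul]
      · exact mul_lt_one_of_nonneg_of_lt_one_left zero_le (h1 i) (v_le P hz _)
      · exact mul_lt_one_of_nonneg_of_lt_one_left zero_le hπ (v_le P hz _)
  exact ⟨⟨_, z, fun j => e (.inr j), fun i => (X (some i) - C (c i)) * g i - X none * a i, J, rfl,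
    fun j => by simp [z], hz, J1, fun i => by simpa [sub_eq_zero] using! h3 i, J2⟩⟩

end Pool.Agent.P.MP_6f117a_ag.Sp
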