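import Pool.Agent.P.MP_6f117a_ag.C.Iface

/-! Step CHART0 on specialisations of curves. -/

namespace Pool.Agent.P.MP_6f117a_ag.Sp

open MvPolynomial Filter
open scoped Polynomial WithZero

universe u

open IntermediateField nonZeroDivisors in
theorem chart0_rel {L K : Type u} [Field L] [CharZero L] [Field K] [Algebra L K] [FF L K] {s : K}
    (hs : Transcendental L s) (x : K) : ∃ G : L[X][X],
      G.eval₂ (Polynomial.aeval s : L[X] →ₐ[L] K) x = 0 ∧
      G.derivative.eval₂ (Polynomial.aeval s : L[X] →ₐ[L] K) x ≠ 0 := by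
  classical
  have := FF.fin s hs
  let φ : L[X] →ₐ[L] L⟮s⟯ := Polynomial.aeval (AdjoinSimple.gen L s)
  let _ : Algebra L[X] L⟮s⟯ := φ.toAlgebra
  let _ : Algebra L[X] K := (Polynomial.aeval s : L[X] →ₐ[L] K).toAlgebra
  have : IsScalarTower L[X] L⟮s⟯ K := .of_algebraMap_eq fun p =>
    Polynomial.aeval_algebraMap_apply K (AdjoinSimple.gen L s) p
  have : IsFractionRing L[X] L⟮s⟯ := IsLocalization.isLocalization_of_algEquiv L[X]⁰
    { (RatFunc.algEquivOfTranscendental s hs).toRingEquiv with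
      commutes' := RatFunc.algEquivOfTranscendental_algebraMap s hs : RatFunc L ≃ₐ[L[X]] L⟮s⟯ }
  obtain ⟨G, h0, h1⟩ := (IsFractionRing.isAlgebraic_iff L[X] L⟮s⟯ K).2
    (Algebra.IsAlgebraic.isAlgebraic x)
  have ex : ∃ n, ∃ G : L[X][X], G.natDegree = n ∧ G ≠ 0 ∧ Polynomial.aeval x G = 0 :=
    ⟨_, G, rfl, h0, h1⟩
  obtain ⟨G, h2, h3, h4⟩ := Nat.find_spec ex
  have h5 : G.natDegree ≠ 0 := fun e => by
    rw [Polynomial.eq_C_of_natDegree_eq_zero e] at h3 h4
    exact hs ⟨_, Polynomial.C_ne_zero.1 h3, (Polynomial.aeval_C ..).symm.trans h4⟩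
  exact ⟨G, h4, fun e => Nat.find_min ex (h2 ▸ Polynomial.natDegree_derivative_lt h5) ⟨_, rfl,
    fun e' => h5 (Polynomial.derivative_eq_zero.1 e'), e⟩⟩

theorem pCHART0 (L : Type u) [Field L] [IsAlgClosed L] [CharZero L] :
    S_CHART0 L := by
  intro K _ _ _ s hs σ _ x
  choose G h1 h2 using chart0_rel hs
  let e := Fintype.equivFin σ
  let z : Option (Fin _) → K := fun o => o.elim s fun i => x (e.symm i)
  let A : L[X] →ₐ[L] MvPolynomial (Option (Fin (Fintype.card σ))) L := Polynomial.aeval (X none)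
  let ev : _ → L[X][X] → MvPolynomial (Option (Fin (Fintype.card σ))) L := fun i G =>
    G.eval₂ A.toRingHom (X (some i))
  have k0 : ∀ a : L[X], aeval z (Polynomial.aeval (X none : MvPolynomial _ L) a) =
      Polynomial.aeval s a := fun a => by rw [← Polynomial.aeval_algHom_apply, aeval_X]; rfl
  have k1 : ∀ i G, aeval z (ev i G) =
      G.eval₂ (Polynomial.aeval s : L[X] →ₐ[L] K) (x (e.symm i)) := fun i G => by
    induction G using Polynomial.induction_on' with
    | add p q hp hq => simp only [ev, Polynomial.eval₂_add, map_add] at hp hq ⊢; rw [hp, hq]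
    | monomial n a => simp [ev, A, k0, z]
  have k2 : ∀ i l G, aeval z (pderiv (some l) (ev i G)) = if i = l then
      G.derivative.eval₂ (Polynomial.aeval s : L[X] →ₐ[L] K) (x (e.symm i)) else 0 := fun i l G => by
    induction G using Polynomial.induction_on' with
    | add p q hp hq =>
      simp only [ev, Polynomial.eval₂_add, map_add] at hp hq ⊢
      rw [hp, hq]
      split_ifs <;> simp
    | monomial n a =>
      by_cases h : i = l <;> simp [ev, A, k0, z, h, Polynomial.derivative_monomial, mul_assoc]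
  refine ⟨⟨_, z, e, fun i => ev i (G (x (e.symm i))), fun l i => if l = i then
    ((G (x (e.symm i))).derivative.eval₂ (Polynomial.aeval s : L[X] →ₐ[L] K) (x (e.symm i)))⁻¹
    else 0, rfl, fun j => by simp [z], fun _ => trivial, fun _ _ => trivial,
    fun i => by rw [k1, h1], fun l l' => ?_⟩⟩
  simp only [k2, ite_mul, zero_mul, Finset.sum_ite_eq, Finset.mem_univ, if_true]
  split_ifs
  · exact inv_mul_cancel₀ (h2 _)
  · exact mul_zero _

end Pool.Agent.P.MP_6f117a_ag.Sp
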