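import Pool.Agent.P.MP_6f117a_ag.C.VIface
import Pool.Agent.P.MP_6f117a_ag.PJ.Zero

/-! From sections on jet spaces in large characteristic to a bound for the degree of curves. -/

namespace Pool.Agent.P.MP_6f117a_ag.Sp

open MvPolynomial Filter Module
open scoped Polynomial WithZero

universe u

/-- In large characteristic there are sections of small weight whose norms have small degree. -/
def Mod.HS {L : Type u} [Field L] (M : Mod L) (n q c : ℕ) : Prop :=
  ∀ᶠ ω in spF L, ∀ e₀ : ℕ, ∃ (m e ρ : ℕ) (S : MvPolynomial (Fin (M.N + 1) × ℕ) (kk ω.p))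
    (P : MvPolynomial (M.ι × ℕ) (kk ω.p)), e₀ ≤ e ∧ m ≤ q * e ∧ (M.red ω).Sec n m e ρ S ∧
      (M.red ω).Nrm S P ∧ P ≠ 0 ∧ (∀ v ∈ P.vars, v.2 ≤ n) ∧
      ∀ a ∈ P.support, (a.sum fun v l => l * ω.p ^ v.2) ≤ c * e

namespace CoreA

theorem greedy {L V : Type*} {𝒞 : Type*} [Field L] [AddCommGroup V] [Module L V]
    [FiniteDimensional L V] (W : 𝒞 → Submodule L V)
    (h : ∀ S : Finset V, (∀ v ∈ S, v ≠ 0) → ∃ c, ∀ v ∈ S, v ∉ W c) (N : ℕ) :
    ∃ c : ℕ → 𝒞, ∀ T ⊆ Finset.range N,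
      finrank L (⨅ j ∈ T, W (c j) : Submodule L V) ≤ finrank L V - T.card := by
  classical
  induction N with
  | zero =>
    obtain ⟨c, -⟩ := h ∅ (by simp)
    refine ⟨fun _ => c, fun T hT => ?_⟩
    obtain rfl : T = ∅ := by simpa using hT
    simpa using Submodule.finrank_le _
  | succ N ih =>
    obtain ⟨c, hc⟩ := ih
    have : ∀ T : Finset ℕ, ∃ v : V, (⨅ j ∈ T, W (c j)) ≠ ⊥ → v ∈ ⨅ j ∈ T, W (c j) ∧ v ≠ 0 :=
      fun T => by
        by_cases e : (⨅ j ∈ T, W (c j)) = ⊥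
        · exact ⟨0, fun h => absurd e h⟩
        · exact (Submodule.exists_mem_ne_zero_of_ne_bot e).imp fun _ h _ => h
    choose v hv using this
    obtain ⟨C, hC⟩ := h (((Finset.range N).powerset.image v).erase 0)
      fun _ hx => Finset.ne_of_mem_erase hx
    refine ⟨Function.update c N C, fun T hT => ?_⟩
    have hT' : T.erase N ⊆ Finset.range N := fun j hj => by
      have := hT (Finset.mem_of_mem_erase hj)
      have := Finset.ne_of_mem_erase hj
      simp only [Finset.mem_range] at *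
      omega
    have e : (⨅ j ∈ T.erase N, W (Function.update c N C j)) = ⨅ j ∈ T.erase N, W (c j) :=
      biInf_congr fun j hj => by rw [Function.update_of_ne (Finset.ne_of_mem_erase hj)]
    have h1 := hc _ hT'
    by_cases hN : N ∈ T
    · rw [← Finset.insert_erase hN, Finset.iInf_insert, e, Function.update_self,
        Finset.card_insert_of_notMem (Finset.notMem_erase _ _)]
      by_cases e0 : (⨅ j ∈ T.erase N, W (c j)) = ⊥
      · rw [e0, inf_bot_eq, finrank_bot]; omega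
      · have := Submodule.finrank_lt_finrank_of_lt (lt_of_le_of_ne (inf_le_right (a := W C))
          fun e1 => hC _ (Finset.mem_erase.2 ⟨(hv _ e0).2, Finset.mem_image_of_mem _
            (Finset.mem_powerset.2 hT')⟩) (e1.ge (hv _ e0).1).1)
        omega
    · rwa [← e, Finset.erase_eq_of_notMem hN] at h1

/-- The monomials of degree `d`. -/
abbrev Mon (ι : Type) (d : ℕ) : Type := {m : ι →₀ ℕ // m.degree = d}

noncomputable instance (ι : Type) [Finite ι] (d : ℕ) : Fintype (Mon ι d) :=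
  (Finsupp.finite_of_degree_eq d).fintype

variable {ι : Type} [Finite ι] {d : ℕ} {k : Type*} [Field k]

/-- The form with given coefficients. -/
noncomputable def frm (e : Mon ι d → k) : MvPolynomial ι k := ∑ a, monomial a.1 (e a)

theorem frm_hom (e : Mon ι d → k) : (frm e).IsHomogeneous d :=
  IsHomogeneous.sum _ _ _ fun a _ => isHomogeneous_monomial _ a.2

theorem frm_coeff (e : Mon ι d → k) (a : Mon ι d) : coeff a.1 (frm e) = e a := by
  classical
  simp [frm, coeff_sum, coeff_monomial, Subtype.val_inj]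

theorem frm_eq {G : MvPolynomial ι k} (h : G.IsHomogeneous d) :
    frm (fun a : Mon ι d => coeff a.1 G) = G := by
  ext m
  by_cases e : m.degree = d
  · exact frm_coeff _ ⟨m, e⟩
  · rw [(frm_hom _).coeff_eq_zero e, h.coeff_eq_zero e]

theorem frm_aeval {A : Type*} [CommRing A] [Algebra k A] (e : Mon ι d → k) (y : ι → A) :
    aeval y (frm e) = ∑ a, e a • aeval y (monomial a.1 (1 : k)) := by
  simp [frm, aeval_monomial, Algebra.smul_def]

variable {L : Type u} [Field L] [IsAlgClosed L] [CharZero L]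

theorem param {K : Type u} [Field K] [Algebra L K] [FF L K] {N : ℕ} {ξ : Fin (N + 1) → K}
    (h : 0 < degree L ξ) : ∃ (t : K) (δ : Derivation L K K), δ t = 1 ∧
      ∃ a b, ξ a ≠ 0 ∧ ξ b = t * ξ a := by
  by_contra hc
  obtain ⟨i, hi⟩ : ∃ i, ξ i ≠ 0 := by
    by_contra h0
    push Not at h0
    simp [degree, h0, Finset.sup_const] at h
  obtain ⟨Z, -, e⟩ := degree_eq (L := L) hi
  refine h.not_ge (e ▸ Finset.sum_nonpos fun P _ => ?_)
  obtain ⟨j, -, hj⟩ := Finset.exists_mem_eq_sup Finset.univ Finset.univ_nonempty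
    fun j => P.v (ξ j / ξ i)
  rw [hj]
  rcases const_or_trans (L := L) (ξ j / ξ i) with ⟨y, hy⟩ | ht
  · rw [← hy]
    by_cases y0 : y = 0
    · simp [y0]
    · simp [P.v_const y0]
  · obtain ⟨D, hD, -⟩ := exists_dt ht
    exact absurd ⟨_, D, hD, i, j, hi, (div_mul_cancel₀ _ hi).symm⟩ hc

theorem num {q c A e m : ℕ} (e1 : 2 * A + 1 ≤ e) (e2 : m ≤ q * e) : ∃ o,
    c * e < (2 * c * (2 * A + 1) + 1) * o ∧ m + 1 + 2 * (q + 1) * A * o ≤ 2 * (q + 1) * e := by
  have o1 : 1 ≤ e / (2 * A + 1) := (Nat.one_le_div_iff (by omega)).2 e1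
  have o2 := Nat.div_mul_le_self e (2 * A + 1)
  have o3 := Nat.lt_div_mul_add (a := e) (show 0 < 2 * A + 1 by omega)
  generalize e / (2 * A + 1) = o at o1 o2 o3
  exact ⟨o, by nlinarith [Nat.mul_le_mul_left c o3.le, Nat.mul_le_mul_left (c * (2 * A + 1)) o1],
    by nlinarith [Nat.mul_le_mul_left (q + 1) o2]⟩

omit [IsAlgClosed L] [CharZero L] in
theorem step (hSPEC : S_SPEC L) (hMULTI : S_MULTI L) (hVAN : S_VAN L) (M : Mod L) (i₀ : M.ι)
    {n q c : ℕ} (h : M.HS n q c) : ∃ d : ℕ, ∀ (J : Type) [Fintype J] (f : J → Fn L)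
      (ξ : ∀ j, Fin (M.N + 1) → (f j).K), (∀ j a, aeval (ξ j) (M.eqn a) = 0) →
      (∀ j, aeval (ξ j) M.Del ≠ 0) → (∀ j, ∃ a b, ξ j a ≠ 0 ∧ ξ j b = (f j).t * ξ j a) →
      (∀ j, (2 * (2 * (q + 1) : ℕ) * genus L (f j).K : ℤ) < degree L (ξ j)) →
      ∃ (T : Finset J) (v : Mon M.ι d → L), Fintype.card J ≤ d * T.card ∧ v ≠ 0 ∧
        ∀ j ∈ T, ∑ a, v a • aeval (fun i => ξ j (M.e i)) (monomial a.1 (1 : L)) = 0 := by
  classical
  obtain ⟨d, hd⟩ := PJ.zero_est.{0, 0, 0, 0} (Fintype.card M.ι) n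
    (2 * c * (2 * (2 * (n + 1) * M.dDel) + 1) + 1)
  refine ⟨d, fun J _ f ξ a1 a2 a3 a4 => ?_⟩
  have : (spF L).NeBot := hSPEC
  have hM := hMULTI J (Mon M.ι d) f
    (fun j a => aeval (fun i => ξ j (M.e i)) (monomial a.1 (1 : L))) _ fun j =>
      (hVAN M n (2 * (q + 1)) _ _ _ _ (f j).dt (a1 j) (a2 j) (a3 j) (a4 j)).and (eventually_all.2
        fun a : Mon M.ι d => ev_pi_aeval (fun i => ξ j (M.e i)) (monomial a.1 1))
  obtain ⟨ω, ⟨⟨χ, h1, h2⟩, h3⟩, hp⟩ := ((hM.and h).and (ev_p (d + 1))).exists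
  choose φ φ1 φ2 using fun j => (h1 j).1
  obtain ⟨m', e, ρ, S, P, e1, e2, e3, e4, e5, e6, e7⟩ := h3 (2 * (2 * (n + 1) * M.dDel) + 1)
  obtain ⟨o, o1, o2⟩ := num (c := c) e1 e2
  obtain ⟨G, g1, g2, g3⟩ := hd ω.p hp (kk ω.p) M.ι _ (fun _ => BB ω.p n) φ P (c * e) le_rfl e5 e6
    e7 fun j => ⟨o, o1, φ2 j m' e ρ o S P e3 e4 o2⟩
  obtain ⟨b, hb, b0⟩ := Finset.exists_ne_zero_of_sum_ne_zero
    ((sum_homogeneousComponent G).trans_ne g1)
  have hG : (X i₀ ^ (d - b) * homogeneousComponent b G).IsHomogeneous d := by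
    have := (isHomogeneous_X_pow i₀ (d - b)).mul (homogeneousComponent_isHomogeneous b G)
    rwa [Nat.sub_add_cancel (by have := Finset.mem_range.1 hb; omega)] at this
  rw [Nat.card_eq_fintype_card, Fintype.card_subtype] at g3
  by_contra hc
  push Not at hc
  refine mul_ne_zero (pow_ne_zero (d - b) (X_ne_zero i₀)) b0 ?_
  have := h2 _ (fun v hv => by_contra fun v0 => by
    obtain ⟨j, hj, e⟩ := hc _ v g3 v0
    exact e (hv j hj)) (fun a => coeff a.1 (X i₀ ^ (d - b) * homogeneousComponent b G))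
    fun j hj => by
      have e8 : ∀ a : Mon M.ι d, ω.red0 (monomial a.1 1) = monomial a.1 1 := fun a => by
        simpa using ω.red0_map (monomial a.1 1)
      have := fun a => (h1 j).2 a
      simp only [e8] at this
      simp only [this]
      rw [← frm_aeval, frm_eq hG, map_mul, φ1 j G (Finset.mem_filter.1 hj).2, mul_zero]
  rw [← frm_eq hG, this]
  simp [frm]

end CoreA

open CoreA in
theorem pCORE (L : Type u) [Field L] [IsAlgClosed L] [CharZero L] (hSPEC : S_SPEC L)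
    (hMULTI : S_MULTI L) (hVAN : S_VAN L) (M : Mod L) [Nonempty M.ι] {n q c : ℕ}
    (h : M.HS n q c) : ∃ (a : ℕ) (G : MvPolynomial M.ι L), G ≠ 0 ∧ (∃ b, G.IsHomogeneous b) ∧
      ∀ (K : Type u) [Field K] [Algebra L K] [FF L K] (ξ : Fin (M.N + 1) → K),
        (∀ a, aeval ξ (M.eqn a) = 0) → aeval ξ M.Del ≠ 0 → aeval (fun i => ξ (M.e i)) G ≠ 0 →
          degree L ξ ≤ a * genus L K := by
  classical
  by_contra hc
  push Not at hc
  obtain ⟨d, hd⟩ := step hSPEC hMULTI hVAN M (Classical.arbitrary _) h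
  let 𝒞 := Σ f : Fn L, {ξ : Fin (M.N + 1) → f.K // (∀ a, aeval ξ (M.eqn a) = 0) ∧
    aeval ξ M.Del ≠ 0 ∧ (∃ a b, ξ a ≠ 0 ∧ ξ b = f.t * ξ a) ∧
    (2 * (2 * (q + 1) : ℕ) * genus L f.K : ℤ) < degree L ξ}
  obtain ⟨f, hf⟩ := greedy (fun f : 𝒞 => LinearMap.ker (Fintype.linearCombination L
    fun a : Mon M.ι d => aeval (fun i => f.2.1 (M.e i)) (monomial a.1 (1 : L))))
    (fun S hS => by
      obtain ⟨K, _, _, _, ξ, h1, h2, h3, h4⟩ := hc (2 * (2 * (q + 1))) (∏ v ∈ S, frm v)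
        (Finset.prod_ne_zero_iff.2 fun v hv e => hS v hv (funext fun a => by
          rw [← frm_coeff v, e]; rfl)) ⟨_, IsHomogeneous.prod _ _ _ fun v _ => frm_hom v⟩
      obtain ⟨t, δ, ht, h5⟩ := param (lt_of_le_of_lt (by positivity) h4)
      refine ⟨⟨⟨K, t, δ, ht⟩, ξ, h1, h2, h5, by exact_mod_cast h4⟩, fun v hv e => ?_⟩
      rw [map_prod] at h3
      exact Finset.prod_ne_zero_iff.1 h3 v hv ((frm_aeval _ _).trans e))
    (d * finrank L (Mon M.ι d → L) + 1)
  obtain ⟨T, v, g3, v0, hv⟩ := hd (Fin (d * finrank L (Mon M.ι d → L) + 1)) (fun j => (f j).1)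
    (fun j => (f j).2.1) (fun j => (f j).2.2.1) (fun j => (f j).2.2.2.1)
    (fun j => (f j).2.2.2.2.1) fun j => (f j).2.2.2.2.2
  rw [Fintype.card_fin] at g3
  have h4 := hf (T.map Fin.valEmbedding) fun j hj => by
    obtain ⟨j, -, rfl⟩ := Finset.mem_map.1 hj
    exact Finset.mem_range.2 j.2
  rw [Finset.card_map, Nat.sub_eq_zero_of_le (Nat.lt_of_mul_lt_mul_left g3).le, Nat.le_zero,
    Submodule.finrank_eq_zero] at h4
  refine v0 ?_
  rw [← Submodule.mem_bot L, ← h4]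
  simp only [Submodule.mem_iInf]
  intro j hj
  obtain ⟨i, hi, rfl⟩ := Finset.mem_map.1 hj
  exact hv i hi

end Pool.Agent.P.MP_6f117a_ag.Sp
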