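import Pool.Agent.P.MP_6f117a_ag.C.Iface

/-! Step DER on specialisations of curves. -/

namespace Pool.Agent.P.MP_6f117a_ag.Sp

open MvPolynomial Filter
open scoped Polynomial WithZero

universe u

namespace Der

theorem ex_der (k K : Type) [Field k] [Field K] [Algebra k K] [Algebra (RatFunc k) K]
    [IsScalarTower k (RatFunc k) K] [Algebra.IsSeparable (RatFunc k) K] :
    ∃ d : Derivation k K K, d (algebraMap (RatFunc k) K RatFunc.X) = 1 := by
  let _ : Algebra k[X] K := ((algebraMap (RatFunc k) K).comp (algebraMap k[X] (RatFunc k))).toAlgebra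
  have : IsScalarTower k[X] (RatFunc k) K := .of_algebraMap_eq fun _ => rfl
  have : IsScalarTower k k[X] K := .of_algebraMap_eq fun c => by
    rw [IsScalarTower.algebraMap_apply k (RatFunc k) K, IsScalarTower.algebraMap_apply k k[X] (RatFunc k)]
    rfl
  have : Algebra.FormallyEtale k[X] (RatFunc k) := .of_isLocalization (nonZeroDivisors k[X])
  have : Algebra.FormallyEtale (RatFunc k) K := .of_isSeparable _ _
  have : Algebra.FormallyEtale k[X] K := .comp k[X] (RatFunc k) K
  refine ⟨KaehlerDifferential.linearMapEquivDerivation k K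
    ((TensorProduct.AlgebraTensorModule.rid k[X] K K).toLinearMap ∘ₗ
      ((KaehlerDifferential.polynomialEquiv k).toLinearMap.baseChange K) ∘ₗ
      (KaehlerDifferential.tensorKaehlerEquivOfFormallyEtale k k[X] K).symm.toLinearMap), ?_⟩
  rw [KaehlerDifferential.linearMapEquivDerivation_apply_apply,
    show algebraMap (RatFunc k) K RatFunc.X = algebraMap k[X] K Polynomial.X from rfl]
  simp [KaehlerDifferential.tensorKaehlerEquivOfFormallyEtale_symm_D_algebraMap]

end Der

theorem pDER : S_DER := fun p _ =>
  ⟨(transcendental_algebraMap_iff (algebraMap (RatFunc (kk p)) (KK p)).injective).2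
    RatFunc.transcendental_X, Der.ex_der _ _⟩

end Pool.Agent.P.MP_6f117a_ag.Sp
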