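import Pool.Agent.P.MP_6f117a_ag.C.VIface

/-! Step EXZ on specialisations of curves. -/

namespace Pool.Agent.P.MP_6f117a_ag.Sp

open MvPolynomial Filter
open scoped Polynomial WithZero

universe u

namespace ExzAux
open WittVector

variable {R S T ι : Type} [CommRing R] [CommRing S] [CommRing T]

/-- a polynomial in the distinguished variable -/
noncomputable def uni (ψ : R →+* S) (x : ι → S) : MvPolynomial (Option ι) R →+* S[X] :=
  eval₂Hom (Polynomial.C.comp ψ) fun o => o.elim Polynomial.X fun i => Polynomial.C (x i)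

theorem uni_eval (ψ : R →+* S) (x : ι → S) (χ : S →+* T) (y : T) (f : MvPolynomial (Option ι) R) :
    (uni ψ x f).eval₂ χ y = eval₂ (χ.comp ψ) (fun o => o.elim y fun i => χ (x i)) f := by
  induction f using MvPolynomial.induction_on with
  | C a => simp [uni]
  | add f g hf hg => rw [map_add, Polynomial.eval₂_add, eval₂_add, hf, hg]
  | mul_X f o hf =>
    rw [map_mul, Polynomial.eval₂_mul, eval₂_mul, hf]
    cases o <;> simp [uni]

theorem uni_der (ψ : R →+* S) (x : ι → S) (f : MvPolynomial (Option ι) R) :
    (uni ψ x f).derivative = uni ψ x (pderiv none f) := by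
  classical
  induction f using MvPolynomial.induction_on with
  | C a => simp [uni]
  | add f g hf hg => rw [map_add, map_add, map_add, map_add, hf, hg]
  | mul_X f o hf =>
    rw [map_mul, Polynomial.derivative_mul, hf, pderiv_mul, map_add, map_mul, map_mul]
    cases o <;> simp [uni]

theorem map_toMv (ψ : R →+* S) (i : ι) (g : R[X]) :
    MvPolynomial.map ψ (g.toMvPolynomial i) = (g.map ψ).toMvPolynomial i := by
  induction g using Polynomial.induction_on' with
  | add f g hf hg => rw [map_add, map_add, Polynomial.map_add, map_add, hf, hg]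
  | monomial n c => simp [← Polynomial.C_mul_X_pow_eq_monomial]

theorem witt (hHENS : S_HENS) (hREC : S_REC) {p : ℕ} [Fact p.Prime] {A : Type} [CommRing A]
    [IsDomain A] [CharP A p] (g : (WittVector p A)[X]) (a : A)
    (h0 : g.eval₂ WittVector.constantCoeff a = 0)
    (h1 : IsUnit (g.derivative.eval₂ WittVector.constantCoeff a)) :
    ∃ y, g.eval y = 0 ∧ y.coeff 0 = a := by
  obtain ⟨Ω, _, _, j, hj⟩ : ∃ (Ω : Type) (_ : Field Ω) (_ : IsAlgClosed Ω) (j : A →+* Ω),
      Function.Injective j := ⟨AlgebraicClosure (FractionRing A), inferInstance, inferInstance,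
    (algebraMap (FractionRing A) _).comp (algebraMap A _),
    (algebraMap (FractionRing A) _).injective.comp (IsFractionRing.injective A _)⟩
  have := charP_of_injective_ringHom hj p
  have key : ∀ (q : (WittVector p A)[X]) (y : WittVector p Ω), y.coeff 0 = j a →
      ((q.map (WittVector.map j)).eval y).coeff 0 = j (q.eval₂ WittVector.constantCoeff a) :=
    fun q y hy => by
      rw [Polynomial.hom_eval₂, ← hy, Polynomial.eval_map]
      exact Polynomial.hom_eval₂ q _ WittVector.constantCoeff y
  obtain ⟨y, hy, hy'⟩ := hHENS _ (Ideal.span {(p : WittVector p Ω)}) (g.map (WittVector.map j))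
    (teichmuller p (j a)) ((mem_span_p_iff_coeff_zero_eq_zero _).2 (by
      rw [key _ _ (teichmuller_coeff_zero _ _), h0, map_zero]))
    (IsUnit.map _ (isUnit_of_coeff_zero_ne_zero _ (by
      rw [Polynomial.derivative_map, key _ _ (teichmuller_coeff_zero _ _)]
      exact (h1.map j).ne_zero)))
  have hy0 : y.coeff 0 = j a := by
    have e : WittVector.constantCoeff (y - teichmuller p (j a)) = 0 :=
      (mem_span_p_iff_coeff_zero_eq_zero _).1 hy'
    rw [map_sub, sub_eq_zero] at e
    exact e
  obtain ⟨u, hu⟩ := h1.exists_left_inv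
  have hm := map_toMv (WittVector.map (p := p) j) (some ()) g
  have hr : ∀ l, y.coeff l ∈ j.range := fun l =>
    hREC p Ω (Filt.const j.range) l Unit
      (fun _ => MvPolynomial.map (WittVector.map j) (g.toMvPolynomial (some ())))
      (fun o => o.elim 0 fun _ => y) (fun _ _ => j u)
      (fun _ m i _ => ⟨_, by rw [coeff_map, map_coeff]⟩)
      (fun _ => by rw [hm, eval_toMvPolynomial]; exact hy)
      (fun i _ => (zero_coeff p Ω i).symm ▸ zero_mem _)
      (by
        rintro (_ | _)
        · exact (zero_coeff p Ω 0).symm ▸ zero_mem _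
        · exact ⟨a, hy0.symm⟩)
      (fun _ _ => ⟨u, rfl⟩)
      (fun _ _ => by
        rw [if_pos rfl, Fintype.sum_unique, hm, Polynomial.toMvPolynomial, Derivation.map_aeval,
          pderiv_X_self, smul_eq_mul, mul_one]
        refine Eq.trans (congrArg (fun w : WittVector p Ω => j u * w.coeff 0)
          (eval_toMvPolynomial _ _ _)) ?_
        rw [Polynomial.derivative_map]
        exact (congrArg _ (key _ y hy0)).trans (by rw [← map_mul, hu, map_one]))
      (some ()) l le_rfl
  choose c hc using hr
  have e : WittVector.map j (WittVector.mk p c) = y := WittVector.ext fun l => hc l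
  refine ⟨WittVector.mk p c, WittVector.map_injective j hj ?_, hj ((hc 0).trans hy0)⟩
  rw [map_zero, ← hy, ← e, Polynomial.eval_map, Polynomial.eval₂_at_apply]

theorem ev0_eq {p : ℕ} [Fact p.Prime] {k : Type} [Field k] (M : Mod (WittVector p k)) {A : Type}
    [CommRing A] [Algebra k A] (z : Fin (M.N + 1) → WittVector p A)
    (g : MvPolynomial (Fin (M.N + 1)) (WittVector p k)) :
    M.ev0 z g = WittVector.constantCoeff (eval₂ (WittVector.map (algebraMap k A)) z g) := by
  rw [Mod.ev0, aeval_def, eval₂_map, eval₂_comp_left]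
  rfl

end ExzAux

open ExzAux in
theorem pEXZ (hTCH : S_TCH) (hGG : S_GG) (hHENS : S_HENS) (hREC : S_REC): S_EXZ := by
  intro p _ k _ _ M B _ _ _ φ h1 h2
  have := charP_of_injective_algebraMap
    (algebraMap k (PowerSeries (MvPolynomial (M.ι × ℕ) B))).injective p
  obtain ⟨x, hx⟩ : ∃ x : M.ι → WittVector p (PowerSeries (MvPolynomial (M.ι × ℕ) B)), ∀ i, x i =
    WittVector.map Polynomial.coeToPowerSeries.ringHom (PJ.pert p (fun i => φ (M.e i)) i) :=
    ⟨_, fun _ => rfl⟩
  have hx0 : ∀ i, PowerSeries.constantCoeff (WittVector.constantCoeff (x i)) =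
      C (WittVector.constantCoeff (φ (M.e i))) := fun i => by
    rw [hx, PJ.pert, map_add, map_add, map_mul, map_mul]
    simp [WittVector.constantCoeff_apply]
  have key : ∀ a (f : MvPolynomial (Option M.ι) (WittVector p k))
      (y : PowerSeries (MvPolynomial (M.ι × ℕ) B)),
      PowerSeries.constantCoeff y = C ((φ a).coeff 0) →
      PowerSeries.constantCoeff ((uni (WittVector.map (algebraMap k _)) x f).eval₂
        WittVector.constantCoeff y) = C (M.ev0 φ (rename (fun o => o.elim a M.e) f)) :=
    fun a f y hy => by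
      rw [uni_eval, ev0_eq, eval₂_rename, eval₂_comp_left, eval₂_comp_left, eval₂_comp_left]
      congr 1
      funext o
      cases o
      exacts [hy, hx0 _]
  have hu : ∀ a (y : PowerSeries (MvPolynomial (M.ι × ℕ) B)),
      PowerSeries.constantCoeff y = C ((φ a).coeff 0) →
      IsUnit ((uni (WittVector.map (algebraMap k _)) x (M.f a)).derivative.eval₂
        WittVector.constantCoeff y) := fun a y hy => by
    rw [uni_der, PowerSeries.isUnit_iff_constantCoeff, key a _ y hy]
    refine IsUnit.map _ (isUnit_of_dvd_unit (map_dvd _ (map_dvd _ ?_)) h2)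
    exact (Finset.dvd_prod_of_mem M.der (Finset.mem_univ a)).mul_right _
  have ex : ∀ a, ∃ y, (uni (WittVector.map (algebraMap k _)) x (M.f a)).eval y = 0 ∧
      PowerSeries.constantCoeff (y.coeff 0) = C ((φ a).coeff 0) := fun a => by
    obtain ⟨y, hy, hy'⟩ := hHENS _ (Ideal.span {PowerSeries.X})
      ((uni (WittVector.map (algebraMap k _)) x (M.f a)).map WittVector.constantCoeff)
      (PowerSeries.C (C ((φ a).coeff 0))) (by
        rw [Ideal.mem_span_singleton, PowerSeries.X_dvd_iff, Polynomial.eval_map,
          key a _ _ (PowerSeries.constantCoeff_C _), ev0_eq]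
        exact (congrArg _ (congrArg _ (h1 a))).trans (by rw [map_zero, map_zero]))
      (IsUnit.map _ (by
        rw [Polynomial.derivative_map, Polynomial.eval_map]
        exact hu a _ (PowerSeries.constantCoeff_C _)))
    rw [Ideal.mem_span_singleton, PowerSeries.X_dvd_iff, map_sub, sub_eq_zero,
      PowerSeries.constantCoeff_C] at hy'
    rw [Polynomial.eval_map] at hy
    obtain ⟨w, hw, hw'⟩ := witt hHENS hREC _ y hy (hu a y hy')
    exact ⟨w, hw, hw' ▸ hy'⟩
  choose z hz hz' using ex
  simp only [← Polynomial.eval₂_id, uni_eval, RingHom.id_comp, RingHom.id_apply] at hz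
  have hf : ∀ i, z (M.e i) = x i := fun i => by
    have e := hz (M.e i)
    rw [M.f_e, eval₂_sub, eval₂_X, eval₂_X, sub_eq_zero] at e
    exact e
  refine ⟨z, fun a => ?_, fun i => (hf i).trans (hx i), hz'⟩
  rw [Mod.eqn, eval₂_rename, ← hz a]
  congr 1
  funext o
  cases o
  exacts [rfl, hf _]

end Pool.Agent.P.MP_6f117a_ag.Sp
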