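import Pool.Agent.P.MP_6f117a_ag.C.VIface

/-! Step FIX on specialisations of curves. -/

namespace Pool.Agent.P.MP_6f117a_ag.Sp

open MvPolynomial Filter
open scoped Polynomial WithZero

universe u

namespace FixP

variable {B : Type} [CommRing B] {σ : Type} (M : Filt B) {γ γ' : B}

theorem mem_ser {i : ℕ} {a : PowerSeries (MvPolynomial σ B)} :
    a ∈ (M.ser σ γ).F i ↔ ∀ o m, γ ^ o * coeff m (PowerSeries.coeff o a) ∈ M.F i := Iff.rfl

theorem coeff_zero_T (w : PowerSeries (MvPolynomial σ B)) :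
    PowerSeries.coeff 0 (PowerSeries.C (C γ') * PowerSeries.X * w) = 0 := by
  simp

theorem coeff_succ_T (h : γ * γ' = 1) (w : PowerSeries (MvPolynomial σ B)) (k : ℕ)
    (m : σ →₀ ℕ) :
    γ ^ (k + 1) * coeff m (PowerSeries.coeff (k + 1)
      (PowerSeries.C (C γ') * PowerSeries.X * w)) = γ ^ k * coeff m (PowerSeries.coeff k w) := by
  rw [mul_assoc, PowerSeries.coeff_C_mul, PowerSeries.coeff_succ_X_mul, coeff_C_mul, pow_succ,
    mul_assoc, ← mul_assoc γ, h, one_mul]

theorem T_mem (h : γ * γ' = 1) :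
    (PowerSeries.C (C γ') * PowerSeries.X : PowerSeries (MvPolynomial σ B)) ∈
      (M.ser σ γ).F 0 := by
  rw [← mul_one (PowerSeries.C (C γ') * PowerSeries.X), mem_ser]
  rintro (_ | k) m
  · rw [coeff_zero_T, coeff_zero, mul_zero]
    exact zero_mem _
  · rw [coeff_succ_T h]
    exact (M.ser σ γ).one_mem k m

theorem key (h : γ * γ' = 1) (s : Finset ℕ) (a : ℕ → PowerSeries (MvPolynomial σ B))
    (c y : PowerSeries (MvPolynomial σ B)) (ha : ∀ i, a i ∈ (M.ser σ γ).F 0)
    (hc : c ∈ (M.ser σ γ).F 0)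
    (hy : y = c + PowerSeries.C (C γ') * PowerSeries.X * ∑ i ∈ s, a i * y ^ i) :
    y ∈ (M.ser σ γ).F 0 := by
  rw [mem_ser]
  intro o
  induction o using Nat.strong_induction_on with
  | _ o ih =>
    intro m
    rw [hy, map_add, coeff_add, mul_add]
    refine add_mem (hc o m) ?_
    rcases o with _ | k
    · rw [coeff_zero_T, coeff_zero, mul_zero]
      exact zero_mem _
    rw [coeff_succ_T h]
    let z : PowerSeries (MvPolynomial σ B) :=
      PowerSeries.mk fun i => if i ≤ k then PowerSeries.coeff i y else 0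
    have hz : z ∈ (M.ser σ γ).sub := by
      rw [Filt.mem_sub, mem_ser]
      intro i m'
      rw [PowerSeries.coeff_mk]
      split_ifs with hi
      · exact ih i (Nat.lt_succ_of_le hi) m'
      · rw [coeff_zero, mul_zero]
        exact zero_mem _
    have h1 : PowerSeries.X ^ (k + 1) ∣ y - z := by
      rw [PowerSeries.X_pow_dvd_iff]
      intro i hi
      rw [map_sub, PowerSeries.coeff_mk, if_pos (Nat.le_of_lt_succ hi), sub_self]
    have h2 : PowerSeries.X ^ (k + 1) ∣ ∑ i ∈ s, a i * y ^ i - ∑ i ∈ s, a i * z ^ i := by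
      rw [← Finset.sum_sub_distrib]
      refine Finset.dvd_sum fun i _ => ?_
      rw [← mul_sub]
      exact (h1.trans (sub_dvd_pow_sub_pow y z i)).mul_left _
    have h3 := PowerSeries.X_pow_dvd_iff.1 h2 k (Nat.lt_succ_self k)
    rw [map_sub, sub_eq_zero] at h3
    rw [h3]
    have h4 : ∑ i ∈ s, a i * z ^ i ∈ (M.ser σ γ).sub :=
      sum_mem fun i _ => mul_mem (Filt.mem_sub.2 (ha i)) (pow_mem hz i)
    exact h4 k m

end FixP

theorem pFIX : S_FIX := by
  classical
  intro B _ σ M γ γ' h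
  refine ⟨fun i a ha o m => ?_, fun v o m => ?_, fun Ω _ j hj => ⟨?_, ?_, ?_, ?_⟩⟩
  · rw [PowerSeries.coeff_C]
    split_ifs with ho
    · rw [ho, pow_zero, one_mul, coeff_C]
      split_ifs
      exacts [ha, zero_mem _]
    · rw [coeff_zero, mul_zero]
      exact zero_mem _
  · rw [PowerSeries.coeff_C]
    split_ifs with ho
    · rw [ho, pow_zero, one_mul, coeff_X]
      split_ifs
      exacts [M.one_mem, zero_mem _]
    · rw [coeff_zero, mul_zero]
      exact zero_mem _
  · exact ⟨_, FixP.T_mem M h, rfl⟩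
  · intro e
    have e1 := congrArg (PowerSeries.coeff 1) ((injective_iff_map_eq_zero j).1 hj _ e)
    rw [PowerSeries.coeff_C_mul, PowerSeries.coeff_one_X, mul_one, map_zero] at e1
    have e2 : (1 : MvPolynomial σ B) = 0 := by
      rw [← C_1, ← h, C_mul, e1, mul_zero]
    have e3 := congrArg (fun x => j (PowerSeries.C x)) e2
    simp at e3
  · rintro _ ⟨a, ha, rfl⟩
    have hu : IsUnit (1 + PowerSeries.C (C γ') * PowerSeries.X * a) := by
      rw [PowerSeries.isUnit_iff_constantCoeff]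
      simp
    obtain ⟨b, hb⟩ := hu.exists_right_inv
    refine ⟨j b, ⟨b, FixP.key M h {1} (fun _ => -a) 1 b (fun _ => neg_mem ha)
      (M.ser σ γ).one_mem ?_, rfl⟩, ?_⟩
    · rw [Finset.sum_singleton]
      linear_combination hb
    · have := congrArg j hb
      rwa [map_mul, map_add, map_one, map_mul j _ a] at this
  · rintro H _ _ hH ⟨c, hc, rfl⟩ ⟨y, rfl⟩ e
    choose a ha ha' using fun i => Filt.mem_map.1 (hH i)
    refine ⟨y, FixP.key M h (Finset.range (H.natDegree + 1)) a c y ha hc (hj ?_), rfl⟩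
    rw [Polynomial.eval_eq_sum_range] at e
    rw [map_add, map_mul j _ (∑ _ ∈ _, _), map_sum]
    simp only [map_mul j (a _), map_pow, ha']
    exact e

end Pool.Agent.P.MP_6f117a_ag.Sp
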