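import Pool.Agent.P.MP_6f117a_ag.C.VIface

/-! Step GEN on specialisations of curves. -/

namespace Pool.Agent.P.MP_6f117a_ag.Sp

open MvPolynomial Filter
open scoped Polynomial WithZero

universe u

namespace GenAux

theorem eval_mem {B σ : Type} [CommRing B] (O : Subring B) (f : MvPolynomial σ B) (y : σ → B)
    (hf : ∀ m, coeff m f ∈ O) (hy : ∀ i, y i ∈ O) : eval y f ∈ O := by
  rw [eval_eq]
  exact sum_mem fun m _ => O.mul_mem (hf m) (prod_mem fun i _ => O.pow_mem (hy i) _)

theorem coeff_init {p : ℕ} {A : Type} [CommRing A] (z : WittVector p A) (l j : ℕ) :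
    (WittVector.init l z).coeff j = if j < l then z.coeff j else 0 := by
  simp [WittVector.init, WittVector.select, WittVector.coeff_mk]

end GenAux

theorem pGEN (hGG : S_GG) (hTAY : S_TAY): S_GEN := by
  intro p _ A _ _ R σ _ _ g y J D hR hg h0 hn hy0 hJ hD hinv hder i l
  induction l using Nat.strong_induction_on generalizing i with
  | _ l ih =>
    intro hl
    have low : ∀ o, ∀ j < l, (y o).coeff j ∈ R l := by
      intro o j hj
      rcases Nat.eq_zero_or_pos j with rfl | hj0
      · exact hR (Nat.zero_le l) (hy0 o)
      · cases o with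
        | none => exact hR hj (hn j)
        | some k =>
          have := (R l).add_mem (hR hj.le (ih j hj k hj0))
            ((R l).mul_mem ((R l).pow_mem (hR (Nat.zero_le l) (hD k)) (p ^ j)) (hR hj (hn j)))
          rwa [sub_add_cancel] at this
    obtain ⟨O, hO⟩ := hGG p A (Filt.const (R l)) l
    set y' : Option σ → WittVector p A := fun o => WittVector.init l (y o) with hy'
    have hE : ∀ k, (eval y' (g k)).coeff l ∈ R l := by
      intro k
      refine (hO _).1 (GenAux.eval_mem O (g k) y' (fun m => (hO _).2 fun j _ => ?_)
        fun o => (hO _).2 fun j _ => ?_) l le_rfl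
      · exact hR (Nat.zero_le l) (hg k m j)
      · show (WittVector.init l (y o)).coeff j ∈ R l
        rw [GenAux.coeff_init]
        split_ifs with h
        exacts [low o j h, (R l).zero_mem]
    have hT : ∀ k, -(eval y' (g k)).coeff l =
        ∑ o, (eval y (pderiv o (g k))).coeff 0 ^ p ^ l * (y o).coeff l := by
      intro k
      have := (hTAY p A (Option σ) (g k) y y' l fun o j hj => by
        simp only [hy', GenAux.coeff_init, if_pos hj]).2 hl
      rw [h0 k, WittVector.zero_coeff, zero_sub] at this
      rw [this]
      refine Finset.sum_congr rfl fun o _ => ?_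
      simp only [hy', GenAux.coeff_init, lt_irrefl, if_false, sub_zero]
    have hN : ∑ k, J i k * (eval y (pderiv none (g k))).coeff 0 = -D i := by
      have e : ∀ k, (eval y (pderiv none (g k))).coeff 0 =
          -∑ j, (eval y (pderiv (some j) (g k))).coeff 0 * D j :=
        fun k => eq_neg_of_add_eq_zero_left (hder k)
      simp only [e, mul_neg, Finset.sum_neg_distrib, Finset.mul_sum, ← mul_assoc]
      rw [Finset.sum_comm]
      simp only [← Finset.sum_mul, hinv]
      simp
    have key : (y (some i)).coeff l - D i ^ p ^ l * (y none).coeff l =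
        ∑ k, J i k ^ p ^ l * -(eval y' (g k)).coeff l := by
      have fr : ∀ a : A, a ^ p ^ l = iterateFrobenius A p l a := fun a => rfl
      simp only [hT, Finset.mul_sum, ← mul_assoc, fr, ← map_mul]
      rw [Finset.sum_comm]
      simp only [← Finset.sum_mul, ← map_sum, Fintype.sum_option, hN, hinv, map_neg]
      simp only [apply_ite, map_one, map_zero, ite_mul, one_mul, zero_mul, Finset.sum_ite_eq,
        Finset.mem_univ, if_true]
      ring
    rw [key]
    exact sum_mem fun k _ => (R l).mul_mem ((R l).pow_mem (hR (Nat.zero_le l) (hJ i k)) _)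
      ((R l).neg_mem (hE k))

end Pool.Agent.P.MP_6f117a_ag.Sp
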