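import Pool.Agent.P.MP_6f117a_ag.C.VIface

/-! Step GG on specialisations of curves. -/

namespace Pool.Agent.P.MP_6f117a_ag.Sp

open MvPolynomial Filter
open scoped Polynomial WithZero

universe u

namespace GgA

open WittVector

variable {p : ℕ} [Fact p.Prime] {A : Type} [CommRing A]

theorem range_iff (R : Subring A) (w : WittVector p A) :
    w ∈ (WittVector.map R.subtype).range ↔ ∀ l, w.coeff l ∈ R :=
  ⟨fun ⟨v, e⟩ l => e ▸ map_coeff R.subtype v l ▸ (v.coeff l).2, fun h =>
    ⟨mk p fun l => ⟨_, h l⟩, WittVector.ext fun l => map_coeff _ _ l⟩⟩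

/-- the Rees ring -/
def rees (M : Filt A) : Subring A[X] where
  carrier := {q | ∀ i, q.coeff i ∈ M.F i}
  add_mem' {a b} ha hb i := Polynomial.coeff_add a b i ▸ add_mem (ha i) (hb i)
  zero_mem' _ := zero_mem _
  neg_mem' {a} ha i := Polynomial.coeff_neg a i ▸ neg_mem (ha i)
  one_mem' i := by
    rw [Polynomial.coeff_one]
    split_ifs with h
    exacts [h ▸ M.one_mem, zero_mem _]
  mul_mem' ha hb i := by
    rw [Polynomial.coeff_mul]
    exact sum_mem fun x hx => Finset.HasAntidiagonal.mem_antidiagonal.1 hx ▸ M.mul_mem (ha _) (hb _)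

theorem rees_iff (hTCH : S_TCH) (M : Filt A) (c : ℕ) (z : WittVector p A) :
    teichmuller p (Polynomial.X ^ c) * WittVector.map Polynomial.C z ∈
      (WittVector.map (rees M).subtype).range ↔ ∀ l, z.coeff l ∈ M.F (c * p ^ l) := by
  refine (range_iff _ _).trans (forall_congr' fun l => ?_)
  rw [hTCH, map_coeff, ← pow_mul, Polynomial.X_pow_mul_C]
  refine ⟨fun h => by simpa using h (c * p ^ l), fun h i => ?_⟩
  rw [Polynomial.coeff_C_mul_X_pow]
  split_ifs with e
  exacts [e ▸ h, zero_mem _]

theorem init_mem {M : Filt A} {n l : ℕ} {z : WittVector p A} (h : M.Int p n z) (hl : l ≤ n)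
    (i : ℕ) : (init (l + 1) z).coeff i ∈ M.F (l * p ^ i) := by
  simp only [init, select, coeff_mk]
  split_ifs with e
  exacts [M.mono (Nat.mul_le_mul_right _ (by omega)) (h i (by omega)), zero_mem _]

theorem init_coeff (l : ℕ) (z : WittVector p A) : (init (l + 1) z).coeff l = z.coeff l := by
  simp [init, select]

/-- the additive group -/
def grp (hTCH : S_TCH) (M : Filt A) (p n : ℕ) [Fact p.Prime] : AddSubgroup (WittVector p A) where
  carrier := {z | M.Int p n z}
  zero_mem' l _ := by simp
  add_mem' {a b} ha hb l hl := by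
    rw [← init_coeff, init_add, init_coeff]
    refine (rees_iff hTCH M l _).1 ?_ l
    rw [map_add, mul_add]
    exact add_mem ((rees_iff hTCH M l _).2 (init_mem ha hl))
      ((rees_iff hTCH M l _).2 (init_mem hb hl))
  neg_mem' {a} ha l hl := by
    rw [← init_coeff, init_neg, init_coeff]
    refine (rees_iff hTCH M l _).1 ?_ l
    rw [map_neg, mul_neg]
    exact neg_mem ((rees_iff hTCH M l _).2 (init_mem ha hl))

theorem vt (a : A) (i l : ℕ) :
    (verschiebung^[i] (teichmuller p a)).coeff l = if l = i then a else 0 := by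
  rcases lt_or_ge l i with h | h
  · rw [iterate_verschiebung_coeff_eq_zero _ h, if_neg h.ne]
  obtain ⟨k, rfl⟩ := Nat.exists_eq_add_of_le' h
  rw [iterate_verschiebung_coeff]
  cases k with
  | zero => simp
  | succ k => simp [teichmuller_coeff_pos]

theorem ft [CharP A p] (a : A) (i : ℕ) :
    frobenius^[i] (teichmuller p a) = teichmuller p (a ^ p ^ i) := WittVector.ext fun k => by
  rw [iterate_frobenius_coeff]
  cases k with
  | zero => simp [-map_pow]
  | succ k => simp [-map_pow, teichmuller_coeff_pos, (Fact.out : p.Prime).ne_zero]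

theorem tail (z : WittVector p A) (n : ℕ) :
    z - ∑ i ∈ Finset.range n, verschiebung^[i] (teichmuller p (z.coeff i)) ∈
      RingHom.ker (truncate n) := by
  rw [RingHom.sub_mem_ker_iff]
  refine TruncatedWittVector.ext fun i => ?_
  have k : ∀ i l, (verschiebung^[i] (teichmuller p (z.coeff i))).coeff l ≠ 0 → l = i :=
    fun i l h => by_contra fun e => h (by rw [vt, if_neg e])
  rw [coeff_truncate, coeff_truncate, sum_coeff_eq_coeff_sum _ fun l => ⟨fun a b => Subtype.ext
    ((k _ l a.2.2).symm.trans (k _ l b.2.2))⟩]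
  simp [vt]

end GgA

open GgA WittVector in
theorem pGG (hTCH : S_TCH): S_GG := by
  intro p _ A _ _ M n
  refine ⟨{ grp hTCH M p n with
    one_mem' := fun l _ => ?_
    mul_mem' := fun {a b} ha hb => ?_ }, fun _ => Iff.rfl⟩
  · have k : ∀ z ∈ RingHom.ker (truncate (n + 1)), z ∈ grp hTCH M p n := fun z hz l hl =>
      (mem_ker_truncate _ z).1 hz l (by omega) ▸ zero_mem _
    have := add_mem (add_mem (k _ (Ideal.mul_mem_right b _ (GgA.tail a (n + 1))))
      (k _ (Ideal.mul_mem_left _ (∑ i ∈ Finset.range (n + 1),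
        verschiebung^[i] (teichmuller p (a.coeff i))) (GgA.tail b (n + 1)))))
      (show (∑ i ∈ Finset.range (n + 1), verschiebung^[i] (teichmuller p (a.coeff i))) *
        ∑ i ∈ Finset.range (n + 1), verschiebung^[i] (teichmuller p (b.coeff i)) ∈ _ from ?_)
    · rwa [mul_sub, add_assoc, sub_add_cancel, ← add_mul, sub_add_cancel] at this
    rw [Finset.sum_mul_sum]
    refine sum_mem fun i hi => sum_mem fun j hj l _ => ?_
    rw [iterate_verschiebung_mul, ft, ft, ← map_mul, vt]
    split_ifs with e
    · have := M.mul_mem (M.pow_mem (ha i (Finset.mem_range_succ_iff.1 hi)) (p ^ j))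
        (M.pow_mem (hb j (Finset.mem_range_succ_iff.1 hj)) (p ^ i))
      rwa [show p ^ j * (i * p ^ i) + p ^ i * (j * p ^ j) = l * p ^ l by rw [e]; ring] at this
    · exact zero_mem _
  · cases l with
    | zero => simpa using M.one_mem
    | succ l => rw [one_coeff_eq_of_pos _ _ _ l.succ_pos]; exact zero_mem _

end Pool.Agent.P.MP_6f117a_ag.Sp
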