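import Pool.Agent.P.MP_6f117a_ag.C.VIface

/-! Step HENS on specialisations of curves. -/

namespace Pool.Agent.P.MP_6f117a_ag.Sp

open MvPolynomial Filter
open scoped Polynomial WithZero

universe u

namespace HensA

open Polynomial

/-- the normalised case -/
theorem unit {R : Type} [CommRing R] (I : Ideal R) [HenselianRing R I] {c u : R} (hc : c ∈ I)
    (hu : IsUnit (Ideal.Quotient.mk I u)) (q : R[X]) :
    ∃ W : R, 1 + u * W + c * (W ^ 2 * q.eval W) = 0 := by
  set g : R[X] := 1 + Polynomial.C u * Polynomial.X ^ 1 + Polynomial.C c * (Polynomial.X ^ 2 * q)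
    with hg
  set N := g.natDegree
  have hN : g.natDegree ≤ N + 2 := by omega
  obtain ⟨r, hr⟩ : ∃ r, reflect (N + 2) g =
      Polynomial.X ^ (N + 2) + Polynomial.C u * Polynomial.X ^ (N + 1) + Polynomial.C c * r :=
    ⟨_, by
      rw [hg, reflect_add, reflect_add, reflect_one, reflect_C_mul_X_pow, reflect_C_mul,
        revAt_le (by omega)]
      rfl⟩
  have hm : (reflect (N + 2) g).Monic := monic_of_natDegree_le_of_coeff_eq_one (N + 2)
    (natDegree_reflect_le.trans (by omega)) (by simp [hg])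
  have h0 := Ideal.Quotient.eq_zero_iff_mem.2 hc
  obtain ⟨U, h1, h2⟩ := HenselianRing.is_henselian (I := I) _ hm (-u) (by
    rw [hr, ← Ideal.Quotient.eq_zero_iff_mem]
    simp [h0, pow_succ]
    ring) (by
    have : Ideal.Quotient.mk I ((derivative (reflect (N + 2) g)).eval (-u)) =
        (-Ideal.Quotient.mk I u) ^ (N + 1) := by
      rw [hr]
      simp [h0]
      ring
    exact this ▸ hu.neg.pow _)
  have := isLocalHom_of_le_jacobson_bot I HenselianRing.jac
  have h3 : IsUnit U := IsUnit.of_map (Ideal.Quotient.mk I) _ (by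
    rw [Ideal.Quotient.eq.2 h2, map_neg]
    exact hu.neg)
  obtain ⟨U, rfl⟩ := h3
  let _ := U⁻¹.invertible
  have h4 := (eval₂_reflect_eq_zero_iff (RingHom.id R) (U⁻¹ : Rˣ).1 (N + 2) g hN).1 h1
  exact ⟨_, by simpa [hg] using h4⟩

end HensA

theorem pHENS : S_HENS := by
  intro R _ I _ f a h1 h2
  obtain ⟨W, hW⟩ := HensA.unit I h1 h2 ((Polynomial.taylor a f).divX.divX.comp
    (Polynomial.C (f.eval a) * Polynomial.X))
  refine ⟨f.eval a * W + a, ?_, by simpa using I.mul_mem_right W h1⟩
  have e1 := Polynomial.X_mul_divX_add (Polynomial.taylor a f)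
  have e2 := Polynomial.X_mul_divX_add (Polynomial.taylor a f).divX
  rw [Polynomial.coeff_divX, Polynomial.taylor_coeff_one] at e2
  rw [← e2, Polynomial.taylor_coeff_zero] at e1
  rw [← Polynomial.taylor_eval, ← e1]
  simp only [Polynomial.eval_comp, Polynomial.eval_add, Polynomial.eval_mul, Polynomial.eval_C,
    Polynomial.eval_X] at hW ⊢
  linear_combination f.eval a * hW

end Pool.Agent.P.MP_6f117a_ag.Sp
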