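import Pool.Agent.P.MP_6f117a_ag.C.VIface

/-! Step HOMC on specialisations of curves. -/

namespace Pool.Agent.P.MP_6f117a_ag.Sp

open MvPolynomial Filter
open scoped Polynomial WithZero

universe u

namespace Homc

theorem coeff {k K ι : Type} [Field k] [Field K] [Algebra k K] (y : ι → K) (b : ℕ)
    (G : MvPolynomial ι k) :
    (aeval (fun i => Polynomial.X * Polynomial.C (y i)) G).coeff b =
      aeval y (homogeneousComponent b G) := by
  induction G using MvPolynomial.induction_on' with
  | add p q hp hq => rw [map_add, map_add, map_add, Polynomial.coeff_add, hp, hq]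
  | monomial m c =>
    have h1 : aeval (fun i => Polynomial.X * Polynomial.C (y i)) (monomial m c) =
        Polynomial.C (aeval y (monomial m c)) * Polynomial.X ^ m.degree := by
      simp only [aeval_monomial, Finsupp.prod, mul_pow, Finset.prod_mul_distrib, map_mul, map_prod,
        map_pow, Finset.prod_pow_eq_pow_sum, Polynomial.algebraMap_apply, Finsupp.degree_apply]
      ring
    rw [h1, Polynomial.coeff_C_mul_X_pow,
      homogeneousComponent_of_mem (isHomogeneous_monomial c rfl)]
    split_ifs
    · rfl
    · rw [map_zero]

end Homc

theorem pHOMC : S_HOMC := by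
  intro k K σ ι _ _ _ y G h b
  have h1 : aeval (fun i => (C (RatFunc.X * algebraMap K (RatFunc K) (y i)) :
      MvPolynomial σ (RatFunc K))) G = C (algebraMap K[X] (RatFunc K)
        (aeval (fun i => Polynomial.X * Polynomial.C (y i)) G)) := by
    clear h
    induction G using MvPolynomial.induction_on with
    | C a =>
      rw [aeval_C, aeval_C, MvPolynomial.algebraMap_apply, ← IsScalarTower.algebraMap_apply]
    | add p q hp hq => rw [map_add, map_add, map_add, map_add, hp, hq]
    | mul_X p i hp =>
      rw [map_mul (aeval _), map_mul (aeval _), hp, aeval_X, aeval_X, map_mul (algebraMap _ _),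
        map_mul (algebraMap _ _), RatFunc.algebraMap_X, RatFunc.algebraMap_C,
        RatFunc.algebraMap_eq_C, ← map_mul]
  rw [h1, C_eq_zero, map_eq_zero_iff _ (RatFunc.algebraMap_injective K)] at h
  rw [← Homc.coeff, h, Polynomial.coeff_zero]

end Pool.Agent.P.MP_6f117a_ag.Sp
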