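import Pool.Agent.P.MP_6f117a_ag.C.Iface

/-! Step COVER on specialisations of curves. -/

namespace Pool.Agent.P.MP_6f117a_ag.Sp

open MvPolynomial Filter
open scoped Polynomial WithZero IntermediateField nonZeroDivisors

universe u

namespace CoverA

variable {L K : Type u} [Field L] [Field K] [Algebra L K]

theorem setup [CharZero L] [FF L K] {s : K} (ht : Transcendental L s) :
    (∀ y, Reg L s y → ∃ (n : ℕ) (c : ℕ → L[X]),
      y ^ n + ∑ i ∈ Finset.range n, Polynomial.aeval s (c i) * y ^ i = 0) ∧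
    ∀ f : Place L K → K, (∀ P, Reg L s (f P)) → (∀ P : Place L K, P.v s ≤ 1 → P.v (f P) = 1) →
      ∃ (Z : Finset (Place L K)) (a : Place L K → K), (∀ P, Reg L s (a P)) ∧
        ∑ P ∈ Z, a P * f P = 1 := by
  have := FF.fin s ht
  let φ : L[X] →ₐ[L] L⟮s⟯ := Polynomial.aeval (IntermediateField.AdjoinSimple.gen L s)
  let _ : Algebra L[X] L⟮s⟯ := φ.toAlgebra
  let _ : Algebra L[X] K := (Polynomial.aeval s : L[X] →ₐ[L] K).toAlgebra
  have hX : algebraMap L[X] K Polynomial.X = s := Polynomial.aeval_X s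
  have : IsScalarTower L L[X] K := .of_algebraMap_eq fun c =>
    ((Polynomial.aeval s : L[X] →ₐ[L] K).commutes c).symm
  have : IsScalarTower L[X] L⟮s⟯ K := .of_algebraMap_eq fun p =>
    Polynomial.aeval_algebraMap_apply K (IntermediateField.AdjoinSimple.gen L s) p
  have : IsFractionRing L[X] L⟮s⟯ := IsLocalization.isLocalization_of_algEquiv L[X]⁰
    { (RatFunc.algEquivOfTranscendental s ht).toRingEquiv with
      commutes' := RatFunc.algEquivOfTranscendental_algebraMap s ht : RatFunc L ≃ₐ[L[X]] L⟮s⟯ }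
  have : CharZero L⟮s⟯ := charZero_of_injective_algebraMap (algebraMap L L⟮s⟯).injective
  have : Module.IsTorsionFree L[X] K := .trans_faithfulSMul L[X] L⟮s⟯ K
  let B := integralClosure L[X] K
  have : IsDedekindDomain B := integralClosure.isDedekindDomain L[X] L⟮s⟯ K
  have : IsFractionRing B K := integralClosure.isFractionRing_of_finite_extension L⟮s⟯ K
  have hr : ∀ x, Reg L s x ↔ ∃ b, algebraMap B K b = x := fun x => hX ▸ reg_iff x
  refine ⟨fun y hy => ?_, fun f h1 h2 => ?_⟩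
  · obtain ⟨b, rfl⟩ := (hr y).1 hy
    obtain ⟨p, hp, e⟩ := b.2
    refine ⟨p.natDegree, p.coeff, ?_⟩
    rw [hp.as_sum] at e
    simpa [Polynomial.eval₂_finsetSum] using! e
  · choose g hg using fun P => (hr _).1 (h1 P)
    have top : Ideal.span (Set.range g) = ⊤ := by
      by_contra hc
      obtain ⟨m, hm, hle⟩ := Ideal.exists_le_maximal _ hc
      have ne : m ≠ ⊥ := Ring.ne_bot_of_isMaximal_of_not_isField hm fun hF => by
        have h3 := (Algebra.IsIntegral.isField_iff_isField (R := L[X]) (S := B)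
          (FaithfulSMul.algebraMap_injective _ _)).2 hF
        exact Polynomial.not_isField L h3
      let w : IsDedekindDomain.HeightOneSpectrum B := ⟨m, hm.isPrime, ne⟩
      have h3 := h2 (toPlace w) (by
        rw [← hX, IsScalarTower.algebraMap_apply L[X] B K]; exact w.valuation_le_one _)
      rw [← hg] at h3
      exact ((w.valuation_lt_one_iff_mem (K := K) _).2
        (hle (Ideal.subset_span ⟨toPlace w, rfl⟩))).ne h3
    obtain ⟨a, ha⟩ := Finsupp.mem_ideal_span_range_iff_exists_finsupp.1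
      ((Ideal.eq_top_iff_one _).1 top)
    refine ⟨a.support, fun P => algebraMap B K (a P), fun P => (hr _).2 ⟨_, rfl⟩, ?_⟩
    simpa only [Finsupp.sum, map_sum, map_mul, hg, map_one] using congrArg (algebraMap B K) ha

theorem const_mem {p : ℕ} [Fact p.Prime] (V : ValuationSubring (KK p)) (c : kk p) :
    algebraMap (kk p) (KK p) c ∈ V := by
  have h1 : IsIntegral ℤ c := isIntegral_trans (A := ZMod p) c (Algebra.IsIntegral.isIntegral c)
  have h2 : IsIntegral V (algebraMap (kk p) (KK p) c) :=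
    (h1.map (algebraMap (kk p) (KK p)).toIntAlgHom).tower_top
  obtain ⟨y, hy⟩ := IsIntegrallyClosed.isIntegral_iff.1 h2
  exact hy ▸ y.2

variable {t : K} {δ : Derivation L K K}

theorem ev_poly (s : K) (q : L[X]) : ∀ᶠ χ in sqF t δ, ∀ V : ValuationSubring (KK χ.1.p),
    χ.2.pi s ∈ V → χ.2.pi (Polynomial.aeval s q) ∈ V := by
  filter_upwards [ev_pi_aeval (fun _ : Unit => s) (Polynomial.aeval (X ()) q)] with χ h V hV
  rw [← Polynomial.aeval_algHom_apply, aeval_X] at h
  rw [h]
  generalize χ.1.red0 _ = f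
  induction f using MvPolynomial.induction_on with
  | C c => rw [aeval_C]; exact const_mem V c
  | add f g hf hg => rw [map_add]; exact add_mem hf hg
  | mul_X f i hf => rw [map_mul, aeval_X]; exact mul_mem hf hV

variable [CharZero L] [FF L K] {s : K}

theorem ev_reg (hs : Transcendental L s) {y : K} (hy : Reg L s y) : ∀ᶠ χ in sqF t δ,
    ∀ V : ValuationSubring (KK χ.1.p), χ.2.pi s ∈ V → χ.2.pi y ∈ V := by
  obtain ⟨n, c, e⟩ := (setup hs).1 y hy
  filter_upwards [ev_B y, (eventually_all_finset (Finset.range n)).2 fun i _ =>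
    (ev_B (Polynomial.aeval s (c i))).and (ev_poly s (c i))] with χ h1 h2 V hV
  have h3 := congrArg χ.2.pi e
  have h4 : ∀ i ∈ Finset.range n, Polynomial.aeval s (c i) * y ^ i ∈ χ.2.B :=
    fun i hi => mul_mem (h2 i hi).1 (pow_mem h1 i)
  rw [Sq.pi, χ.2.ex_add _ (pow_mem h1 n) (sum_mem h4), χ.2.ex_sum _ _ h4, χ.2.ex_pow _ h1,
    χ.2.ex_zero, add_eq_zero_iff_eq_neg] at h3
  by_contra hc
  rw [← V.valuation_le_one_iff, not_le] at hc
  refine (V.valuation.map_sum_lt (pow_ne_zero n (zero_lt_one.trans hc).ne') fun i hi => ?_).ne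
    (by rw [← map_pow, h3, Valuation.map_neg])
  rw [χ.2.ex_mul _ (h2 i hi).1 (pow_mem h1 i), χ.2.ex_pow _ h1, map_mul, map_pow]
  exact (mul_le_of_le_one_left' ((V.valuation_le_one_iff _).2 ((h2 i hi).2 V hV))).trans_lt
    (pow_lt_pow_right₀ hc (Finset.mem_range.1 hi))

theorem half [IsAlgClosed L] (hs : Transcendental L s) (S : Place L K → Finset K)
    (hS : ∀ P, ∀ b ∈ S P, P.v b ≤ 1) : ∃ Z : Finset (Place L K), ∀ᶠ χ in sqF t δ,
      ∀ V : ValuationSubring (KK χ.1.p), χ.2.pi s ∈ V → ∃ P ∈ Z, ∀ b ∈ S P, χ.2.pi b ∈ V := by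
  classical
  have key : ∀ P : Place L K, ∃ f, Reg L s f ∧ (P.v s ≤ 1 → P.v f = 1) ∧
      ∀ b ∈ S P, Reg L s (f * b) := by
    intro P
    by_cases hP : P.v s ≤ 1
    swap
    · exact ⟨0, fun _ _ => by simp, fun h => (hP h).elim, fun _ _ _ _ => by simp⟩
    have := hS P
    generalize S P = T at this
    induction T using Finset.induction_on with
    | empty => exact ⟨1, fun _ _ => by simp, fun _ => by simp, by simp⟩
    | insert b T _ ih =>
      obtain ⟨f, h1, h2, h3⟩ := ih fun b hb => this b (Finset.mem_insert_of_mem hb)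
      obtain ⟨y, z, hy, hz, z1, e⟩ := (model hs).frac P hP b (this b (Finset.mem_insert_self _ _))
      refine ⟨z * f, hz.mul h1, fun _ => by rw [map_mul, z1, h2 hP, one_mul], fun b' hb => ?_⟩
      rcases Finset.mem_insert.1 hb with rfl | hb
      · rw [mul_right_comm, mul_comm z, e]; exact hy.mul h1
      · rw [mul_assoc]; exact hz.mul (h3 b' hb)
  choose f f1 f2 f3 using key
  obtain ⟨Z, a, ha, e⟩ := (setup hs).2 f f1 f2
  refine ⟨Z, ?_⟩
  filter_upwards [(eventually_all_finset Z).2 fun P _ => (((ev_B (a P)).and (ev_B (f P))).and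
    ((ev_reg hs (ha P)).and (ev_reg hs (f1 P)))).and ((eventually_all_finset (S P)).2 fun b hb =>
      (ev_B b).and (ev_reg hs (f3 P b hb)))] with χ h V hV
  have h3 := congrArg χ.2.pi e
  rw [Sq.pi, χ.2.ex_sum _ _ fun P hP => mul_mem (h P hP).1.1.1 (h P hP).1.1.2, χ.2.ex_one] at h3
  by_contra hc
  push Not at hc
  refine (V.valuation.map_sum_lt one_ne_zero fun P hP => ?_).ne (by rw [h3, map_one])
  obtain ⟨b, hb, h4⟩ := hc P hP
  obtain ⟨⟨⟨a1, a2⟩, a3, a4⟩, a5⟩ := h P hP
  rw [χ.2.ex_mul _ a1 a2, map_mul]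
  refine mul_lt_one_of_nonneg_of_lt_one_right ((V.valuation_le_one_iff _).2 (a3 V hV)) zero_le
    (((V.valuation_le_one_iff _).2 (a4 V hV)).lt_of_ne fun h5 => h4 ?_)
  have h6 := (V.valuation_le_one_iff _).2 ((a5 b hb).2 V hV)
  rw [Sq.pi, χ.2.ex_mul _ a2 (a5 b hb).1, map_mul, h5, one_mul] at h6
  exact (V.valuation_le_one_iff _).1 h6

end CoverA

open CoverA in
theorem pCOVER (L : Type u) [Field L] [IsAlgClosed L] [CharZero L] :
    S_COVER L := by
  classical
  intro K _ _ _ t δ ht S hS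
  have h1 : Transcendental L t := (const_or_trans t).resolve_left (by
    rintro ⟨c, rfl⟩
    simp at ht)
  obtain ⟨Z, hZ⟩ := half (t := t) (δ := δ) h1 S hS
  obtain ⟨Z', hZ'⟩ := half (t := t) (δ := δ) (trans_inv h1) S hS
  refine ⟨Z ∪ Z', ?_⟩
  filter_upwards [hZ, hZ', ev_B t⁻¹] with χ a b c V
  have e := χ.2.ex_mul χ.2.π χ.2.t_mem c
  rw [mul_inv_cancel₀ (trans_ne h1), χ.2.ex_one] at e
  rcases V.mem_or_inv_mem (χ.2.pi t) with h | h
  · exact (a V h).imp fun P hP => ⟨Finset.mem_union_left _ hP.1, hP.2⟩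
  · rw [inv_eq_of_mul_eq_one_right e.symm] at h
    exact (b V h).imp fun P hP => ⟨Finset.mem_union_right _ hP.1, hP.2⟩

end Pool.Agent.P.MP_6f117a_ag.Sp
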