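import Pool.Agent.P.MP_6f117a_ag.C.VIface
import Pool.Agent.P.MP_6f117a_ag.C.Cover

/-! Step JET on specialisations of curves. -/

namespace Pool.Agent.P.MP_6f117a_ag.Sp

open MvPolynomial Filter WittVector
open scoped Polynomial WithZero

universe u

namespace JetA

theorem scale {R A σ : Type*} [CommRing R] [CommRing A] (f : R →+* A) {g : MvPolynomial σ R}
    {d : ℕ} (hg : g.IsHomogeneous d) (c : A) (x : σ → A) :
    eval₂ f (fun i => c * x i) g = c ^ d * eval₂ f x g := by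
  rw [eval₂_eq, eval₂_eq, Finset.mul_sum]
  refine Finset.sum_congr rfl fun m hm => ?_
  have e : ∑ i ∈ m.support, m i = d := by
    rw [← hg (mem_support_iff.1 hm)]; simp [Finsupp.weight_apply, Finsupp.sum]
  simp only [mul_pow, Finset.prod_mul_distrib, Finset.prod_pow_eq_pow_sum, e]
  ring

theorem sc (hGG : S_GG) (hTAY : S_TAY) {p : ℕ} [Fact p.Prime] {A : Type} [CommRing A] [CharP A p]
    (R : Subring A) (w μ : WittVector p A) {l : ℕ} (hl : 0 < l) (h0 : w.coeff 0 = 1)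
    (hw : ∀ i ≤ l, w.coeff i ∈ R) (hμ : ∀ i < l, μ.coeff i ∈ R) :
    (w * μ).coeff l - μ.coeff l ∈ R := by
  obtain ⟨O, hO⟩ := hGG p A (Filt.const R) l
  let μ' : WittVector p A := mk p fun i => if i < l then μ.coeff i else 0
  have h1 : μ' ∈ O := (hO _).2 fun i _ => by
    simp only [μ', coeff_mk]
    split_ifs with h
    exacts [hμ i h, zero_mem _]
  have h2 := (hTAY p A Unit (C w * X ()) (fun _ => μ) (fun _ => μ') l
    fun _ j hj => by simp [μ', hj]).2 hl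
  have h3 : (w * μ').coeff l ∈ R := (hO _).1 (O.mul_mem ((hO _).2 hw) h1) l le_rfl
  simp [μ', h0] at h2
  rwa [show (w * μ).coeff l - μ.coeff l = (w * μ').coeff l by linear_combination h2]

variable {L K : Type u} [Field L] [Field K] [Algebra L K] {t : K} {δ : Derivation L K K}

theorem der_aeval {σ : Type} [Fintype σ] (y : σ → K) (G : MvPolynomial σ L) :
    δ (aeval y G) = ∑ i, aeval y (pderiv i G) * δ (y i) := by
  classical
  induction G using MvPolynomial.induction_on with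
  | C c => simp
  | add f g hf hg => simp [hf, hg, add_mul, Finset.sum_add_distrib]
  | mul_X f i hf =>
    simp only [map_mul, aeval_X, Derivation.leibniz, hf, smul_eq_mul, map_add, add_mul,
      Finset.sum_add_distrib, pderiv_X, Pi.single_apply, Finset.mul_sum, mul_assoc]
    simp

/-- A lift of the specialisation to Witt vectors. -/
structure Lf {ω : Spec L} (χ : Sq t δ ω) (Ω : Type) [Field Ω] where
  ι : KK ω.p →+* Ω
  θ : χ.B →+* WittVector ω.p Ω
  h0 : ∀ b, (θ b).coeff 0 = ι (χ.π b)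
  hc : ∀ a : ω.Λ, θ ⟨_, χ.mem a⟩ = WittVector.map (ι.comp (algebraMap (kk ω.p) (KK ω.p))) (ω.ρ a)

theorem Lf.ex0 {ω : Spec L} {χ : Sq t δ ω} {Ω : Type} [Field Ω] (F : Lf χ Ω) (b : K) :
    (χ.ex F.θ b).coeff 0 = F.ι (χ.pi b) := by
  by_cases h : b ∈ χ.B
  · rw [χ.ex_of_mem _ h, F.h0, Sq.pi, χ.ex_of_mem _ h]
  · simp [Sq.pi, Sq.ex, h]

theorem chart {O : Subring K} {s : K} {σ : Type} {x : σ → K} (c : Chart L O s x) :
    ∀ᶠ χ in sqF t δ, ∀ (Ω : Type) [Field Ω] (F : Lf χ.2 Ω),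
      ∃ g : Fin c.n → MvPolynomial (Option (Fin c.n)) (WittVector χ.1.p Ω),
      (∀ i m l, ∃ a, (coeff m (g i)).coeff l = F.ι (algebraMap (kk χ.1.p) _ a)) ∧
      (∀ i, eval (fun i => χ.2.ex F.θ (c.z i)) (g i) = 0) ∧
      (∀ l l', ∑ i, F.ι (χ.2.pi (c.J l i)) * (eval (fun i => χ.2.ex F.θ (c.z i))
        (pderiv (some l') (g i))).coeff 0 = if l = l' then 1 else 0) ∧
      ∀ i, ∑ o, (eval (fun i => χ.2.ex F.θ (c.z i)) (pderiv o (g i))).coeff 0 *
        F.ι (χ.2.pi (δ (c.z o))) = 0 := by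
  filter_upwards [eventually_all.2 fun i => ev_ex_aeval c.z (c.R i),
    eventually_all.2 fun i => eventually_all.2 fun o => ev_ex_aeval c.z (pderiv o (c.R i)),
    eventually_all.2 fun i => eventually_all.2 fun o => ev_sp (ev_red_pderiv o (c.R i)),
    eventually_all.2 fun i => ev_Bs (c.J i), ev_Bs fun o => δ (c.z o),
    eventually_all.2 fun i => ev_Bs fun o => aeval c.z (pderiv o (c.R i))]
    with χ h1 h2 h3 h4 h5 h6 Ω _ F
  let f := WittVector.map (p := χ.1.p) (F.ι.comp (algebraMap (kk χ.1.p) (KK χ.1.p)))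
  have e : ∀ i o, (eval (fun i => χ.2.ex F.θ (c.z i)) (pderiv o (MvPolynomial.map f
      (χ.1.red (c.R i))))).coeff 0 = F.ι (χ.2.pi (aeval c.z (pderiv o (c.R i)))) := fun i o => by
    rw [pderiv_map, eval_map, ← h3, ← h2 i o _ F.θ f F.hc, F.ex0]
  refine ⟨fun i => MvPolynomial.map f (χ.1.red (c.R i)), fun i m l => ⟨_, by rw [coeff_map]; rfl⟩,
    fun i => by rw [eval_map, ← h1 i _ F.θ f F.hc, c.rel, χ.2.ex_zero], fun l l' => ?_, fun i => ?_⟩
  · simp only [e, ← map_mul, ← map_sum, ← χ.2.ex_mul _ (h4 _ _) (h6 _ _)]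
    rw [← χ.2.ex_sum _ _ fun i _ => mul_mem (h4 _ _) (h6 _ _), c.inv]
    split_ifs <;> simp
  · simp only [e, ← map_mul, ← map_sum, ← χ.2.ex_mul _ (h6 _ _) (h5 _)]
    rw [← χ.2.ex_sum _ _ fun i _ => mul_mem (h6 _ _) (h5 _), ← der_aeval, c.rel]
    simp

theorem loc (hREC : S_REC) {O : Subring K} {s : K} {σ : Type} {x : σ → K} (c : Chart L O s x) :
    ∀ᶠ χ in sqF t δ, ∀ (Ω : Type) [Field Ω] (F : Lf χ.2 Ω) (M : Filt Ω) (n : ℕ),
      (∀ a, F.ι (algebraMap (kk χ.1.p) _ a) ∈ M.F 0) → (∀ i, F.ι (χ.2.pi (c.z i)) ∈ M.F 0) →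
      (∀ i j, F.ι (χ.2.pi (c.J i j)) ∈ M.F 0) → M.Int χ.1.p n (χ.2.ex F.θ s) →
      ∀ j, M.Int χ.1.p n (χ.2.ex F.θ (x j)) := by
  filter_upwards [chart c] with χ h Ω _ F M n h1 h2 h3 h4 j
  have := charP_of_injective_ringHom F.ι.injective χ.1.p
  obtain ⟨g, g1, g2, g3, -⟩ := h Ω F
  rw [← c.z_idx]
  refine hREC _ Ω M n _ g _ _ (fun i m l _ => ?_) g2 (by rwa [c.z_none])
    (fun i => by rw [F.ex0]; exact h2 i) h3 g3 _
  obtain ⟨a, ha⟩ := g1 i m l
  exact ha ▸ M.mono (Nat.zero_le _) (h1 a)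

theorem gen [FF L K] (hGEN : S_GEN) (h0 : S_CHART0 L) (ht : δ t = 1) (htr : Transcendental L t)
    (T : Finset K) : ∀ᶠ χ in sqF t δ, ∀ (Ω : Type) [Field Ω] (F : Lf χ.2 Ω) (R : ℕ → Subring Ω),
      Monotone R → (∀ a, F.ι a ∈ R 0) → (∀ l, (χ.2.ex F.θ t).coeff l ∈ R (l + 1)) →
      ∀ b ∈ T, ∀ l, 0 < l →
        (χ.2.ex F.θ b).coeff l - F.ι (χ.2.pi (δ b)) ^ χ.1.p ^ l * (χ.2.ex F.θ t).coeff l ∈ R l := by
  obtain ⟨c⟩ := h0 K t htr _ fun i => (T.equivFin.symm i : K)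
  filter_upwards [chart c] with χ h Ω _ F R h1 h2 h3 b hb l hl
  have := charP_of_injective_ringHom F.ι.injective χ.1.p
  obtain ⟨g, g1, g2, g3, g4⟩ := h Ω F
  have := hGEN _ Ω R _ g _ _ (fun i => F.ι (χ.2.pi (δ (c.z (some i))))) h1
    (fun i m l => by obtain ⟨a, ha⟩ := g1 i m l; exact ha ▸ h2 _) g2 (by rwa [c.z_none])
    (fun i => by rw [F.ex0]; exact h2 _) (fun _ _ => h2 _) (fun _ => h2 _) g3
    (fun i => by simpa [Fintype.sum_option, c.z_none, ht] using g4 i)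
    (c.idx (T.equivFin ⟨b, hb⟩)) l hl
  simpa [c.z_idx, c.z_none] using this

/-- Polynomials in the variables of large rank. -/
noncomputable def Rs (K : Type) [Field K] (n : ℕ) (P : ℕ → Prop) :
    Subring (MvPolynomial (Vr n) K) := (supported K {w : Vr n | P w.rk}).toSubring

theorem Rs_mono {K : Type} [Field K] {n : ℕ} {P Q : ℕ → Prop} (h : ∀ a, P a → Q a) :
    Rs K n P ≤ Rs K n Q := fun _ hq => supported_mono (fun _ hw => h _ hw) hq

theorem Rs_C {K : Type} [Field K] {n : ℕ} {P : ℕ → Prop} (a : K) : C a ∈ Rs K n P :=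
  Subalgebra.algebraMap_mem _ a

theorem Rs_X {K : Type} [Field K] {n : ℕ} {P : ℕ → Prop} {w : Vr n} (h : P w.rk) :
    X w ∈ Rs K n P := X_mem_supported.2 h

/-- A Witt vector whose components are variables. -/
noncomputable def vec (p : ℕ) {K : Type} [Field K] {n : ℕ} (a : K) (v : Fin n → Vr n) :
    WittVector p (MvPolynomial (Vr n) K) :=
  mk p fun l => Nat.casesOn l (C a) fun l => if h : l < n then X (v ⟨l, h⟩) else 0

theorem vec_mem {p : ℕ} {K : Type} [Field K] {n : ℕ} (a : K) (v : Fin n → Vr n) {P : ℕ → Prop}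
    (l : ℕ) (h : ∀ i : Fin n, l = i + 1 → P (v i).rk) : (vec p a v).coeff l ∈ Rs K n P := by
  rcases l with _ | l
  · exact Rs_C a
  · change dite _ _ _ ∈ _
    split_ifs with e
    exacts [Rs_X (h _ rfl), zero_mem _]

theorem vec_succ {p : ℕ} {K : Type} [Field K] {n : ℕ} (a : K) (v : Fin n → Vr n) (l : Fin n) :
    (vec p a v).coeff (l + 1) = X (v l) := dif_pos l.2

theorem place (hGG : S_GG) (hTAY : S_TAY) (hLEAD : S_LEAD) {p : ℕ} [Fact p.Prime] {K : Type}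
    [Field K] [CharP K p] {n : ℕ} (V : Subring K) {c a b : K} (hc : c ≠ 0) (ha : a ∈ V)
    (u w : WittVector p (MvPolynomial (Vr n) K)) (u0 : u.coeff 0 = C a) (w0 : w.coeff 0 = 1)
    (hu : ∀ l, 0 < l → u.coeff l - C c ^ p ^ l * (vec p b Sum.inr).coeff l ∈
      Rs K n fun r => n ≤ r ∧ 2 * n < r + l) (hw : ∀ l, w.coeff l ∈ Rs K n fun r => n ≤ r) :
    ∃ Φ : Filt (MvPolynomial (Vr n) K), (∀ a ∈ V, C a ∈ Φ.F 0) ∧ Lead p Φ V c ∧ Φ.Int p n u ∧
      Φ.Int p n (w * vec p 1 Sum.inl) := by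
  let g : Vr n → MvPolynomial (Vr n) K :=
    Sum.elim (fun l => (w * vec p 1 Sum.inl).coeff (l + 1)) fun l => u.coeff (l + 1)
  have hC : ∀ a ∈ V, C a ∈ ((Filt.wt V (Vr.w n p id)).map (aeval g : _ →ₐ[K] _).toRingHom).F 0 :=
    fun a ha => ⟨C a, fun m => by
      classical
      rw [coeff_C]
      split_ifs with h
      · simp [← h, ha]
      · simp, aeval_C _ _⟩
  have hX : ∀ v, g v ∈ ((Filt.wt V (Vr.w n p id)).map (aeval g : _ →ₐ[K] _).toRingHom).F
      (Vr.w n p id v) := fun v => ⟨X v, fun m => by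
      classical
      rw [coeff_X]
      split_ifs with h
      · simp [← h, Finsupp.weight_single]
      · simp, aeval_X _ _⟩
  refine ⟨_, hC, hLEAD n p K V c g hc ?_, fun l hl => ?_, fun l hl => ?_⟩
  · rintro (l | l)
    · have := sc hGG hTAY (Rs K n fun r => n - 1 - l < r) w (vec p 1 Sum.inl) (l := l + 1)
        (by omega) w0 (fun i _ => Rs_mono (by omega) (hw i)) fun i hi => vec_mem _ _ _ fun j e => by
          simp only [Vr.rk, Sum.elim_inl]; omega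
      rw [vec_succ] at this
      exact ⟨_, by simp [g], fun v hv => mem_supported.1 this hv⟩
    · have := Rs_mono (Q := fun r => 2 * n - 1 - l < r) (by omega) (hu (l + 1) (by omega))
      rw [vec_succ] at this
      exact ⟨_, by simp [g], fun v hv => mem_supported.1 this hv⟩
  · rcases l with _ | l
    · simpa [u0] using hC a ha
    · exact hX (.inr ⟨l, hl⟩)
  · rcases l with _ | l
    · simpa [mul_coeff_zero, w0, vec] using hC 1 V.one_mem
    · exact Filt.mono _ (Nat.zero_le _) (hX (.inl ⟨l, hl⟩))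

end JetA

open JetA in
theorem pJET (L : Type u) [Field L] [IsAlgClosed L] [CharZero L]
    (hTCH : S_TCH) (hGG : S_GG) (hTAY : S_TAY) (hREC : S_REC) (hGEN : S_GEN) (hLEAD : S_LEAD)
    (hCHART0 : S_CHART0 L) (hCHART : S_CHART L) (hCOVER : S_COVER L) :
    S_JET L := by
  classical
  intro K _ _ _ t δ ht n N ξ E dE lam S hE hξ hlam hv hS
  have htr : Transcendental L t := (const_or_trans t).resolve_left (by
    rintro ⟨c, rfl⟩; simp at ht)
  have hδ : δ ≠ 0 := by rintro rfl; simp at ht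
  have c : ∀ P : Place L K, Chart L P.v.integer P.π fun a => lam P * ξ a := fun P =>
    (hCHART K P _ _ (hv P)).some
  obtain ⟨Z, hZ⟩ := hCOVER K t δ ht (fun P => S P ∪ (Finset.univ.image (c P).z ∪
    Finset.univ.image fun ij : _ × _ => (c P).J ij.1 ij.2)) fun P b hb => by
      simp only [Finset.mem_union, Finset.mem_image, Finset.mem_univ, true_and] at hb
      rcases hb with h | ⟨i, rfl⟩ | ⟨i, rfl⟩
      exacts [hS P b h, (c P).z_mem i, (c P).J_mem _ _]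
  refine ⟨Z, ?_⟩
  filter_upwards [hZ, gen hGEN hCHART0 ht htr (Finset.univ.image ξ ∪ (Z.image Place.π ∪
    Z.image fun P => (lam P)⁻¹)), (eventually_all_finset Z).2 fun P _ => loc hREC (c P), ev_Bs ξ,
    (eventually_all_finset Z).2 fun P _ => ((ev_B (lam P)).and (ev_B (lam P)⁻¹)).and
      (ev_pi_ne (P.der_π_ne hδ)), eventually_all.2 fun a => ev_ex_aeval ξ (E a)]
    with χ hZ hG hL hB hP hA K₂ _ _ _ _
  have := charP_of_injective_algebraMap (algebraMap (KK χ.1.p) K₂).injective χ.1.p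
  obtain ⟨Ω, _, _, j, hj⟩ : ∃ (Ω : Type) (_ : Field Ω) (_ : IsAlgClosed Ω)
      (j : MvPolynomial (Vr n) K₂ →+* Ω), Function.Injective j :=
    ⟨AlgebraicClosure (FractionRing (MvPolynomial (Vr n) K₂)), inferInstance, inferInstance,
      (algebraMap (FractionRing (MvPolynomial (Vr n) K₂)) _).comp (algebraMap _ _), by
        rw [RingHom.coe_comp]; exact (RingHom.injective _).comp (IsFractionRing.injective _ _)⟩
  have := charP_of_injective_ringHom hj χ.1.p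
  have hj' := WittVector.map_injective (p := χ.1.p) j hj
  set a := algebraMap (KK χ.1.p) K₂ with ha
  obtain ⟨θ, θ1, θ2, θ3⟩ := χ.2.lift Ω (j.comp (C.comp a))
    (WittVector.map j (vec χ.1.p (a (tt _)) Sum.inr)) rfl
  let F : Lf χ.2 Ω := ⟨_, θ, θ2, θ3⟩
  have θ0 : ∀ b, (χ.2.ex θ b).coeff 0 = j (C (a (χ.2.pi b))) := F.ex0
  rw [← χ.2.ex_of_mem] at θ1
  have hτ : ∀ l, (vec χ.1.p (a (tt _)) Sum.inr).coeff l ∈
      Rs K₂ n fun r => n ≤ r ∧ 2 * n < r + (l + 1) := fun l => vec_mem _ _ _ fun i e => by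
    simp only [Vr.rk, Sum.elim_inr]; omega
  replace hG := hG Ω F (fun l => (Rs K₂ n fun r => n ≤ r ∧ 2 * n < r + l).map j)
    (fun _ _ h => Set.image_mono (Rs_mono (by omega))) (fun b => ⟨_, Rs_C _, rfl⟩)
    fun l => ⟨_, hτ l, by rw [θ1]; rfl⟩
  have hu : ∀ b ∈ Finset.univ.image ξ ∪ (Z.image Place.π ∪ Z.image fun P => (lam P)⁻¹),
      ∃ u, WittVector.map j u = χ.2.ex θ b ∧ u.coeff 0 = C (a (χ.2.pi b)) ∧ ∀ l, 0 < l →
        u.coeff l - C (a (χ.2.pi (δ b))) ^ χ.1.p ^ l * (vec χ.1.p (a (tt _)) Sum.inr).coeff l ∈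
          Rs K₂ n fun r => n ≤ r ∧ 2 * n < r + l := fun b hb => by
    choose r hr e using hG b hb
    refine ⟨mk _ fun l => if h : 0 < l then r l h + C (a (χ.2.pi (δ b))) ^ χ.1.p ^ l *
      (vec χ.1.p (a (tt _)) Sum.inr).coeff l else C (a (χ.2.pi b)), ?_, rfl, fun l h => ?_⟩
    · ext l
      simp only [map_coeff, coeff_mk]
      split_ifs with h
      · rw [map_add, e, θ1]; simp [F]
      · rw [Nat.eq_zero_of_not_pos h, θ0]
    · simpa [h] using hr l h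
  choose! u u1 u2 u3 using hu
  have m1 : ∀ b, ξ b ∈ Finset.univ.image ξ ∪ (Z.image Place.π ∪ Z.image fun P => (lam P)⁻¹) :=
    fun b => by simp
  refine ⟨fun b => vec χ.1.p 1 Sum.inl * u (ξ b), fun b => by
    simp [mul_coeff_zero, vec, u2 _ (m1 b)], fun b => hj' ?_, fun V => ?_⟩
  · have := hA b _ θ _ θ3
    rw [hξ, χ.2.ex_zero] at this
    rw [eval₂_comp_left, map_zero]
    simp only [Function.comp_def, map_mul, u1 _ (m1 _)]
    rw [scale _ (χ.1.hom_red (hE b))]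
    refine mul_eq_zero_of_right _ (Eq.trans ?_ this.symm)
    congr 1
    ext x l
    simp [ha, ← IsScalarTower.algebraMap_apply]
  · obtain ⟨P, hPZ, hV⟩ := hZ V
    simp only [Finset.mem_union, Finset.mem_image, Finset.mem_univ, true_and] at hV
    obtain ⟨⟨l1, l2⟩, l3⟩ := hP P hPZ
    have m2 : P.π ∈ Finset.univ.image ξ ∪ (Z.image Place.π ∪ Z.image fun P => (lam P)⁻¹) := by
      simp only [Finset.mem_union, Finset.mem_image]; exact .inr (.inl ⟨P, hPZ, rfl⟩)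
    have m3 : (lam P)⁻¹ ∈ Finset.univ.image ξ ∪ (Z.image Place.π ∪ Z.image fun P => (lam P)⁻¹) := by
      simp only [Finset.mem_union, Finset.mem_image]; exact .inr (.inr ⟨P, hPZ, rfl⟩)
    have e1 : ∀ {A : Type} [CommRing A] (f : χ.2.B →+* A),
        χ.2.ex f (lam P) * χ.2.ex f (lam P)⁻¹ = 1 := fun f => by
      rw [← χ.2.ex_mul f l1 l2, mul_inv_cancel₀ (hlam P), χ.2.ex_one]
    obtain ⟨Φ, Φ1, Φ2, Φ3, Φ4⟩ := place hGG hTAY hLEAD (V.toSubring.map a)
      ((map_ne_zero a).2 l3) ⟨_, hV _ (.inr (.inl ⟨none, (c P).z_none⟩)), rfl⟩ (u P.π)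
      (teichmuller _ (C (a (χ.2.pi (lam P)))) * u (lam P)⁻¹) (u2 _ m2)
      (by simp only [mul_coeff_zero, teichmuller_coeff_zero, u2 _ m3, ← map_mul, e1, map_one])
      (u3 _ m2) fun l => by
        rw [hTCH]
        refine mul_mem (pow_mem (Rs_C _) _) ?_
        rcases Nat.eq_zero_or_pos l with rfl | h
        · exact u2 _ m3 ▸ Rs_C _
        · simpa using add_mem (Rs_mono (fun _ h => h.1) (u3 _ m3 l h)) (mul_mem (pow_mem (Rs_C
            (a (χ.2.pi (δ (lam P)⁻¹)))) (χ.1.p ^ l)) (Rs_mono (fun _ h => h.1) (hτ l)))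
    have Φ0 : ∀ b ∈ V, C (a b) ∈ Φ.F 0 := fun b hb => Φ1 _ ⟨b, hb, rfl⟩
    refine ⟨P, hPZ, fun b hb => hV b (.inl hb), Φ, Φ0, Φ2, fun b l hl => ?_⟩
    obtain ⟨O, hO⟩ := hGG _ Ω (Φ.map j) n
    have hm : ∀ z, Φ.Int χ.1.p n z → (Φ.map j).Int χ.1.p n (WittVector.map j z) :=
      fun z h l hl => ⟨_, h l hl, rfl⟩
    have := hL P hPZ Ω F (Φ.map j) n (fun x => ⟨_, Φ0 _ (CoverA.const_mem V x), rfl⟩)
      (fun i => ⟨_, Φ0 _ (hV _ (.inr (.inl ⟨i, rfl⟩))), rfl⟩)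
      (fun i k => ⟨_, Φ0 _ (hV _ (.inr (.inr ⟨(i, k), rfl⟩))), rfl⟩) (u1 _ m2 ▸ hm _ Φ3) b
    obtain ⟨x, hx, e⟩ := (hO _).1 (O.mul_mem ((hO _).2 (hm _ Φ4)) ((hO _).2 this)) l hl
    refine Eq.subst (motive := (· ∈ Φ.F _)) (hj (e.trans ?_)) hx
    rw [← map_coeff]
    congr 1
    simp only [map_mul, u1 _ m3, u1 _ (m1 b), χ.2.ex_mul _ l1 (hB b)]
    linear_combination (WittVector.map j (teichmuller _ (C (a (χ.2.pi (lam P))))) *
      WittVector.map j (vec χ.1.p 1 Sum.inl) * χ.2.ex θ (ξ b)) * e1 θ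

end Pool.Agent.P.MP_6f117a_ag.Sp
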