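import Pool.Agent.P.MP_6f117a_ag.C.VIface

/-! Step LEAD on specialisations of curves. -/

namespace Pool.Agent.P.MP_6f117a_ag.Sp

open MvPolynomial Filter
open scoped Polynomial WithZero

universe u

namespace LeadP

section

variable {σ K : Type} [Field K] (m : MonomialOrder σ) (g : σ → MvPolynomial σ K) (c : σ → K)

theorem prod_facts (hd : ∀ v, m.degree (g v) = Finsupp.single v 1)
    (hc : ∀ v, m.leadingCoeff (g v) = c v) (J : σ →₀ ℕ) :
    m.toSyn (m.degree (∏ v ∈ J.support, g v ^ J v)) ≤ m.toSyn J ∧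
      coeff J (∏ v ∈ J.support, g v ^ J v) = ∏ v ∈ J.support, c v ^ J v := by
  have e : ∑ v ∈ J.support, m.degree (g v ^ J v) = J := by
    simp only [MonomialOrder.degree_pow, hd, Finsupp.smul_single, smul_eq_mul, mul_one]
    exact J.sum_single
  refine ⟨?_, ?_⟩
  · have := m.degree_prod_le (P := fun v => g v ^ J v) (s := J.support)
    rwa [e] at this
  · have := m.coeff_prod_sum_degree (fun v => g v ^ J v) J.support
    rw [e] at this
    rw [this]
    exact Finset.prod_congr rfl fun v _ => by rw [MonomialOrder.leadingCoeff_pow, hc]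

theorem coeff_mono (e J : σ →₀ ℕ) (a : K) :
    coeff e (aeval g (monomial J a : MvPolynomial σ K)) =
      a * coeff e (∏ v ∈ J.support, g v ^ J v) := by
  rw [aeval_monomial, algebraMap_eq, coeff_C_mul, Finsupp.prod]

theorem lead_aeval (hd : ∀ v, m.degree (g v) = Finsupp.single v 1)
    (hc : ∀ v, m.leadingCoeff (g v) = c v) (h0 : ∀ v, c v ≠ 0) (q : MvPolynomial σ K)
    (hq : q ≠ 0) :
    m.degree (aeval g q) = m.degree q ∧ m.leadingCoeff (aeval g q) =
      m.leadingCoeff q * ∏ v ∈ (m.degree q).support, c v ^ m.degree q v := by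
  have hs : ∀ e, coeff e (aeval g q) =
      ∑ J ∈ q.support, coeff J q * coeff e (∏ v ∈ J.support, g v ^ J v) := by
    intro e
    conv_lhs => rw [q.as_sum, map_sum, coeff_sum]
    exact Finset.sum_congr rfl fun J _ => coeff_mono g e J _
  have h1 : coeff (m.degree q) (aeval g q) =
      m.leadingCoeff q * ∏ v ∈ (m.degree q).support, c v ^ m.degree q v := by
    rw [hs, Finset.sum_eq_single_of_mem _ (m.degree_mem_support hq)]
    · rw [(prod_facts m g c hd hc _).2]; rfl
    · intro J hJ hne
      refine mul_eq_zero_of_right _ (m.coeff_eq_zero_of_lt ?_)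
      refine lt_of_le_of_lt (prod_facts m g c hd hc J).1 (lt_of_le_of_ne (m.le_degree hJ) ?_)
      exact fun h => hne (m.toSyn.injective h)
  have h2 : m.degree (aeval g q) = m.degree q := by
    apply m.toSyn.injective
    refine le_antisymm (m.degree_le_iff.2 fun e he => ?_) (m.le_degree ?_)
    · rw [mem_support_iff, hs] at he
      obtain ⟨J, hJ, h⟩ := Finset.exists_ne_zero_of_sum_ne_zero he
      exact ((m.le_degree (mem_support_iff.2 (right_ne_zero_of_mul h))).trans
        (prod_facts m g c hd hc J).1).trans (m.le_degree hJ)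
    · rw [mem_support_iff, h1]
      exact mul_ne_zero (m.leadingCoeff_ne_zero_iff.2 hq)
        (Finset.prod_ne_zero_iff.2 fun v _ => pow_ne_zero _ (h0 v))
  exact ⟨h2, by rw [MonomialOrder.leadingCoeff, h2, h1]⟩

end

theorem tri_facts {σ K : Type} [LinearOrder σ] [WellFoundedGT σ] [Field K]
    (g : σ → MvPolynomial σ K) (c : σ → K) (h0 : ∀ v, c v ≠ 0) (ht : Tri g c) (v : σ) :
    MonomialOrder.lex.degree (g v) = Finsupp.single v 1 ∧
      MonomialOrder.lex.leadingCoeff (g v) = c v := by
  classical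
  obtain ⟨r, hr, hv⟩ := ht v
  have e : (C (c v) * X v : MvPolynomial σ K) = monomial (Finsupp.single v 1) (c v) := by
    rw [C_mul_X_eq_monomial]
  have d1 : MonomialOrder.lex.degree (monomial (Finsupp.single v 1) (c v) : MvPolynomial σ K) =
      Finsupp.single v 1 := by rw [MonomialOrder.degree_monomial, if_neg (h0 v)]
  have key : ∀ d : σ →₀ ℕ, (∀ w, d w ≠ 0 → v < w) →
      MonomialOrder.lex.toSyn d < MonomialOrder.lex.toSyn (Finsupp.single v 1) := by
    intro d hd
    rw [MonomialOrder.lex_lt_iff, Finsupp.Lex.lt_iff]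
    refine ⟨v, fun j hj => ?_, ?_⟩
    · have : d j = 0 := by
        by_contra h
        exact lt_asymm hj (hd j h)
      simp [this, hj.ne']
    · have : d v = 0 := by
        by_contra h
        exact lt_irrefl _ (hd v h)
      simp [this]
  have hlt : MonomialOrder.lex.toSyn (MonomialOrder.lex.degree r) <
      MonomialOrder.lex.toSyn (MonomialOrder.lex.degree
        (monomial (Finsupp.single v 1) (c v) : MvPolynomial σ K)) := by
    rw [d1]
    by_cases h : r = 0
    · rw [h, MonomialOrder.degree_zero]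
      exact key 0 fun w hw => absurd rfl hw
    · refine key _ fun w hw => hv w ?_
      exact (mem_vars_iff_mem_support w).2
        ⟨_, MonomialOrder.degree_mem_support h, Finsupp.mem_support_iff.2 hw⟩
  rw [hr, e, MonomialOrder.degree_add_of_lt hlt, MonomialOrder.leadingCoeff_add_of_lt hlt, d1,
    MonomialOrder.leadingCoeff_monomial]
  exact ⟨rfl, rfl⟩

end LeadP

theorem pLEAD : S_LEAD := by
  intro n p K _ V c g hc ht m q hq hq0
  obtain ⟨q₀, hq₀, rfl⟩ := Filt.mem_map.1 hq
  have h0 : ∀ v : Vr n, (Sum.elim (fun _ => 1) (fun l : Fin n => c ^ p ^ (l + 1 : ℕ)) v : K) ≠ 0 := by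
    rintro (a | a)
    · exact one_ne_zero
    · exact pow_ne_zero _ hc
  have hq1 : q₀ ≠ 0 := by
    rintro rfl
    exact hq0 (map_zero _)
  have ht' := LeadP.tri_facts g _ h0 ht
  obtain ⟨h1, h2⟩ := LeadP.lead_aeval MonomialOrder.lex g _ (fun v => (ht' v).1)
    (fun v => (ht' v).2) h0 q₀ hq1
  change Finsupp.weight _ (MonomialOrder.lex.degree (aeval g q₀)) ≤ m ∧ ∃ v ∈ V,
    MonomialOrder.lex.leadingCoeff (aeval g q₀) =
      c ^ Finsupp.weight _ (MonomialOrder.lex.degree (aeval g q₀)) * v
  rw [h1, h2]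
  have h3 := hq₀ (MonomialOrder.lex.degree q₀)
  refine ⟨le_trans ?_ (h3.2 (MonomialOrder.coeff_degree_ne_zero_iff.2 hq1)), _, h3.1, ?_⟩
  · rw [Finsupp.weight_apply, Finsupp.weight_apply]
    refine Finset.sum_le_sum fun v _ => nsmul_le_nsmul_right ?_ _
    rcases v with a | a
    · exact le_rfl
    · exact Nat.mul_le_mul_right _ (Nat.succ_le_succ (Nat.zero_le _))
  · rw [mul_comm, Finsupp.weight_apply, Finsupp.sum, ← Finset.prod_pow_eq_pow_sum]
    refine congrArg₂ _ (Finset.prod_congr rfl fun v _ => ?_) rfl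
    rcases v with a | a
    · simp [Vr.w]
    · simp [Vr.w, ← pow_mul, mul_comm]

end Pool.Agent.P.MP_6f117a_ag.Sp
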