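import Pool.Agent.P.MP_6f117a_ag.C.VIface

/-! Step LOCAL on specialisations of curves. -/

namespace Pool.Agent.P.MP_6f117a_ag.Sp

open MvPolynomial Filter
open scoped Polynomial WithZero

universe u

namespace LocalAux
open WittVector

theorem hom_eval {R S σ : Type} [CommRing R] [CommRing S] {F : MvPolynomial σ R} {d : ℕ}
    (hF : F.IsHomogeneous d) (ψ : R →+* S) (s : S) (z : σ → S) :
    eval₂ ψ (fun i => s * z i) F = s ^ d * eval₂ ψ z F := by
  rw [eval₂_eq, eval₂_eq, Finset.mul_sum]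
  refine Finset.sum_congr rfl fun m hm => ?_
  have e : ∑ i ∈ m.support, m i = d := by
    simpa [Finsupp.weight_apply, Finsupp.sum] using hF (mem_support_iff.1 hm)
  simp only [mul_pow, Finset.prod_mul_distrib, Finset.prod_pow_eq_pow_sum, e]
  ring

theorem hom_aeval {k A A' σ : Type} [CommRing k] [CommRing A] [CommRing A'] [Algebra k A]
    [Algebra k A'] (χ : A →+* A') (h : ∀ a, χ (algebraMap k A a) = algebraMap k A' a) (x : σ → A)
    (G : MvPolynomial σ k) : χ (aeval x G) = aeval (fun i => χ (x i)) G := by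
  induction G using MvPolynomial.induction_on with
  | C a => rw [aeval_C, aeval_C, h]
  | add f g hf hg => simp only [map_add, hf, hg]
  | mul_X f i hf => simp only [map_mul, hf, aeval_X]

theorem pert {k Ω σ : Type} [CommRing k] [CommRing Ω] [Algebra k Ω] (R : Subring Ω)
    (hk : ∀ a, algebraMap k Ω a ∈ R) {α β y : σ → Ω} {τ : Ω} (hα : ∀ i, α i ∈ R)
    (hy : ∀ i, y i ∈ R) (hτ : τ ∈ R) (h : ∀ i, β i = α i + τ * y i) (G : MvPolynomial σ k) :
    aeval α G ∈ R ∧ ∃ a ∈ R, aeval β G = aeval α G + τ * a := by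
  induction G using MvPolynomial.induction_on with
  | C a => exact ⟨aeval_C α a ▸ hk a, 0, zero_mem _, by simp⟩
  | add f g hf hg =>
    obtain ⟨h1, a, ha, e⟩ := hf
    obtain ⟨h2, b, hb, e'⟩ := hg
    exact ⟨map_add (aeval α) f g ▸ add_mem h1 h2, a + b, add_mem ha hb, by
      rw [map_add, map_add, e, e']; ring⟩
  | mul_X f i hf =>
    obtain ⟨h1, a, ha, e⟩ := hf
    rw [map_mul, map_mul, aeval_X, aeval_X]
    exact ⟨mul_mem h1 (hα i), a * α i + aeval α f * y i + τ * (a * y i),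
      add_mem (add_mem (mul_mem ha (hα i)) (mul_mem h1 (hy i))) (mul_mem hτ (mul_mem ha (hy i))),
      by rw [e, h]; ring⟩

theorem coeff_low {R : Type} [CommRing R] {o : ℕ} {a : PowerSeries R} (h : PowerSeries.X ^ o ∣ a)
    (b : PowerSeries R) :
    PowerSeries.coeff o (a * b) = PowerSeries.coeff o a * PowerSeries.constantCoeff b := by
  obtain ⟨a, rfl⟩ := h
  have e : ∀ c : PowerSeries R, PowerSeries.coeff o (PowerSeries.X ^ o * c) =
      PowerSeries.constantCoeff c := fun c => by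
    simpa using PowerSeries.coeff_X_pow_mul c o 0
  rw [mul_assoc, e, e, map_mul]

variable {p : ℕ} [Fact p.Prime] {k : Type} [Field k] (M : Mod (WittVector p k))

theorem ev0_eq {A : Type} [CommRing A] [Algebra k A] (z : Fin (M.N + 1) → WittVector p A)
    (g : MvPolynomial (Fin (M.N + 1)) (WittVector p k)) :
    M.ev0 z g = WittVector.constantCoeff (eval₂ (WittVector.map (algebraMap k A)) z g) := by
  rw [Mod.ev0, aeval_def, eval₂_map, eval₂_comp_left]
  rfl

theorem ev0_scale {A : Type} [CommRing A] [Algebra k A] (z : Fin (M.N + 1) → WittVector p A)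
    (s : A) {g : MvPolynomial (Fin (M.N + 1)) (WittVector p k)} {d : ℕ} (hg : g.IsHomogeneous d) :
    M.ev0 (fun a => teichmuller p s * z a) g = s ^ d * M.ev0 z g := by
  rw [ev0_eq, ev0_eq, hom_eval hg, map_mul, map_pow]
  rfl

theorem eval_map {A A' : Type} [CommRing A] [Algebra k A] [CommRing A'] [Algebra k A']
    (χ : A →+* A') (h : ∀ a, χ (algebraMap k A a) = algebraMap k A' a)
    (z : Fin (M.N + 1) → WittVector p A) (g : MvPolynomial (Fin (M.N + 1)) (WittVector p k)) :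
    eval₂ (WittVector.map (algebraMap k A')) (fun a => WittVector.map χ (z a)) g =
      WittVector.map χ (eval₂ (WittVector.map (algebraMap k A)) z g) := by
  rw [eval₂_comp_left]
  congr 1
  exact RingHom.ext fun w => WittVector.ext fun l => (h _).symm

variable {M} {Ω : Type} [Field Ω] [Algebra k Ω] {Ψ : Filt Ω} {A : Subring Ω} {T : Ω} {n : ℕ}

omit [Fact p.Prime] in
theorem int_of {w : WittVector p Ω} (h : ∀ l, w.coeff l ∈ Ψ.F 0) : Ψ.Int p n w :=
  fun l _ => Ψ.mono (Nat.zero_le _) (h l)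

omit [Fact p.Prime] in
theorem int_zero {w : WittVector p Ω} (h : Ψ.Int p n w) : w.coeff 0 ∈ Ψ.sub :=
  Filt.mem_sub.2 (by simpa using h 0 (Nat.zero_le _))

theorem core0 [CharP k p] (hGG : S_GG) (hTOUG : S_TOUG) (hC : Cl Ψ A T)
    (hk : ∀ a, algebraMap k Ω a ∈ Ψ.F 0) {φ z : Fin (M.N + 1) → WittVector p Ω}
    {u : M.ι → WittVector p Ω} {D : Ω}
    (h1 : ∀ a, eval₂ (WittVector.map (algebraMap k Ω)) φ (M.eqn a) = 0)
    (h2 : ∀ a, eval₂ (WittVector.map (algebraMap k Ω)) z (M.eqn a) = 0)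
    (hφ : ∀ a, Ψ.Int p n (φ a)) (hu : ∀ i, Ψ.Int p n (u i)) (hD : D = M.ev0 φ M.Del) (hD0 : D ≠ 0)
    (h3 : ∀ i, z (M.e i) = φ (M.e i) + teichmuller p (T * D ^ (2 * (n + 1))) * u i)
    (h4 : ∀ a, ∃ y ∈ A, (z a).coeff 0 = (φ a).coeff 0 + T * D ^ (n + 1) * y) :
    (∀ a, Ψ.Int p n (z a)) ∧
      ∀ g, M.ev0 φ g ∈ Ψ.sub ∧ ∃ a ∈ Ψ.sub, M.ev0 z g = M.ev0 φ g + T * D * a := by
  have := charP_of_injective_algebraMap (algebraMap k Ω).injective p
  have hm : ∀ g, M.ev0 φ g ∈ Ψ.sub := fun g => (pert Ψ.sub hk (fun a => int_zero (hφ a))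
    (fun a => int_zero (hφ a)) (zero_mem _) (fun a => (by rw [zero_mul, add_zero])) _).1
  have hDm : D ∈ Ψ.sub := hD ▸ hm _
  have ex : ∀ a, ∃ y, Ψ.Int p n y ∧ z a = φ a + teichmuller p (T * D ^ (n + 1)) * y := fun a => by
    obtain ⟨y, hy, e⟩ := h4 a
    obtain ⟨g, hg⟩ : M.der a ∣ M.Del :=
      (Finset.dvd_prod_of_mem M.der (Finset.mem_univ a)).mul_right _
    refine hTOUG p Ω Ψ A T n M.ι (MvPolynomial.map (WittVector.map (algebraMap k Ω)) (M.f a))
      (fun o => φ (o.elim a M.e)) (fun o => z (o.elim a M.e)) u D (M.ev0 φ g) y hC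
      (fun m => int_of fun l => by rw [coeff_map]; exact hk _) (fun _ => hφ _) hu ?_ ?_ hD0 (hm g)
      ?_ h3 hy e
    · rw [MvPolynomial.eval_map, ← h1 a, Mod.eqn, eval₂_rename]
      rfl
    · rw [MvPolynomial.eval_map, ← h2 a, Mod.eqn, eval₂_rename]
      rfl
    · rw [hD, hg, ev0_eq, eval₂_mul, map_mul, ← ev0_eq M φ g, pderiv_map, MvPolynomial.eval_map,
        Mod.der, eval₂_rename]
      rfl
  choose y hy hy' using ex
  obtain ⟨O, hO⟩ := hGG p Ω Ψ n
  have hT : T * D ^ (n + 1) ∈ Ψ.sub := mul_mem hC.mem (pow_mem hDm _)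
  refine ⟨fun a => (hO _).1 (hy' a ▸ add_mem ((hO _).2 (hφ a)) (mul_mem ((hO _).2 (int_of
    fun l => ?_)) ((hO _).2 (hy a)))), fun g => ⟨hm g, ?_⟩⟩
  · cases l with
    | zero => exact hT
    | succ l => rw [teichmuller_coeff_pos _ _ _ l.succ_pos]; exact zero_mem _
  · refine (pert Ψ.sub hk (y := fun a => D ^ n * (y a).coeff 0) (fun a => int_zero (hφ a))
      (fun a => mul_mem (pow_mem hDm _) (int_zero (hy a))) (mul_mem hC.mem hDm) (fun a => ?_) _).2
    rw [hy' a, add_coeff_zero, mul_coeff_zero, teichmuller_coeff_zero]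
    ring

theorem core [CharP k p] (hTCH : S_TCH) (hGG : S_GG) (hTOUG : S_TOUG) (hC : Cl Ψ A T)
    (hk : ∀ a, algebraMap k Ω a ∈ Ψ.F 0) {φ z : Fin (M.N + 1) → WittVector p Ω}
    {u : M.ι → WittVector p Ω} {D s t : Ω} {c : Fin (M.N + 1)} {j : ∀ g, M.J g}
    (h1 : ∀ a, eval₂ (WittVector.map (algebraMap k Ω)) φ (M.eqn a) = 0)
    (h2 : ∀ a, eval₂ (WittVector.map (algebraMap k Ω)) z (M.eqn a) = 0)
    (hφ : ∀ a, Ψ.Int p n (teichmuller p s * φ a)) (hu : ∀ i, Ψ.Int p n (u i))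
    (hD : D = s ^ M.dDel * M.ev0 φ M.Del) (hD0 : D ≠ 0) (hDA : D ∈ A)
    (hc : s * (φ c).coeff 0 = 1) (ht : s * t = T * D ^ (2 * (n + 1)))
    (h3 : ∀ i, z (M.e i) = φ (M.e i) + teichmuller p t * u i)
    (h4 : ∀ a, ∃ y ∈ A, (z a).coeff 0 = (φ a).coeff 0 + t * y)
    (h5 : ∀ g j', M.ev0 φ (M.h g j') / M.ev0 φ (M.h g (j g)) ∈ Ψ.F 0) :
    (z c).coeff 0 ≠ 0 ∧
      (∀ b, ∀ l ≤ n, (z b).coeff l / (z c).coeff 0 ^ p ^ l ∈ Ψ.F (l * p ^ l)) ∧
      ∀ g j', M.ev0 z (M.h g j') / M.ev0 z (M.h g (j g)) ∈ Ψ.F 0 := by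
  have hs : s ≠ 0 := left_ne_zero_of_mul_eq_one hc
  have he : ∀ a, (M.eqn a).IsHomogeneous (M.df a) := fun a => (M.f_hom a).rename_isHomogeneous
  rw [← ev0_scale M φ s M.Del_hom] at hD
  obtain ⟨a1, a2⟩ := core0 (φ := fun a => teichmuller p s * φ a)
    (z := fun a => teichmuller p s * z a) hGG hTOUG hC hk
    (fun a => by rw [hom_eval (he a), h1, mul_zero]) (fun a => by rw [hom_eval (he a), h2, mul_zero])
    hφ hu hD hD0 (fun i => by rw [h3, mul_add, ← mul_assoc, ← map_mul, ht]) fun a => by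
      obtain ⟨y, hy, e⟩ := h4 a
      refine ⟨D ^ (n + 1) * y, mul_mem (pow_mem hDA _) hy, ?_⟩
      rw [mul_coeff_zero, mul_coeff_zero, e, teichmuller_coeff_zero, mul_add, ← mul_assoc, ht]
      ring
  have hDm : D ∈ Ψ.sub := hD ▸ (a2 _).1
  obtain ⟨-, a, ha, e⟩ := a2 (X c)
  simp only [Mod.ev0, map_X, aeval_X, mul_coeff_zero, teichmuller_coeff_zero, hc, mul_assoc] at e
  obtain ⟨b, hb, e'⟩ := hC.inv _ (mul_mem hDm ha : D * a ∈ Ψ.sub)
  rw [← e] at e'
  have hz : (z c).coeff 0 ≠ 0 := right_ne_zero_of_mul (left_ne_zero_of_mul_eq_one e')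
  refine ⟨hz, fun a l hl => ?_, fun g j' => ?_⟩
  · have e1 : (z a).coeff l / (z c).coeff 0 ^ p ^ l =
        b ^ p ^ l * (teichmuller p s * z a).coeff l := by
      rw [hTCH, div_eq_iff (pow_ne_zero _ hz)]
      calc _ = (s * (z c).coeff 0 * b) ^ p ^ l * (z a).coeff l := by rw [e', one_pow, one_mul]
        _ = _ := by ring
    exact e1 ▸ Ψ.mul_mem0 (pow_mem (show b ∈ Ψ.sub from hb) _) (a1 a l hl)
  · obtain ⟨q, hq⟩ : M.h g (j g) ∣ M.Del := ((Finset.dvd_prod_of_mem (M.h g)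
      (Finset.mem_univ _)).trans (Finset.dvd_prod_of_mem (fun g => ∏ j, M.h g j)
        (Finset.mem_univ g))).mul_left _
    rw [hq, ev0_eq, eval₂_mul, map_mul, ← ev0_eq, ← ev0_eq] at hD
    obtain ⟨-, a, ha, e1⟩ := a2 (M.h g (j g))
    obtain ⟨-, a', ha', e2⟩ := a2 (M.h g j')
    have hv := (a2 q).1
    generalize M.ev0 (fun a => teichmuller p s * φ a) q = v at hD hv
    obtain ⟨b, hb, e3⟩ := hC.inv _ (mul_mem hv ha : v * a ∈ Ψ.sub)
    simp only [ev0_scale M _ s (M.h_hom g _)] at hD e1 e2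
    have h6 := h5 g j'
    generalize M.ev0 φ (M.h g (j g)) = x at *
    generalize M.ev0 φ (M.h g j') = x' at *
    have hx : x ≠ 0 := fun h => hD0 (by rw [hD, h, mul_zero, zero_mul])
    have hs' : s ^ M.dh g ≠ 0 := pow_ne_zero _ hs
    have e4 : M.ev0 z (M.h g (j g)) = x * (1 + T * (v * a)) :=
      mul_left_cancel₀ hs' (by rw [e1, hD]; ring)
    have e5 : M.ev0 z (M.h g j') = x' + x * (T * (v * a')) :=
      mul_left_cancel₀ hs' (by rw [e2, hD]; ring)
    have e6 : M.ev0 z (M.h g j') / M.ev0 z (M.h g (j g)) = (x' / x + T * (v * a')) * b := by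
      rw [e4, e5, ← div_div, add_div, mul_div_cancel_left₀ _ hx, div_eq_mul_inv,
        inv_eq_of_mul_eq_one_right e3]
    exact e6 ▸ (mul_mem (add_mem h6 (mul_mem hC.mem (mul_mem hv ha'))) hb :
      (x' / x + T * (v * a')) * b ∈ Ψ.sub)

end LocalAux

open LocalAux WittVector in
theorem pLOCAL (hTCH : S_TCH) (hGG : S_GG) (hFIX : S_FIX) (hTOUG : S_TOUG): S_LOCAL := by
  intro p _ k _ _ M K B _ _ _ _ _ _ _ φ z ξ Δ lam V Φ c j n m e r o S h1 hz h0 hΔ hΔ0 hk hV hc _ hI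
    hh hS hX μ
  have hl : lam ≠ 0 := left_ne_zero_of_mul_eq_one hc
  have hd : lam ^ M.dDel * Δ ≠ 0 := mul_ne_zero (pow_ne_zero _ hl) hΔ0
  generalize hd' : lam ^ M.dDel * Δ = d at hd
  have hγ : d ^ (2 * (n + 1)) / lam ≠ 0 := div_ne_zero (pow_ne_zero _ hd) hl
  generalize hγ' : d ^ (2 * (n + 1)) / lam = γ at hγ
  obtain ⟨f1, f2, f3⟩ := hFIX B (M.ι × ℕ) Φ (algebraMap K B γ) (algebraMap K B γ⁻¹)
    (by rw [← map_mul, mul_inv_cancel₀ hγ, map_one])
  obtain ⟨Ω, _, _, J, hJ, hJ'⟩ : ∃ (Ω : Type) (_ : Field Ω) (_ : Algebra k Ω)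
      (J : PowerSeries (MvPolynomial (M.ι × ℕ) B) →+* Ω), Function.Injective J ∧
        ∀ a, J (algebraMap k _ a) = algebraMap k Ω a :=
    ⟨FractionRing (PowerSeries (MvPolynomial (M.ι × ℕ) B)), inferInstance, inferInstance,
      algebraMap _ _, IsFractionRing.injective _ _,
      fun a => (IsScalarTower.algebraMap_apply _ _ _ a).symm⟩
  obtain ⟨i, hi⟩ : ∃ i : B →+* Ω, ∀ b, i b = J (PowerSeries.C (C b)) :=
    ⟨J.comp (PowerSeries.C.comp C), fun _ => rfl⟩
  have hi' : ∀ a, i (algebraMap k B a) = algebraMap k Ω a := fun a => by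
    rw [hi, ← hJ', PowerSeries.algebraMap_apply, MvPolynomial.algebraMap_apply]
  have hF : ∀ l, ∀ b ∈ Φ.F l, i b ∈ ((Φ.ser (M.ι × ℕ) (algebraMap K B γ)).map J).F l :=
    fun l b hb => ⟨_, f1 l b hb, (hi b).symm⟩
  have hkF : ∀ a, algebraMap k Ω a ∈ ((Φ.ser (M.ι × ℕ) (algebraMap K B γ)).map J).F 0 := fun a =>
    hi' a ▸ hF 0 _ (IsScalarTower.algebraMap_apply k K B a ▸ hV _ (hk a))
  have hev : ∀ g, M.ev0 φ g =
      algebraMap K B (aeval ξ (MvPolynomial.map WittVector.constantCoeff g)) := fun g => by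
    rw [hom_aeval _ fun a => (IsScalarTower.algebraMap_apply k K B a).symm, Mod.ev0, funext h0]
  have hev' : ∀ g, M.ev0 (fun a => WittVector.map i (φ a)) g =
      (i.comp (algebraMap K B)) (aeval ξ (MvPolynomial.map WittVector.constantCoeff g)) :=
    fun g => by rw [RingHom.comp_apply, ← hev]; exact (hom_aeval i hi' _ _).symm
  have hcc : ∀ g, PowerSeries.constantCoeff (M.ev0 z g) = C (M.ev0 φ g) := fun g =>
    (hom_aeval (PowerSeries.constantCoeff (R := MvPolynomial (M.ι × ℕ) B)) (fun _ => by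
      rw [PowerSeries.algebraMap_apply, PowerSeries.constantCoeff_C]) _ _).trans
      ((congrArg (fun x => aeval x _) (funext hz.const)).trans
        (hom_aeval C (fun a => (MvPolynomial.algebraMap_apply a).symm) _ _).symm)
  have hu : IsUnit (M.ev0 z M.Del) := by
    rw [PowerSeries.isUnit_iff_constantCoeff, hcc, hev, ← hΔ]
    exact (hΔ0.isUnit.map _).map _
  have hzJ : ∀ g, M.ev0 (fun a => WittVector.map J (z a)) g = J (M.ev0 z g) := fun g =>
    (hom_aeval J hJ' _ _).symm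
  have h2 : ∀ a, eval₂ (WittVector.map (algebraMap k Ω)) (fun a => WittVector.map J (z a))
      (M.eqn a) = 0 := fun a => by rw [eval_map M J hJ', hz.eqn, map_zero]
  obtain ⟨a1, a2, a3⟩ := core (n := n) (c := c) (j := j) (φ := fun a => WittVector.map i (φ a))
    (u := fun a => WittVector.mk p fun l => J (PowerSeries.C (X (a, l))))
    (D := i (algebraMap K B d)) (s := i (algebraMap K B lam)) (t := J PowerSeries.X)
    hTCH hGG hTOUG (f3 Ω J hJ) hkF (fun a => by rw [eval_map M i hi', h1, map_zero]) h2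
    (fun a l hl => by
      rw [← map_teichmuller, ← map_mul]
      exact hF _ _ (hI a l hl))
    (fun a => int_of fun l => ⟨_, f2 _, rfl⟩)
    (by rw [hev', ← hΔ, ← hd', map_mul, map_mul, map_pow, map_pow]; rfl)
    ((map_ne_zero (i.comp (algebraMap K B))).2 hd) ⟨_, (hi _).symm⟩
    (by rw [map_coeff, h0, ← map_mul, ← map_mul, hc, map_one, map_one])
    (by
      rw [map_mul, ← hi, mul_right_comm, ← map_pow, ← map_pow, ← map_mul, ← map_mul, ← hγ',
        inv_div, div_mul_cancel₀ _ (pow_ne_zero _ hd)])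
    (fun a => by
      rw [hz.free, PJ.pert, map_add, map_add, map_mul, map_mul, map_teichmuller, map_teichmuller]
      refine congrArg₂ _ (WittVector.ext fun l => ?_) (congrArg₂ _ (by simp)
        (WittVector.ext fun l => ?_))
      · simp [hi]
      · simp [WittVector.coeff_mk])
    (fun a => by
      obtain ⟨w, hw⟩ : PowerSeries.X ∣ (z a).coeff 0 - PowerSeries.C (C ((φ a).coeff 0)) := by
        rw [PowerSeries.X_dvd_iff, map_sub, hz.const, PowerSeries.constantCoeff_C, sub_self]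
      refine ⟨J w, ⟨w, rfl⟩, ?_⟩
      rw [map_coeff, map_coeff, hi, ← map_mul, ← hw, ← map_add, add_sub_cancel])
    (fun g j' => by
      rw [hev', hev', ← map_div₀]
      exact hF 0 _ (hV _ (hh g j')))
  obtain ⟨s, hs, e1⟩ := hS Ω _ ⟨h2, by rw [hzJ]; exact (hu.map J).ne_zero⟩ c j _ hkF a1 a2 a3
  have e2 : Mod.ev (k := k) (fun a => WittVector.map J (z a)) S = J (Mod.ev (k := k) z S) :=
    (hom_aeval J hJ' _ _).symm
  have e3 : s * M.ev0 z M.Del ^ r = Mod.ev (k := k) z S * (z c).coeff 0 ^ e := hJ (by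
    have e4 : J s = _ := e1
    rw [map_mul, map_mul, map_pow, map_pow, e4, hzJ, e2,
      div_mul_cancel₀ _ (pow_ne_zero _ (hu.map J).ne_zero), map_coeff, mul_comm])
  have e4 : PowerSeries.X ^ o ∣ s := (hu.pow r).dvd_mul_right.1 (by rw [e3]; exact hX.mul_right _)
  have e5 := congrArg (PowerSeries.coeff o) e3
  rw [coeff_low hX, coeff_low e4, map_pow, map_pow, hcc, hev, ← hΔ, hz.const, h0, ← map_pow,
    ← map_pow, ← map_pow, ← map_pow, mul_comm, mul_comm _ (C _)] at e5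
  replace e5 := congrArg (MvPolynomial.coeff μ) e5
  rw [coeff_C_mul, coeff_C_mul] at e5
  have e6 : γ ^ o / (lam ^ e * Δ ^ r) = γ ^ o * (Δ ^ r)⁻¹ * ξ c ^ e := by
    rw [eq_inv_of_mul_eq_one_right hc, inv_pow]
    field_simp
  rw [e6, map_mul, mul_assoc, ← e5, map_mul, mul_assoc, ← mul_assoc _ (algebraMap K B (Δ ^ r)),
    ← map_mul, inv_mul_cancel₀ (pow_ne_zero _ hΔ0), map_one, one_mul, map_pow]
  exact hs o μ

end Pool.Agent.P.MP_6f117a_ag.Sp
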