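import Pool.Agent.P.MP_6f117a_ag.C.Iface

/-! Step LOCL on specialisations of curves. -/

namespace Pool.Agent.P.MP_6f117a_ag.Sp

open MvPolynomial Filter
open scoped Polynomial WithZero

universe u

theorem pLOCL : S_LOCL.{u} := by
  intro R K _ _ I Δ hΔ
  set J : Localization.Away Δ →+* K := IsLocalization.Away.lift Δ (Ne.isUnit hΔ)
  have e : ∀ r, J (algebraMap R _ r) = I r := IsLocalization.Away.lift_eq Δ _
  have e' : J (IsLocalization.Away.invSelf Δ) = (I Δ)⁻¹ :=
    eq_inv_of_mul_eq_one_right (by rw [← e, ← map_mul, IsLocalization.Away.mul_invSelf, map_one])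
  refine ⟨J.range, fun r => ⟨_, e r⟩, ⟨_, e'⟩, ?_, fun W _ => ⟨fun θ θ' h => ?_, fun Θ h1 h2 => ?_⟩⟩
  · rintro C h1 h2 _ ⟨x, rfl⟩
    obtain ⟨n, r, h⟩ := IsLocalization.Away.surj Δ x
    have := congrArg J h
    rw [map_mul, map_pow, e, e] at this
    rw [eq_div_of_mul_eq (pow_ne_zero n hΔ) this, div_eq_mul_inv, ← inv_pow]
    exact mul_mem (h1 r) (pow_mem h2 n)
  · have : θ.comp J.rangeRestrict = θ'.comp J.rangeRestrict :=
      IsLocalization.ringHom_ext (Submonoid.powers Δ) (RingHom.ext fun r => by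
        have : J.rangeRestrict (algebraMap R _ r) = ⟨I r, _, e r⟩ := Subtype.ext (e r)
        simpa only [RingHom.comp_apply, this] using h r)
    exact RingHom.ext fun b => by
      obtain ⟨x, rfl⟩ := J.rangeRestrict_surjective b
      exact RingHom.congr_fun this x
  · refine ⟨J.rangeRestrict.liftOfSurjective J.rangeRestrict_surjective
      ⟨IsLocalization.Away.lift Δ h2, fun x hx => ?_⟩, fun r => ?_⟩
    · obtain ⟨n, r, h⟩ := IsLocalization.Away.surj Δ x
      have a := congrArg J h
      have b := congrArg (IsLocalization.Away.lift Δ h2) h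
      rw [map_mul, show J x = 0 from congrArg Subtype.val hx, zero_mul, e] at a
      rw [map_mul, map_pow, IsLocalization.Away.lift_eq, IsLocalization.Away.lift_eq,
        h1 r a.symm] at b
      exact (h2.pow n).mul_left_eq_zero.1 b
    · rw [show (⟨I r, _⟩ : J.range) = J.rangeRestrict (algebraMap R _ r) from Subtype.ext (e r).symm,
        RingHom.liftOfSurjective_comp_apply]
      exact IsLocalization.Away.lift_eq Δ h2 r

end Pool.Agent.P.MP_6f117a_ag.Sp
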