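import Pool.Agent.P.MP_6f117a_ag.C.Iface

/-! Step MULTI on specialisations of curves. -/

namespace Pool.Agent.P.MP_6f117a_ag.Sp

open MvPolynomial Filter
open scoped Polynomial WithZero

universe u

namespace Multi

open Classical in
theorem funcs {L : Type u} [Field L] {J α : Type} [Fintype J] [Fintype α] (c : J → Fn L)
    (m : ∀ j, α → (c j).K) (T : Finset J) : ∃ l : ∀ j, α → (c j).K →ₗ[L] L,
      (∀ e : α → L, (∀ j ∈ T, ∑ a, e a • m j a = 0) → e = 0) →
        ∀ a b, ∑ j ∈ T, l j a (m j b) = if b = a then 1 else 0 := by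
  by_cases h : ∀ e : α → L, (∀ j ∈ T, ∑ a, e a • m j a = 0) → e = 0
  swap
  · exact ⟨0, fun h' => absurd h' h⟩
  let f : (α → L) →ₗ[L] ∀ j, (c j).K :=
    LinearMap.pi fun j => if j ∈ T then Fintype.linearCombination L (m j) else 0
  obtain ⟨g, hg⟩ := f.exists_leftInverse_of_injective (LinearMap.ker_eq_bot'.2 fun e he =>
    h e fun j hj => by simpa [f, hj, Fintype.linearCombination_apply] using congrFun he j)
  refine ⟨fun j a => (LinearMap.proj a).comp (g.comp (LinearMap.single L _ j)), fun _ a b => ?_⟩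
  have e1 : ∑ j ∈ T, Pi.single j (m j b) = f (Pi.single b 1) := by
    funext j
    by_cases hj : j ∈ T <;> simp [f, hj, Finset.sum_apply, Finset.sum_pi_single]
  have e2 := congrFun (LinearMap.congr_fun hg (Pi.single b 1)) a
  rw [LinearMap.comp_apply, ← e1, map_sum, Finset.sum_apply] at e2
  simpa [Pi.single_apply, eq_comm] using e2

end Multi

theorem pMULTI (L : Type u) [Field L] [IsAlgClosed L] [CharZero L]
    (hTHETA : S_THETA L) (hREL : S_REL L) :
    S_MULTI L := by
  classical
  intro J α _ _ c m U hU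
  choose l hl using Multi.funcs c m
  have h1 := fun j => hTHETA (c j).K (c j).t (c j).δ (c j).dt _ (inter_mem (hU j)
    (eventually_all.2 fun T => eventually_all.2 fun a =>
      hREL (c j).K (c j).t (c j).δ (c j).dt α (m j) (l T j a)))
  filter_upwards [eventually_all.2 h1, eventually_all.2 fun T => eventually_all.2 fun j =>
    eventually_all.2 fun a => eventually_all.2 fun b => ev_mem (l T j a (m j b))] with ω h2 h3
  choose χ h2 using h2
  refine ⟨χ, fun j => (h2 j).1, fun T hT e he => funext fun a => ?_⟩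
  have h4 : ∀ b, ∑ j ∈ T, ω.r0 (l T j a (m j b)) = if b = a then 1 else 0 := fun b => by
    have e1 : ∑ j ∈ T, (⟨_, h3 T j a b⟩ : ω.Λ) = if b = a then 1 else 0 := Subtype.ext (by
      rw [AddSubmonoidClass.coe_finsetSum, hl T hT a b]; split_ifs <;> rfl)
    have e2 := congrArg ω.ρ0 e1
    rw [map_sum] at e2
    simp only [← ω.r0_coe] at e2
    rw [e2]; split_ifs <;> simp
  have h5 : ∑ j ∈ T, ∑ b, e b * ω.r0 (l T j a (m j b)) = 0 :=
    Finset.sum_eq_zero fun j hj => (h2 j).2 T a e (he j hj)
  rw [Finset.sum_comm] at h5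
  simpa [← Finset.mul_sum, h4] using h5

end Pool.Agent.P.MP_6f117a_ag.Sp
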