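import Pool.Agent.P.MP_6f117a_ag.C.VIface

/-! Step NRM on specialisations of curves. -/

namespace Pool.Agent.P.MP_6f117a_ag.Sp

open MvPolynomial Filter
open scoped Polynomial WithZero

universe u

theorem NrmA.av {k A A' σ : Type} [Field k] [CommRing A] [Algebra k A] [CommRing A']
    [Algebra k A'] (f : A →+* A') (hf : f.comp (algebraMap k A) = algebraMap k A') (g : σ → A)
    (S : MvPolynomial σ k) : aeval (fun v => f (g v)) S = f (aeval g S) := by
  rw [map_aeval, hf]
  rfl

open NrmA

theorem pNRM : S_NRM := by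
  intro p _ k _ _ M B _ _ _ φ z hz hu S P o ⟨r, Q, h⟩ ho
  have u : IsUnit (M.ev0 z M.Del) := by
    rw [PowerSeries.isUnit_iff_constantCoeff, Mod.ev0, ← av _ rfl]
    simp only [hz.const]
    exact av (k := k) (C : B →+* MvPolynomial (M.ι × ℕ) B) rfl _ _ ▸ hu.map C
  let j := algebraMap (PowerSeries (MvPolynomial (M.ι × ℕ) B))
    (FractionRing (PowerSeries (MvPolynomial (M.ι × ℕ) B)))
  have hj := (IsScalarTower.algebraMap_eq k (PowerSeries (MvPolynomial (M.ι × ℕ) B))
    (FractionRing (PowerSeries (MvPolynomial (M.ι × ℕ) B)))).symm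
  have e0 : M.ev0 (fun b => WittVector.map j (z b)) M.Del = j (M.ev0 z M.Del) := av j hj _ _
  have e1 : ∀ {β : Type} (y : β → WittVector p _) (T : MvPolynomial (β × ℕ) k),
      Mod.ev (k := k) (fun b => WittVector.map j (y b)) T = j (Mod.ev (k := k) y T) :=
    fun y T => av j hj _ _
  have := h _ (fun b => WittVector.map j (z b)) ⟨fun a => ?_, e0 ▸ (u.map j).ne_zero⟩
  · rw [e0, e1, e1, e1, ← map_pow, ← map_mul, ← map_mul] at this
    have := (u.pow r).dvd_mul_left.1 ((ho.mul_right _).trans
      (IsFractionRing.injective _ _ this).symm.dvd)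
    have e : Mod.ev (k := k) (fun i => z (M.e i)) P =
        (PJ.evT p k (fun i => φ (M.e i)) P : PowerSeries _) := by
      simp only [hz.free, Mod.ev, WittVector.map_coeff]
      exact av (k := k) (Polynomial.coeToPowerSeries.ringHom (R := MvPolynomial (M.ι × ℕ) B))
        (RingHom.ext fun a => by simp [PowerSeries.algebraMap_apply])
        (fun v : M.ι × ℕ => (PJ.pert p (fun i => φ (M.e i)) v.1).coeff v.2) P
    rw [e, PowerSeries.X_pow_dvd_iff] at this
    exact Polynomial.X_pow_dvd_iff.2 fun d hd => (Polynomial.coeff_coe _ d).symm.trans (this d hd)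
  · have := congrArg (WittVector.map j) (hz.eqn a)
    rw [map_zero, eval₂_comp_left] at this
    refine Eq.trans (congrArg (eval₂ · _ _) (RingHom.ext fun w => ?_)) this
    ext n
    simp only [RingHom.comp_apply, WittVector.map_coeff]
    exact IsScalarTower.algebraMap_apply _ _ _ _

end Pool.Agent.P.MP_6f117a_ag.Sp
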