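import Pool.Agent.P.MP_6f117a_ag.C.Iface

/-! Step NULL on specialisations of curves. -/

namespace Pool.Agent.P.MP_6f117a_ag.Sp

open MvPolynomial Filter
open scoped Polynomial WithZero

universe u

theorem pNULL (L : Type u) [Field L] [IsAlgClosed L] [CharZero L] :
    S_NULL L := by
  intro ι J _ e h
  have h1 : Ideal.span (Set.range e) = ⊤ := by
    by_contra hn
    obtain ⟨M, hM, hle⟩ := Ideal.exists_le_maximal _ hn
    obtain ⟨ξ, rfl⟩ := isMaximal_iff_eq_vanishingIdeal_singleton.1 hM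
    obtain ⟨j, hj⟩ := h ξ
    exact hj ((mem_vanishingIdeal_singleton_iff ξ _).1 (hle (Ideal.subset_span ⟨j, rfl⟩)))
  obtain ⟨c, hc⟩ := Finsupp.mem_span_range_iff_exists_finsupp.1 ((Ideal.eq_top_iff_one _).1 h1)
  filter_upwards [ev_lifts fun j : c.support => c j, ev_lifts fun j : c.support => e j]
    with ω ⟨g, hg⟩ ⟨f, hf⟩ A _ _ _ ξ
  by_contra hn
  push Not at hn
  have h2 : ∑ j, g j * f j = 1 := by
    apply map_injective ω.Λ.subtype Subtype.val_injective
    rw [map_sum, map_one, ← hc, Finsupp.sum, ← Finset.sum_coe_sort c.support]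
    exact Finset.sum_congr rfl fun j _ => by rw [map_mul, hg, hf, smul_eq_mul]
  have h3 := congrArg (fun q => aeval ξ (MvPolynomial.map ω.ρ0 q)) h2
  simp only [map_sum, map_mul, map_one] at h3
  refine zero_ne_one (α := A) (Eq.trans (Finset.sum_eq_zero fun j _ => ?_).symm h3)
  rw [← ω.red0_map (f j), hf, hn, mul_zero]

end Pool.Agent.P.MP_6f117a_ag.Sp
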