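import Pool.Agent.P.MP_6f117a_ag.C.Iface

/-! Step PRES on specialisations of curves. -/

namespace Pool.Agent.P.MP_6f117a_ag.Sp

open MvPolynomial Filter
open scoped Polynomial WithZero

universe u

namespace Pres

open Polynomial
open scoped nonZeroDivisors IntermediateField

theorem core (R F K : Type u) [CommRing R] [IsDomain R] [IsIntegrallyClosed R] [Field F] [Field K]
    [Algebra R F] [IsFractionRing R F] [Algebra R K] [Algebra F K] [IsScalarTower R F K]
    [FiniteDimensional F K] [Algebra.IsSeparable F K] (S : Finset K) :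
    ∃ (w : K) (P U V : R[X]) (Δ : R) (a : K → R[X]), P.Monic ∧ 0 < P.natDegree ∧ Δ ≠ 0 ∧
      U * P + V * P.derivative = Polynomial.C Δ ∧ (∀ f : R[X], Polynomial.aeval w f = 0 ↔ P ∣ f) ∧
      ∀ b ∈ S, algebraMap R K Δ * b = Polynomial.aeval w (a b) := by
  classical
  have : Module.IsTorsionFree R K := .trans_faithfulSMul R F K
  obtain ⟨α, hα⟩ := Field.exists_primitive_element F K
  obtain ⟨y, hy, hw⟩ := exists_integral_multiples R F ({α} : Finset K)
  have hw := hw α (Finset.mem_singleton_self α)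
  have hy' : algebraMap R F y ≠ 0 := (map_ne_zero_iff _ (IsFractionRing.injective R F)).2 hy
  have key : ∀ b : K, ∃ d : R, d ≠ 0 ∧ ∃ g : R[X],
      algebraMap R K d * b = Polynomial.aeval (y • α) g := fun b => by
    have hb : b ∈ F⟮α⟯.toSubalgebra := hα ▸ IntermediateField.mem_top
    rw [IntermediateField.adjoin_simple_toSubalgebra_of_isAlgebraic
      (Algebra.IsAlgebraic.isAlgebraic α), Algebra.adjoin_singleton_eq_range_aeval] at hb
    obtain ⟨g, rfl⟩ := hb
    obtain ⟨d, hd, e⟩ := IsLocalization.integerNormalization_spec R⁰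
      (g.comp (Polynomial.C (algebraMap R F y)⁻¹ * Polynomial.X))
    refine ⟨d, nonZeroDivisors.ne_zero hd, IsLocalization.integerNormalization R⁰
      (g.comp (Polynomial.C (algebraMap R F y)⁻¹ * Polynomial.X)), ?_⟩
    rw [← Polynomial.aeval_map_algebraMap F, e, ← algebraMap_smul F d, map_smul, aeval_comp, map_mul,
      Polynomial.aeval_C, Polynomial.aeval_X, ← algebraMap_smul F y,
      ← Algebra.smul_def (algebraMap R F y)⁻¹, inv_smul_smul₀ hy', algebraMap_smul, Algebra.smul_def]
    rfl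
  choose d hd g hg using key
  have hP := minpoly.isIntegrallyClosed_dvd_iff hw
  have hs : Polynomial.aeval (y • α) (minpoly R (y • α)).derivative ≠ 0 := by
    rw [← Polynomial.aeval_map_algebraMap F, ← derivative_map,
      ← minpoly.isIntegrallyClosed_eq_field_fractions' F hw]
    exact (Algebra.IsSeparable.isSeparable F (y • α)).aeval_derivative_ne_zero (minpoly.aeval _ _)
  set b0 := (Polynomial.aeval (y • α) (minpoly R (y • α)).derivative)⁻¹ with hb0
  obtain ⟨q, hq⟩ := (hP (g b0 * (minpoly R (y • α)).derivative - Polynomial.C (d b0))).1 (by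
    rw [map_sub, map_mul, ← hg, Polynomial.aeval_C, mul_assoc, hb0, inv_mul_cancel₀ hs, mul_one,
      sub_self])
  refine ⟨y • α, minpoly R (y • α), -(Polynomial.C (∏ b ∈ S, d b) * q),
    Polynomial.C (∏ b ∈ S, d b) * g b0, d b0 * ∏ b ∈ S, d b,
    fun b => Polynomial.C (d b0 * ∏ c ∈ S.erase b, d c) * g b, minpoly.monic hw,
    minpoly.natDegree_pos hw, mul_ne_zero (hd _) (Finset.prod_ne_zero_iff.2 fun b _ => hd b), ?_, hP,
    fun b hb => ?_⟩
  · rw [map_mul]
    linear_combination Polynomial.C (∏ b ∈ S, d b) * hq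
  · rw [map_mul (Polynomial.aeval _), Polynomial.aeval_C, ← hg, ← Finset.prod_erase_mul S d hb,
      ← mul_assoc, ← mul_assoc, ← map_mul]

end Pres

open scoped nonZeroDivisors IntermediateField in
theorem pPRES (L : Type u) [Field L] [IsAlgClosed L] [CharZero L] :
    S_PRES L := by
  intro K _ _ _ t ht S
  have := FF.fin t ht
  let φ : L[X] →ₐ[L] L⟮t⟯ := Polynomial.aeval (IntermediateField.AdjoinSimple.gen L t)
  let _ : Algebra L[X] L⟮t⟯ := φ.toAlgebra
  let _ : Algebra L[X] K := (Polynomial.aeval t : L[X] →ₐ[L] K).toAlgebra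
  have : IsScalarTower L[X] L⟮t⟯ K := .of_algebraMap_eq fun p =>
    Polynomial.aeval_algebraMap_apply K (IntermediateField.AdjoinSimple.gen L t) p
  have : IsFractionRing L[X] L⟮t⟯ := IsLocalization.isLocalization_of_algEquiv L[X]⁰
    { (RatFunc.algEquivOfTranscendental t ht).toRingEquiv with
      commutes' := RatFunc.algEquivOfTranscendental_algebraMap t ht : RatFunc L ≃ₐ[L[X]] L⟮t⟯ }
  have : CharZero L⟮t⟯ := charZero_of_injective_algebraMap (algebraMap L L⟮t⟯).injective
  obtain ⟨w, P, U, V, Δ, a, h1, h2, h3, h4, h5, h6⟩ := Pres.core L[X] L⟮t⟯ K S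
  refine ⟨w, P, Polynomial.C (Polynomial.C Δ.leadingCoeff⁻¹) * U,
    Polynomial.C (Polynomial.C Δ.leadingCoeff⁻¹) * V, Δ * Polynomial.C Δ.leadingCoeff⁻¹,
    fun b => Polynomial.C (Polynomial.C Δ.leadingCoeff⁻¹) * a b, h1, h2,
    Polynomial.monic_mul_leadingCoeff_inv h3, ?_, h5, fun b hb => ?_⟩
  · rw [map_mul, ← h4]
    ring
  · change algebraMap L[X] K _ * b = Polynomial.aeval w _
    rw [map_mul, map_mul, Polynomial.aeval_C, ← h6 b hb]
    ring

end Pool.Agent.P.MP_6f117a_ag.Sp
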