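import Pool.Agent.P.MP_6f117a_ag.C.VIface

/-! Step REC on specialisations of curves. -/

namespace Pool.Agent.P.MP_6f117a_ag.Sp

open MvPolynomial Filter
open scoped Polynomial WithZero

universe u

theorem pREC (hGG : S_GG) (hTAY : S_TAY): S_REC := by
  intro p _ A _ _ M n σ _ _ g y J hg hy h0 hy0 hJ hinv
  obtain ⟨O, hO⟩ := hGG p A M n
  have key : ∀ l, l ≤ n → ∀ i : σ, (y (some i)).coeff l ∈ M.F (l * p ^ l) := by
    intro l
    induction l using Nat.strong_induction_on with
    | _ l ih =>
      intro hl i
      rcases Nat.eq_zero_or_pos l with rfl | hpos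
      · simpa using hy0 i
      let y' : Option σ → WittVector p A := fun o =>
        o.elim (y none) fun j => WittVector.mk p fun m => if m < l then (y (some j)).coeff m else 0
      have hy' : ∀ o, y' o ∈ O := by
        rintro (_ | j)
        · exact (hO _).2 h0
        · refine (hO _).2 fun m hm => ?_
          show (if m < l then (y (some j)).coeff m else 0) ∈ _
          split_ifs with h
          · exact ih m h hm j
          · exact zero_mem _
      have hE : ∀ j, (eval y' (g j)).coeff l ∈ M.F (l * p ^ l) := fun j => by
        refine (hO _).1 ?_ l hl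
        rw [eval_eq']
        exact sum_mem fun m _ => mul_mem ((hO _).2 (hg j m)) (prod_mem fun o _ => pow_mem (hy' o) _)
      have hT : ∀ j, -(eval y' (g j)).coeff l =
          ∑ k : σ, (eval y (pderiv (some k) (g j))).coeff 0 ^ p ^ l * (y (some k)).coeff l := by
        intro j
        have h1 := (hTAY p A (Option σ) (g j) y y' l (by
          rintro (_ | k) m hm
          · rfl
          · exact (if_pos hm).symm)).2 hpos
        rw [hy j, WittVector.zero_coeff, zero_sub, Fintype.sum_option] at h1
        have e1 : (y' none).coeff l = (y none).coeff l := rfl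
        have e2 : ∀ k, (y' (some k)).coeff l = 0 := fun k => if_neg (lt_irrefl l)
        simpa only [e1, e2, sub_self, mul_zero, zero_add, sub_zero] using h1
      have hδ : ∀ k : σ, ∑ j, J i j ^ p ^ l * (eval y (pderiv (some k) (g j))).coeff 0 ^ p ^ l =
          if i = k then 1 else 0 := fun k => by
        have h1 := congrArg (· ^ p ^ l) (hinv i k)
        simp only [sum_pow_char_pow, mul_pow] at h1
        rw [h1]
        split_ifs
        · exact one_pow _
        · exact zero_pow (pow_ne_zero _ (Fact.out : p.Prime).ne_zero)
      have hf : (y (some i)).coeff l = ∑ j, J i j ^ p ^ l * -(eval y' (g j)).coeff l := by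
        simp only [hT, Finset.mul_sum, ← mul_assoc]
        rw [Finset.sum_comm]
        simp only [← Finset.sum_mul, hδ]
        simp
      rw [hf]
      refine sum_mem fun j _ => M.mul_mem0 ?_ (neg_mem (hE j))
      simpa using M.pow_mem (hJ i j) (p ^ l)
  rintro (_ | i)
  exacts [h0, fun l hl => key l hl i]

end Pool.Agent.P.MP_6f117a_ag.Sp
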