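import Pool.Agent.P.MP_6f117a_ag.C.Iface

/-! Step REL on specialisations of curves. -/

namespace Pool.Agent.P.MP_6f117a_ag.Sp

open MvPolynomial Filter
open scoped Polynomial WithZero

universe u

namespace Rel

theorem indep {k K : Type} [Field k] [Field K] [Algebra k K] (d : Derivation k K K) {r : ℕ}
    (n : Fin r → K) (h : (Matrix.of fun i j : Fin r => d^[i] (n j)).det ≠ 0) (g : Fin r → k)
    (hg : ∑ j, g j • n j = 0) : g = 0 := by
  have h1 : ∀ i : ℕ, ∑ j, g j • d^[i] (n j) = 0 := fun i => by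
    induction i with
    | zero => exact hg
    | succ i ih =>
      have := congrArg d ih
      simpa only [map_sum, map_zero, Derivation.map_smul, Function.iterate_succ_apply'] using this
  have h2 := Matrix.eq_zero_of_mulVec_eq_zero (v := fun j => algebraMap k K (g j)) h
    (funext fun i => by
      simpa only [Matrix.mulVec, dotProduct, Matrix.of_apply, Algebra.smul_def, mul_comm,
        Pi.zero_apply] using h1 i)
  exact funext fun j => (algebraMap k K).injective ((congrFun h2 j).trans (map_zero _).symm)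

variable {L K : Type u} [Field L] [Field K] [Algebra L K] {t : K} {δ : Derivation L K K}
  {ω : Spec L} (χ : Sq t δ ω)

theorem iter {b : K} (hb : b ∈ χ.B) (i : ℕ) :
    δ^[i] b ∈ χ.B ∧ χ.pi (δ^[i] b) = χ.d^[i] (χ.pi b) := by
  induction i with
  | zero => exact ⟨hb, rfl⟩
  | succ i ih =>
    rw [Function.iterate_succ_apply', Function.iterate_succ_apply', χ.pi_der ih.1, ih.2]
    exact ⟨χ.der_mem _ ih.1, rfl⟩

theorem pi_det {r : ℕ} (n : Fin r → K) (hn : ∀ j, n j ∈ χ.B) :
    χ.pi (Matrix.of fun i j : Fin r => δ^[i] (n j)).det =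
      (Matrix.of fun i j : Fin r => χ.d^[i] (χ.pi (n j))).det := by
  let W : Matrix (Fin r) (Fin r) χ.B := Matrix.of fun i j => ⟨δ^[i] (n j), (iter χ (hn j) i).1⟩
  have e1 : (Matrix.of fun i j : Fin r => δ^[i] (n j)).det = (W.det : K) :=
    (χ.B.subtype.map_det W).symm
  rw [e1, Sq.pi, χ.ex_coe, χ.π.map_det]
  refine congrArg Matrix.det (Matrix.ext fun i j => ?_)
  exact (χ.ex_of_mem χ.π (iter χ (hn j) i).1).symm.trans (iter χ (hn j) i).2

end Rel

theorem pREL (L : Type u) [Field L] [IsAlgClosed L] [CharZero L]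
    (hWR : S_WR L) :
    S_REL L := by
  intro K _ _ _ t δ ht α _ m l
  let V := Submodule.span L (Set.range m)
  have : Module.Finite L V := Module.Finite.span_of_finite L (Set.finite_range m)
  let b := Module.finBasis L V
  let n : Fin (Module.finrank L V) → K := fun j => b j
  let c : α → Fin (Module.finrank L V) → L := fun a j =>
    b.repr ⟨m a, Submodule.subset_span ⟨a, rfl⟩⟩ j
  have hm : ∀ a, m a = ∑ j, c a j • n j := fun a => by
    simpa only [Submodule.coe_sum, Submodule.coe_smul] using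
      (congrArg Subtype.val (b.sum_repr ⟨m a, Submodule.subset_span ⟨a, rfl⟩⟩)).symm
  have hdet := hWR K δ (fun x hx => (const_or_trans x).resolve_right fun h => by
    obtain ⟨D, -, -, hD⟩ := exists_dt h
    have := hD δ t
    rw [ht, hx, mul_zero] at this
    exact one_ne_zero this) _ n (b.linearIndependent.map' V.subtype V.ker_subtype)
  filter_upwards [ev_Bs n, ev_pi_ne hdet,
    ev_sp (eventually_all.2 fun a => eventually_all.2 fun j => ev_mem (c a j)),
    ev_sp (eventually_all.2 fun j => ev_mem (l (n j)))] with ⟨ω, χ⟩ h1 h2 h3 h4 e he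
  dsimp only at h1 h2 h3 h4 e he ⊢
  rw [Rel.pi_det χ n h1] at h2
  have hc : ∀ a j, algebraMap L K (c a j) ∈ χ.B := fun a j => χ.mem ⟨_, h3 a j⟩
  have e1 : ∀ a, χ.pi (m a) = ∑ j, ω.r0 (c a j) • χ.pi (n j) := fun a => by
    rw [hm a]
    simp only [Algebra.smul_def]
    rw [Sq.pi, χ.ex_sum _ _ fun j _ => mul_mem (hc a j) (h1 j)]
    exact Finset.sum_congr rfl fun j _ => by
      rw [χ.ex_mul _ (hc a j) (h1 j), ← χ.pi_const (h3 a j)]
  have e2 : ∀ a, ω.r0 (l (m a)) = ∑ j, ω.r0 (c a j) * ω.r0 (l (n j)) := fun a => by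
    have e3 : l (m a) = ((∑ j, (⟨_, h3 a j⟩ : ω.Λ) * ⟨_, h4 j⟩ : ω.Λ) : L) := by
      rw [hm a, map_sum, AddSubmonoidClass.coe_finsetSum]
      exact Finset.sum_congr rfl fun j _ => l.map_smul _ _
    rw [e3, ω.r0_coe, map_sum]
    exact Finset.sum_congr rfl fun j _ => by rw [map_mul, ← ω.r0_coe, ← ω.r0_coe]
  have h5 := Rel.indep χ.d _ h2 (fun j => ∑ a, e a * ω.r0 (c a j)) (by
    rw [← he]
    simp only [e1, Finset.smul_sum, Finset.sum_smul, smul_smul]
    exact Finset.sum_comm)
  simp only [e2, Finset.mul_sum, ← mul_assoc]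
  rw [Finset.sum_comm]
  exact Finset.sum_eq_zero fun j _ => by
    rw [← Finset.sum_mul, show ∑ a, e a * ω.r0 (c a j) = 0 from congrFun h5 j, zero_mul]

end Pool.Agent.P.MP_6f117a_ag.Sp
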