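import Pool.Agent.P.MP_6f117a_ag.C.Iface

/-! Step SIGMA on specialisations of curves. -/

namespace Pool.Agent.P.MP_6f117a_ag.Sp

open MvPolynomial Filter
open scoped Polynomial WithZero

universe u

namespace Sigma

open WithZero Module
open scoped IntermediateField

variable {L K : Type u} [Field L] [Field K] [Algebra L K] [IsAlgClosed L] [CharZero L] [FF L K]

/-- a function with large poles on `Z` and no zero away from the poles of `t` -/
theorem exists_w {t : K} (ht : Transcendental L t) (N : ℕ) (Z : Finset (Place L K)) :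
    ∃ w : K, w ≠ 0 ∧ ∀ P : Place L K, P.v t ≤ 1 →
      0 ≤ log (P.v w) ∧ (P ∈ Z → (N : ℤ) ≤ log (P.v w)) := by
  classical
  induction Z using Finset.induction_on with
  | empty => exact ⟨1, one_ne_zero, fun P _ => by simp⟩
  | insert Q Z _ ih =>
    obtain ⟨w, h0, hw⟩ := ih
    by_cases hQ : Q.v t ≤ 1
    swap
    · exact ⟨w, h0, fun P hP => ⟨(hw P hP).1, fun h => (hw P hP).2
        ((Finset.mem_insert.1 h).resolve_left (by rintro rfl; exact hQ hP))⟩⟩
    obtain ⟨c, hc⟩ := Q.res hQ
    have h1 : t - algebraMap L K c ≠ 0 := trans_ne (trans_sub ht c)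
    have h2 : ∀ P : Place L K, P.v (t - algebraMap L K c) ≠ 0 := fun P => by simpa using h1
    refine ⟨w * ((t - algebraMap L K c) ^ N)⁻¹, mul_ne_zero h0 (inv_ne_zero (pow_ne_zero _ h1)),
      fun P hP => ?_⟩
    have e : log (P.v (w * ((t - algebraMap L K c) ^ N)⁻¹)) =
        log (P.v w) - N * log (P.v (t - algebraMap L K c)) := by
      rw [map_mul, map_inv₀, map_pow, log_mul (by simpa using h0)
        (inv_ne_zero (pow_ne_zero _ (h2 P))), log_inv, log_pow, nsmul_eq_mul]
      ring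
    have h3 : log (P.v (t - algebraMap L K c)) ≤ 0 := by
      rw [log_le_iff_le_exp (h2 P)]
      exact P.v.map_sub_le hP (P.triv c)
    have h4 := hw P hP
    rw [e]
    refine ⟨by nlinarith [h4.1, Int.natCast_nonneg N], fun h => ?_⟩
    rcases Finset.mem_insert.1 h with rfl | h
    · have h5 : log (P.v (t - algebraMap L K c)) < 0 := by
        rw [log_lt_iff_lt_exp (h2 P)]
        exact hc
      nlinarith [h4.1, Int.natCast_nonneg N]
    · nlinarith [h4.2 h, Int.natCast_nonneg N]

theorem exists_basis {t : K} (ht : Transcendental L t) : ∃ (g : Fin (finrank L⟮t⟯ K) → K) (d : ℕ),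
    LinearIndependent L⟮t⟯ g ∧ (∀ i, Reg L t (g i)) ∧
      ∀ i (P : Place L K), 1 < P.v t → P.v (g i) ≤ P.v t ^ d := by
  classical
  obtain ⟨b, hb⟩ := (model ht).basis
  obtain ⟨Y, hY, -⟩ := exists_poles ht
  obtain ⟨d, hd⟩ := Finite.exists_le fun p : Y × Fin _ => (log (p.1.1.v (b p.2))).toNat
  refine ⟨b, d, b.linearIndependent, fun i => (hb _).2 ⟨Pi.single i 1, ?_⟩, fun i P h => ?_⟩
  · rw [Finset.sum_eq_single i (fun j _ h => by simp [h]) (by simp)]
    simp
  · have t0 : P.v t ≠ 0 := by simpa using trans_ne ht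
    have h1 := hd (⟨P, (hY P).2 h⟩, i)
    have h2 : 0 < log (P.v t) := (lt_log_iff_exp_lt t0).2 h
    have h3 : P.v (b i) ≠ 0 := by simpa using b.ne_zero i
    rw [← exp_log t0, ← exp_nsmul, ← log_le_iff_le_exp h3, nsmul_eq_mul]
    simp only at h1
    have h4 : (d : ℤ) ≤ d * log (P.v t) := by nlinarith [Int.natCast_nonneg d]
    omega

theorem main (D : Place L K → ℤ) (Z : Finset (Place L K)) (hZ : ∀ P, D P ≠ 0 → P ∈ Z)
    (hD : 0 < ∑ P ∈ Z, D P) :
    ∃ (a : ℕ) (s : K), 0 < a ∧ s ≠ 0 ∧ ∀ P : Place L K, P.v s ≤ exp (a * D P) := by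
  classical
  obtain ⟨Q, -⟩ : Z.Nonempty := by
    by_contra h
    rw [Finset.not_nonempty_iff_eq_empty.1 h] at hD
    simp at hD
  have ht := Q.π_trans
  generalize Q.π = t at ht
  obtain ⟨g, d, hg, g1, g2⟩ := exists_basis ht
  obtain ⟨Y, hY, eY⟩ := exists_poles ht
  generalize finrank L⟮t⟯ K = n at g hg g1 g2 eY
  obtain ⟨N, hN⟩ := Finite.exists_le fun P : Z => (((d * n + 1 : ℕ) : ℤ) * D P).toNat
  obtain ⟨w, w0, hw⟩ := exists_w ht N Z
  obtain ⟨j, hj⟩ := Finite.exists_le fun P : Y =>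
    (((d * n + 1 : ℕ) : ℤ) * D P - log (P.1.v w)).toNat
  have t0 : ∀ P : Place L K, P.v t ≠ 0 := fun P => by simpa using trans_ne ht
  have v0 : ∀ P : Place L K, P.v w ≠ 0 := fun P => by simpa using w0
  have hg' : LinearIndependent L⟮t⟯ fun i => w * g i :=
    hg.map' (LinearMap.mulLeft L⟮t⟯ w) (LinearMap.ker_eq_bot.2 (mul_right_injective₀ w0))
  let A := Submodule.span L (Set.range fun p : Fin j × Fin n => t ^ (p.1 : ℕ) * (w * g p.2))
  have : FiniteDimensional L A := FiniteDimensional.span_of_finite L (Set.finite_range _)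
  have hA : finrank L A = j * n := finrank_fam ht hg' j
  have hle : ∀ P : Place L K,
      A ≤ P.le (log (P.v w) + if P ∈ Y then (j + d) * log (P.v t) else 0) := fun P => by
    refine Submodule.span_le.2 ?_
    rintro _ ⟨p, rfl⟩
    change P.v (t ^ (p.1 : ℕ) * (w * g p.2)) ≤ _
    rw [exp_add, exp_log (v0 P), mul_left_comm, map_mul]
    refine mul_le_mul' le_rfl ?_
    split_ifs with h
    · have h := (hY P).1 h
      rw [map_mul, map_pow, ← Nat.cast_add, ← nsmul_eq_mul, exp_nsmul, exp_log (t0 P), pow_add]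
      exact mul_le_mul' (pow_le_pow_right₀ h.le p.1.2.le) (g2 _ P h)
    · exact (g1 _).pow_mul _ P (not_lt.1 (mt (hY P).2 h))
  let Z' := (Z ∪ (finite_supp (L := L) w0).toFinset) ∪ Y
  obtain ⟨W, h1, h2, h3⟩ := step_many Z' (fun P => ((d * n + 1 : ℕ) : ℤ) * D P)
    (fun P => log (P.v w) + if P ∈ Y then (j + d) * log (P.v t) else 0) A
    (fun P _ => by
      split_ifs with h
      · have h4 := hj ⟨P, h⟩
        have h5 : 0 < log (P.v t) := (lt_log_iff_exp_lt (t0 P)).2 ((hY P).1 h)
        have h6 : (j : ℤ) ≤ (j + d) * log (P.v t) := by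
          nlinarith [Int.natCast_nonneg d, Int.natCast_nonneg j]
        simp only at h4
        omega
      · have h4 := hw P (not_lt.1 (mt (hY P).2 h))
        by_cases h5 : P ∈ Z
        · have h6 := hN ⟨P, h5⟩
          have h7 := h4.2 h5
          simp only at h6
          omega
        · rw [not_not.1 (mt (hZ P) h5), mul_zero, add_zero]
          exact h4.1)
    fun P _ => hle P
  have sub : Z ⊆ Z' := Finset.subset_union_left.trans Finset.subset_union_left
  rw [Finset.sum_sub_distrib, Finset.sum_add_distrib, Finset.sum_ite_mem,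
    Finset.inter_eq_right.2 Finset.subset_union_right, ← Finset.mul_sum, eY, ← Finset.mul_sum,
    ← Finset.sum_subset sub fun P _ h => not_not.1 (mt (hZ P) h), hA,
    prod_formula w0 Z' fun P h => Finset.mem_union_left _ (Finset.mem_union_right _
      ((Set.Finite.mem_toFinset _).2 h))] at h3
  have h4 : 0 < finrank L W := by
    have h5 : ((d * n + 1 : ℕ) : ℤ) ≤ ((d * n + 1 : ℕ) : ℤ) * ∑ P ∈ Z, D P :=
      le_mul_of_one_le_right (Int.natCast_nonneg _) hD
    push_cast at h3 h5
    have h6 : (0 : ℤ) < finrank L W := by linarith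
    exact_mod_cast h6
  have h5 : W ≠ ⊥ := by
    rintro rfl
    simp at h4
  obtain ⟨s, hs, s0⟩ := (Submodule.ne_bot_iff W).1 h5
  refine ⟨d * n + 1, s, Nat.succ_pos _, s0, fun P => ?_⟩
  by_cases e : P ∈ Z'
  · exact h2 P e hs
  · have h6 := hle P (h1 hs)
    simp only [Z', Finset.mem_union, not_or, Set.Finite.mem_toFinset, Set.mem_setOf_eq,
      not_not] at e
    rw [if_neg e.2, e.1.2, log_one, add_zero] at h6
    rw [not_not.1 (mt (hZ P) e.1.1), mul_zero]
    exact h6

end Sigma

theorem pSIGMA (L : Type u) [Field L] [IsAlgClosed L] [CharZero L] :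
    S_SIGMA L := by
  intro K _ _ _ D Z hZ hD
  exact Sigma.main D Z hZ hD

end Pool.Agent.P.MP_6f117a_ag.Sp
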