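import Pool.Agent.P.MP_6f117a_ag.C.VIface

/-! Step TAY on specialisations of curves. -/

namespace Pool.Agent.P.MP_6f117a_ag.Sp

open MvPolynomial Filter
open scoped Polynomial WithZero

universe u

section Aux

variable {p : ℕ} [Fact p.Prime] {A : Type} [CommRing A]

theorem tay_coeff_iter (x : WittVector p A) (l : ℕ) :
    (WittVector.verschiebung^[l] x).coeff l = x.coeff 0 := by
  have h := WittVector.iterate_verschiebung_coeff x l 0
  rwa [zero_add] at h

theorem tay_add {l : ℕ} {a b : WittVector p A} (ha : ∀ i < l, a.coeff i = 0)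
    (hb : ∀ i < l, b.coeff i = 0) : (a + b).coeff l = a.coeff l + b.coeff l := by
  rw [WittVector.eq_iterate_verschiebung ha, WittVector.eq_iterate_verschiebung hb,
    ← iterate_map_add, tay_coeff_iter, tay_coeff_iter, tay_coeff_iter, WittVector.add_coeff_zero]

theorem tay_sub {l : ℕ} {x y : WittVector p A} (h : ∀ i < l, x.coeff i = y.coeff i) :
    (x - y).coeff l = x.coeff l - y.coeff l := by
  have h0 : ∀ i < l, (x - y).coeff i = 0 := WittVector.le_coeff_eq_iff_le_sub_coeff_eq_zero.1 h
  have hi : WittVector.init l x = WittVector.init l y := by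
    ext i
    simp only [WittVector.init, WittVector.select, WittVector.coeff_mk]
    split_ifs with hil
    · exact h i hil
    · rfl
  have ht : ∀ w : WittVector p A, ∀ i < l, (WittVector.tail l w).coeff i = 0 := by
    intro w i hil
    simp only [WittVector.tail, WittVector.select, WittVector.coeff_mk]
    rw [if_neg (by omega)]
  have ht' : ∀ w : WittVector p A, (WittVector.tail l w).coeff l = w.coeff l := by
    intro w
    simp only [WittVector.tail, WittVector.select, WittVector.coeff_mk]
    rw [if_pos le_rfl]
  have he : (x - y) + WittVector.tail l y = WittVector.tail l x := by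
    have hx := WittVector.init_add_tail x l
    have hy := WittVector.init_add_tail y l
    rw [hi] at hx
    linear_combination -hx + hy
  have := tay_add h0 (ht y)
  rw [he, ht', ht'] at this
  rw [this]; ring

theorem tay_sum {l : ℕ} {σ : Type} (s : Finset σ) (a : σ → WittVector p A)
    (ha : ∀ j, ∀ i < l, (a j).coeff i = 0) :
    (∑ j ∈ s, a j).coeff l = ∑ j ∈ s, (a j).coeff l := by
  classical
  induction s using Finset.induction_on with
  | empty => simp
  | insert j s hj ih =>
    rw [Finset.sum_insert hj, Finset.sum_insert hj, tay_add (ha j), ih]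
    exact (WittVector.mem_ker_truncate l _).1
      (Ideal.sum_mem _ fun k _ => (WittVector.mem_ker_truncate l _).2 (ha k))

theorem tay_mul [CharP A p] {l : ℕ} (a : WittVector p A) {w : WittVector p A}
    (hw : ∀ i < l, w.coeff i = 0) : (a * w).coeff l = a.coeff 0 ^ p ^ l * w.coeff l := by
  have h := WittVector.iterate_verschiebung_mul_coeff a (w.shift l) 0 l
  rw [Function.iterate_zero, id, zero_add, pow_zero, pow_one,
    ← WittVector.eq_iterate_verschiebung hw] at h
  rw [h, WittVector.shift_coeff, add_zero]

theorem tay_sq [CharP A p] {l : ℕ} (hl : 0 < l) {w : WittVector p A}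
    (hw : w ∈ RingHom.ker (WittVector.truncate (p := p) (R := A) l) *
      RingHom.ker (WittVector.truncate (p := p) (R := A) l)) :
    ∀ i < l + 1, w.coeff i = 0 := by
  rw [← WittVector.mem_ker_truncate]
  refine Ideal.mul_le.2 ?_ hw
  intro a ha b hb
  rw [WittVector.mem_ker_truncate] at ha hb ⊢
  intro i hi
  rw [WittVector.eq_iterate_verschiebung ha, WittVector.eq_iterate_verschiebung hb,
    WittVector.iterate_verschiebung_mul]
  exact WittVector.iterate_verschiebung_coeff_eq_zero _ (by omega)

theorem tay_ring {R : Type} [CommRing R] {σ : Type} [Fintype σ] (I : Ideal R) (z z' : σ → R)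
    (h : ∀ i, z i - z' i ∈ I) (f : MvPolynomial σ R) :
    eval z f - eval z' f - ∑ i, eval z (pderiv i f) * (z i - z' i) ∈ I * I := by
  classical
  induction f using MvPolynomial.induction_on with
  | C a => simp
  | add f g hf hg =>
    have e : eval z (f + g) - eval z' (f + g) - ∑ i, eval z (pderiv i (f + g)) * (z i - z' i) =
        (eval z f - eval z' f - ∑ i, eval z (pderiv i f) * (z i - z' i)) +
        (eval z g - eval z' g - ∑ i, eval z (pderiv i g) * (z i - z' i)) := by
      simp only [map_add, add_mul, Finset.sum_add_distrib]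
      ring
    rw [e]
    exact add_mem hf hg
  | mul_X f k hf =>
    have hs : ∑ i, eval z (pderiv i f) * (z i - z' i) ∈ I :=
      Ideal.sum_mem _ fun i _ => I.mul_mem_left _ (h i)
    have hd : eval z f - eval z' f ∈ I := by
      have := add_mem (Ideal.mul_le_right hf) hs
      rwa [sub_add_cancel] at this
    have e1 : ∑ i, eval z (pderiv i (f * X k)) * (z i - z' i) =
        (∑ i, eval z (pderiv i f) * (z i - z' i)) * z k + eval z f * (z k - z' k) := by
      have e2 : ∀ i, eval z (pderiv i (f * X k)) * (z i - z' i) =
          eval z (pderiv i f) * (z i - z' i) * z k +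
            if i = k then eval z f * (z k - z' k) else 0 := by
        intro i
        rw [Derivation.leibniz, pderiv_X]
        by_cases hik : i = k
        · subst hik
          simp
          ring
        · rw [Pi.single_eq_of_ne (Ne.symm hik), if_neg hik]
          simp
          ring
      simp only [e2, Finset.sum_add_distrib, Finset.sum_mul]
      simp
    have e : eval z (f * X k) - eval z' (f * X k) -
        ∑ i, eval z (pderiv i (f * X k)) * (z i - z' i) =
        (eval z f - eval z' f - ∑ i, eval z (pderiv i f) * (z i - z' i)) * z k -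
          (eval z f - eval z' f) * (z k - z' k) := by
      rw [e1]
      simp only [map_mul, eval_X]
      ring
    rw [e]
    exact sub_mem (Ideal.mul_mem_right _ _ hf) (Ideal.mul_mem_mul hd (h k))

end Aux

theorem pTAY : S_TAY := by
  intro p _ A _ _ σ _ f z z' l h
  have hz : ∀ i, ∀ j < l, (z i - z' i).coeff j = 0 := fun i =>
    WittVector.le_coeff_eq_iff_le_sub_coeff_eq_zero.1 (h i)
  have hI : ∀ i, z i - z' i ∈ RingHom.ker (WittVector.truncate (p := p) (R := A) l) := fun i =>
    (WittVector.mem_ker_truncate l _).2 (hz i)
  have hT := tay_ring _ z z' hI f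
  have hs : ∑ i, eval z (pderiv i f) * (z i - z' i) ∈
      RingHom.ker (WittVector.truncate (p := p) (R := A) l) :=
    Ideal.sum_mem _ fun i _ => Ideal.mul_mem_left _ _ (hI i)
  have hd : eval z f - eval z' f ∈ RingHom.ker (WittVector.truncate (p := p) (R := A) l) := by
    have := add_mem (Ideal.mul_le_right hT) hs
    rwa [sub_add_cancel] at this
  have h1 : ∀ j < l, (eval z f).coeff j = (eval z' f).coeff j :=
    WittVector.le_coeff_eq_iff_le_sub_coeff_eq_zero.2 ((WittVector.mem_ker_truncate l _).1 hd)
  refine ⟨h1, fun hl => ?_⟩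
  have h2 := WittVector.le_coeff_eq_iff_le_sub_coeff_eq_zero.2 (tay_sq hl hT) l (Nat.lt_succ_self l)
  rw [← tay_sub h1, h2, tay_sum]
  · refine Finset.sum_congr rfl fun i _ => ?_
    rw [tay_mul _ (hz i), tay_sub (h i)]
  · intro i
    exact (WittVector.mem_ker_truncate l _).1 (Ideal.mul_mem_left _ _ (hI i))

end Pool.Agent.P.MP_6f117a_ag.Sp
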