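import Pool.Agent.P.MP_6f117a_ag.C.VIface

/-! Step TCH on specialisations of curves. -/

namespace Pool.Agent.P.MP_6f117a_ag.Sp

open MvPolynomial Filter
open scoped Polynomial WithZero

universe u

namespace TchAux
open WittVector

variable (p : ℕ) [Fact p.Prime]

theorem rat {R : Type} (a : MvPolynomial R ℚ) (z : WittVector p (MvPolynomial R ℚ)) :
    teichmuller p a * z = WittVector.mk p fun l => a ^ p ^ l * z.coeff l := by
  apply (ghostMap.bijective_of_invertible p (MvPolynomial R ℚ)).1
  rw [map_mul]
  ext1 n
  rw [Pi.mul_apply, ghostMap_apply, ghostMap_apply, ghostMap_apply, ghostComponent_teichmuller,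
    ghostComponent_apply, ghostComponent_apply, aeval_wittPolynomial, aeval_wittPolynomial,
    Finset.mul_sum]
  refine Finset.sum_congr rfl fun i hi => ?_
  have h : i + (n - i) = n := by
    have := Finset.mem_range.1 hi
    omega
  rw [coeff_mk, mul_pow, ← pow_mul, ← pow_add, h]
  ring

theorem int {R : Type} (a : MvPolynomial R ℤ) (z : WittVector p (MvPolynomial R ℤ)) (l : ℕ) :
    (teichmuller p a * z).coeff l = a ^ p ^ l * z.coeff l := by
  refine MvPolynomial.map_injective (Int.castRingHom ℚ) Int.cast_injective ?_
  rw [← WittVector.map_coeff, map_mul, map_teichmuller, rat, coeff_mk, map_mul, map_pow,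
    WittVector.map_coeff]

end TchAux

theorem pTCH : S_TCH := by
  intro p _ A _ a z l
  obtain ⟨a, rfl⟩ := counit_surjective A a
  obtain ⟨z, rfl⟩ := WittVector.map_surjective (p := p) (counit A)
    (counit_surjective A) z
  have := congrArg (counit A) (TchAux.int p a z l)
  rw [← WittVector.map_coeff, map_mul, WittVector.map_teichmuller, map_mul, map_pow,
    ← WittVector.map_coeff] at this
  exact this

end Pool.Agent.P.MP_6f117a_ag.Sp
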