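import Pool.Agent.P.MP_6f117a_ag.C.Iface

/-! Step THETA on specialisations of curves. -/

namespace Pool.Agent.P.MP_6f117a_ag.Sp

open MvPolynomial Filter
open scoped Polynomial WithZero

universe u

namespace Theta

section Ev

variable {Λ A A' S : Type*} [CommRing Λ] [CommRing A] [CommRing A'] [CommRing S] [Algebra S A]

/-- Evaluation of a polynomial in two variables. -/
noncomputable def ev (φ : Λ →+* A) (x y : A) : Λ[X][X] →+* A :=
  Polynomial.eval₂RingHom (Polynomial.eval₂RingHom φ x) y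

theorem ev_C (φ : Λ →+* A) (x y : A) (f : Λ[X]) : ev φ x y (Polynomial.C f) = f.eval₂ φ x :=
  Polynomial.eval₂_C _ _

theorem ev_CX (φ : Λ →+* A) (x y : A) : ev φ x y (Polynomial.C Polynomial.X) = x := by
  rw [ev_C, Polynomial.eval₂_X]

theorem ev_CC (φ : Λ →+* A) (x y : A) (a : Λ) :
    ev φ x y (Polynomial.C (Polynomial.C a)) = φ a := by
  rw [ev_C, Polynomial.eval₂_C]

theorem ev_map (φ : Λ →+* A) (x y : A) (f : Λ[X][X]) :
    (f.map (Polynomial.eval₂RingHom φ x)).eval y = ev φ x y f :=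
  Polynomial.eval_map _ _

theorem ev_nat (φ : Λ →+* A) (x y : A) (ψ : A →+* A') (f : Λ[X][X]) :
    ψ (ev φ x y f) = ev (ψ.comp φ) (ψ x) (ψ y) f := by
  have e : ψ.comp (Polynomial.eval₂RingHom φ x) = Polynomial.eval₂RingHom (ψ.comp φ) (ψ x) :=
    RingHom.ext fun g => Polynomial.hom_eval₂ g φ ψ x
  exact (Polynomial.hom_eval₂ f _ ψ y).trans (by rw [e]; rfl)

/-- An additive map applied to the coefficients. -/
noncomputable def dc (e : Λ →+ Λ) (f : Λ[X]) : Λ[X] := f.sum fun n c => Polynomial.monomial n (e c)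

theorem der_eval (D : Derivation S A A) (ψ : Λ →+* A) (e : Λ →+ Λ) (h : ∀ c, D (ψ c) = ψ (e c))
    (y : A) (f : Λ[X]) :
    D (f.eval₂ ψ y) = (dc e f).eval₂ ψ y + f.derivative.eval₂ ψ y * D y := by
  induction f using Polynomial.induction_on' with
  | add f g hf hg =>
    have : dc e (f + g) = dc e f + dc e g :=
      Polynomial.sum_add_index _ _ _ (fun _ => by simp) fun _ _ _ => by simp
    rw [this, map_add, Polynomial.eval₂_add, Polynomial.eval₂_add, Polynomial.eval₂_add, map_add,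
      hf, hg]
    ring
  | monomial n c =>
    have : dc e (Polynomial.monomial n c) = Polynomial.monomial n (e c) :=
      Polynomial.sum_monomial_index _ _ (by simp)
    rw [this, Polynomial.derivative_monomial, Polynomial.eval₂_monomial, Polynomial.eval₂_monomial,
      Polynomial.eval₂_monomial, D.leibniz, D.leibniz_pow, h, map_mul, map_natCast]
    simp only [smul_eq_mul, nsmul_eq_mul]
    ring

/-- The derivative in the first variable. -/
noncomputable def d1 (f : Λ[X][X]) : Λ[X][X] :=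
  dc (Polynomial.derivative : Λ[X] →ₗ[Λ] Λ[X]).toAddMonoidHom f

theorem der_ev (D : Derivation S A A) (φ : Λ →+* A) (hφ : ∀ c, D (φ c) = 0) {x : A}
    (hx : D x = 1) (y : A) (f : Λ[X][X]) :
    D (ev φ x y f) = ev φ x y (d1 f) + ev φ x y f.derivative * D y :=
  der_eval D (Polynomial.eval₂RingHom φ x) _ (fun c => by
    have := der_eval D φ 0 (fun c => by simpa using hφ c) x c
    simpa [dc, Polynomial.sum, hx] using this) y f

theorem ev_bez (φ : Λ →+* A) (x y : A) {P U V E : Λ[X][X]} (h : U * P + V * P.derivative = E)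
    (h0 : ev φ x y P = 0) : ev φ x y V * ev φ x y P.derivative = ev φ x y E := by
  rw [← h, map_add, map_mul, map_mul, h0, mul_zero, zero_add]

theorem der_ev' (D : Derivation S A A) (φ : Λ →+* A) (hφ : ∀ c, D (φ c) = 0) {x : A}
    (hx : D x = 1) (y : A) {P U V E : Λ[X][X]} (h : U * P + V * P.derivative = E)
    (h0 : ev φ x y P = 0) (f : Λ[X][X]) :
    D (ev φ x y f) * ev φ x y E = ev φ x y (E * d1 f - f.derivative * V * d1 P) := by
  have h1 := der_ev D φ hφ hx y P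
  rw [h0, map_zero] at h1
  rw [der_ev D φ hφ hx, map_sub, map_mul, map_mul, map_mul, ← ev_bez φ x y h h0]
  linear_combination (-(ev φ x y f.derivative * ev φ x y V)) * h1

end Ev

theorem ex_eq {K W : Type*} [Field K] {B : Subring K} (π : B → W) {a : K} (c : B) (h : a = c)
    {z : W} (hz : π c = z) : ∃ h' : a ∈ B, π ⟨a, h'⟩ = z := by
  subst h; exact ⟨c.2, hz⟩

theorem der_ring {K K' S S' : Type*} [Field K] [Field K'] [CommRing S] [CommRing S'] [Algebra S K]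
    [Algebra S' K'] (δ : Derivation S K K) (d : Derivation S' K' K') (B : Subring K)
    (π : B →+* K') : ∃ C : Subring K,
      (∀ b, b ∈ C ↔ ∃ (h : b ∈ B) (h' : δ b ∈ B), π ⟨δ b, h'⟩ = d (π ⟨b, h⟩)) ∧
        ∀ b ∈ C, b ≠ 0 → b⁻¹ ∈ B → b⁻¹ ∈ C := by
  refine ⟨{ carrier := {b | ∃ (h : b ∈ B) (h' : δ b ∈ B), π ⟨δ b, h'⟩ = d (π ⟨b, h⟩)}
            mul_mem' := ?_
            one_mem' := ?_
            add_mem' := ?_
            zero_mem' := ?_
            neg_mem' := ?_ }, fun _ => Iff.rfl, ?_⟩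
  · rintro a b ⟨ha, ha', e⟩ ⟨hb, hb', e'⟩
    refine ⟨mul_mem ha hb, ex_eq π (⟨a, ha⟩ * ⟨δ b, hb'⟩ + ⟨b, hb⟩ * ⟨δ a, ha'⟩) (δ.leibniz a b) ?_⟩
    change _ = d (π (⟨a, ha⟩ * ⟨b, hb⟩))
    simp only [map_add, map_mul, d.leibniz, e, e', smul_eq_mul]
  · refine ⟨one_mem _, ex_eq π 0 δ.map_one_eq_zero ?_⟩
    change _ = d (π 1)
    rw [map_one, map_zero, d.map_one_eq_zero]
  · rintro a b ⟨ha, ha', e⟩ ⟨hb, hb', e'⟩
    refine ⟨add_mem ha hb, ex_eq π (⟨δ a, ha'⟩ + ⟨δ b, hb'⟩) (map_add δ a b) ?_⟩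
    change _ = d (π (⟨a, ha⟩ + ⟨b, hb⟩))
    simp only [map_add, e, e']
  · refine ⟨zero_mem _, ex_eq π 0 (map_zero δ) ?_⟩
    change _ = d (π 0)
    rw [map_zero, map_zero]
  · rintro a ⟨ha, ha', e⟩
    refine ⟨neg_mem ha, ex_eq π (-⟨δ a, ha'⟩) (map_neg δ a) ?_⟩
    change _ = d (π (-⟨a, ha⟩))
    simp only [map_neg, e]
  · rintro a ⟨ha, ha', e⟩ h0 hi
    have h1 : π ⟨a⁻¹, hi⟩ = (π ⟨a, ha⟩)⁻¹ := eq_inv_of_mul_eq_one_left (by
      rw [← map_mul, ← map_one π]; exact congrArg π (Subtype.ext (inv_mul_cancel₀ h0)))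
    refine ⟨hi, ex_eq π (-⟨a⁻¹, hi⟩ ^ 2 * ⟨δ a, ha'⟩) (δ.leibniz_inv a) ?_⟩
    rw [h1, d.leibniz_inv, map_mul, map_neg, map_pow, h1, e, smul_eq_mul]

/-- Lifting of a simple root to Witt vectors. -/
theorem hensel {p : ℕ} [Fact p.Prime] {Ω : Type} [Field Ω] [IsAlgClosed Ω] [CharP Ω p]
    (Q : (WittVector p Ω)[X]) (hQ : Q.Monic) (a : WittVector p Ω) (h0 : (Q.eval a).coeff 0 = 0)
    (h1 : (Q.derivative.eval a).coeff 0 ≠ 0) :
    ∃ y : WittVector p Ω, Q.eval y = 0 ∧ y.coeff 0 = a.coeff 0 := by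
  obtain ⟨y, hy, hy'⟩ := HenselianRing.is_henselian (I := Ideal.span {(p : WittVector p Ω)}) Q hQ a
    ((WittVector.mem_span_p_iff_coeff_zero_eq_zero _).2 h0)
    ((WittVector.isUnit_of_coeff_zero_ne_zero _ h1).map _)
  have h2 : WittVector.constantCoeff (y - a) = 0 :=
    (WittVector.mem_span_p_iff_coeff_zero_eq_zero _).1 hy'
  rw [map_sub, sub_eq_zero] at h2
  exact ⟨y, hy, h2⟩

variable {L : Type u} [Field L]

theorem ev_lift1 (f : L[X]) : ∀ᶠ ω in spF L, ∃ g : ω.Λ[X], g.map ω.Λ.subtype = f := by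
  induction f using Polynomial.induction_on' with
  | add f g hf hg =>
    filter_upwards [hf, hg] with ω ⟨f', hf⟩ ⟨g', hg⟩
    exact ⟨f' + g', by rw [Polynomial.map_add, hf, hg]⟩
  | monomial n c =>
    filter_upwards [ev_mem c] with ω hc
    exact ⟨Polynomial.monomial n ⟨c, hc⟩, Polynomial.map_monomial _⟩

theorem ev_lift2 (f : L[X][X]) :
    ∀ᶠ ω in spF L, ∃ g : ω.Λ[X][X], g.map (Polynomial.mapRingHom ω.Λ.subtype) = f := by
  induction f using Polynomial.induction_on' with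
  | add f g hf hg =>
    filter_upwards [hf, hg] with ω ⟨f', hf⟩ ⟨g', hg⟩
    exact ⟨f' + g', by rw [Polynomial.map_add, hf, hg]⟩
  | monomial n c =>
    filter_upwards [ev_lift1 c] with ω ⟨g, hg⟩
    exact ⟨Polynomial.monomial n g, by rw [Polynomial.map_monomial, Polynomial.coe_mapRingHom, hg]⟩

variable {K : Type u} [Field K] [Algebra L K]

theorem main (hDER : S_DER) (hLOCL : S_LOCL.{u}) {t : K} {δ : Derivation L K K} (ht : δ t = 1)
    (ω : Spec L) (w : K) {P U V : ω.Λ[X][X]} {Δ : ω.Λ[X]} (hP : P.Monic) (hd : 0 < P.natDegree)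
    (hΔ : Δ.Monic) (hb : U * P + V * P.derivative = Polynomial.C Δ)
    (I : ω.Λ[X][X] →+* K) (hI : I = ev ((algebraMap L K).comp ω.Λ.subtype) t w)
    (hk : ∀ f, I f = 0 ↔ P ∣ f) (h0 : I (Polynomial.C Δ) ≠ 0) :
    ∃ χ : Sq t δ ω, (∀ r, I r ∈ χ.B) ∧ (I (Polynomial.C Δ))⁻¹ ∈ χ.B := by
  obtain ⟨B, hB, hi, hmin, hW⟩ := hLOCL ω.Λ[X][X] K I _ h0
  obtain ⟨htt, d, hd1⟩ := hDER ω.p
  let φ : ω.Λ →+* KK ω.p := (algebraMap (kk ω.p) (KK ω.p)).comp ω.ρ0
  have h1 : Δ.eval₂ φ (tt ω.p) ≠ 0 := fun h => htt ⟨Δ.map ω.ρ0, (hΔ.map _).ne_zero, by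
    rw [Polynomial.aeval_def, Polynomial.eval₂_map]; exact h⟩
  obtain ⟨v, hv⟩ := IsSepClosed.exists_root (P.map (Polynomial.eval₂RingHom φ (tt ω.p)))
    (by rw [hP.degree_map]; exact (Polynomial.natDegree_pos_iff_degree_pos.1 hd).ne')
    ((Polynomial.separable_def' _).2 ⟨Polynomial.C (Δ.eval₂ φ (tt ω.p))⁻¹ * U.map _,
      Polynomial.C (Δ.eval₂ φ (tt ω.p))⁻¹ * V.map _, by
        rw [mul_assoc, mul_assoc, ← mul_add, Polynomial.derivative_map, ← Polynomial.map_mul,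
          ← Polynomial.map_mul, ← Polynomial.map_add, hb, Polynomial.map_C, ← map_mul,
          Polynomial.coe_eval₂RingHom, inv_mul_cancel₀ h1, map_one]⟩)
  have hJ : ev φ (tt ω.p) v P = 0 := (ev_map _ _ _ _).symm.trans hv
  have hJ1 : ev φ (tt ω.p) v (Polynomial.C Δ) ≠ 0 := by rwa [ev_C]
  have hker : ∀ {W : Type} [CommRing W] (Θ : ω.Λ[X][X] →+* W), Θ P = 0 → ∀ r, I r = 0 → Θ r = 0 :=
    fun Θ h r hr => by
      obtain ⟨q, rfl⟩ := (hk r).1 hr
      rw [map_mul, h, zero_mul]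
  obtain ⟨π, hπ⟩ := (hW (KK ω.p)).2 (ev φ (tt ω.p) v) (hker _ hJ) hJ1.isUnit
  obtain ⟨C, hC, hC'⟩ := der_ring δ d B π
  have hπi : π ⟨_, hi⟩ = (ev φ (tt ω.p) v (Polynomial.C Δ))⁻¹ := eq_inv_of_mul_eq_one_left (by
    rw [← hπ, ← map_mul, ← map_one π]; exact congrArg π (Subtype.ext (inv_mul_cancel₀ h0)))
  have hIC : ∀ r, I r ∈ C := fun r => by
    have e1 := der_ev' δ ((algebraMap L K).comp ω.Λ.subtype) (fun c => δ.map_algebraMap c) ht w hb
      (hI ▸ (hk P).2 dvd_rfl) r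
    have e2 := der_ev' d φ (fun c => d.map_algebraMap _) hd1 v hb hJ r
    rw [← hI] at e1
    refine (hC _).2 ⟨hB r, ex_eq π (⟨_, hB (Polynomial.C Δ * d1 r - r.derivative * V * d1 P)⟩ *
      ⟨_, hi⟩) ((eq_mul_inv_iff_mul_eq₀ h0).2 e1) ?_⟩
    rw [map_mul, hπi, hπ, hπ]
    exact ((eq_mul_inv_iff_mul_eq₀ hJ1).2 e2).symm
  have hBC := hmin C hIC (hC' _ (hIC _) h0 hi)
  have et : I (Polynomial.C Polynomial.X) = t := by rw [hI, ev_CX]
  have ec : ∀ a : ω.Λ, I (Polynomial.C (Polynomial.C a)) = algebraMap L K a := fun a => by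
    rw [hI, ev_CC]; rfl
  refine ⟨{ B := B
            π := π
            d := d
            mem := fun a => ec a ▸ hB _
            t_mem := et ▸ hB _
            der_mem := fun b hb => ((hC b).1 (hBC hb)).2.1
            π_const := fun a => (congrArg π (Subtype.ext (ec a).symm)).trans
              ((hπ _).trans (ev_CC _ _ _ _))
            π_t := (congrArg π (Subtype.ext et.symm)).trans ((hπ _).trans (ev_CX _ _ _))
            π_der := fun b => ((hC b).1 (hBC b.2)).2.2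
            lift := fun Ω _ _ _ ι x hx => ?_ }, hB, hi⟩
  let ψ : ω.Λ →+* WittVector ω.p Ω :=
    (WittVector.map (ι.comp (algebraMap (kk ω.p) (KK ω.p)))).comp ω.ρ
  have hc : ∀ y : WittVector ω.p Ω, y.coeff 0 = ι v → ∀ r,
      (ev ψ x y r).coeff 0 = ι (ev φ (tt ω.p) v r) := fun y hy r => by
    have e : WittVector.constantCoeff.comp ψ = ι.comp φ :=
      RingHom.ext fun a => WittVector.map_coeff (ι.comp (algebraMap _ _)) (ω.ρ a) 0
    rw [ev_nat φ, ← e, ← hx, ← hy]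
    exact ev_nat ψ x y WittVector.constantCoeff r
  have ha := WittVector.teichmuller_coeff_zero ω.p (ι v)
  obtain ⟨y, hy, hy'⟩ := hensel (P.map (Polynomial.eval₂RingHom ψ x)) (hP.map _) _
    (by rw [ev_map, hc _ ha, hJ, map_zero])
    (by
      rw [Polynomial.derivative_map, ev_map, hc _ ha]
      exact (map_ne_zero ι).2 (right_ne_zero_of_mul (ev_bez φ _ v hb hJ ▸ hJ1)))
  rw [ha] at hy'
  obtain ⟨θ, hθ⟩ := (hW (WittVector ω.p Ω)).2 (ev ψ x y) (hker _ ((ev_map _ _ _ _).symm.trans hy))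
    (WittVector.isUnit_of_coeff_zero_ne_zero _ (by rw [hc _ hy']; exact (map_ne_zero ι).2 hJ1))
  have hu := (hW Ω).1 (WittVector.constantCoeff.comp θ) (ι.comp π) fun r => by
    rw [RingHom.comp_apply, RingHom.comp_apply, hθ, hπ]; exact hc _ hy' r
  exact ⟨θ, (congrArg θ (Subtype.ext et.symm)).trans ((hθ _).trans (ev_CX _ _ _)),
    fun b => RingHom.congr_fun hu b,
    fun a => (congrArg θ (Subtype.ext (ec a).symm)).trans ((hθ _).trans (ev_CC _ _ _ _))⟩

end Theta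

theorem pTHETA (L : Type u) [Field L] [IsAlgClosed L] [CharZero L]
    (hDER : S_DER) (hLOCL : S_LOCL.{u}) (hPRES : S_PRES L) :
    S_THETA L := by
  rintro K _ _ _ t δ ht U ⟨S, hS⟩
  have htr : Transcendental L t := (const_or_trans t).resolve_left (by
    rintro ⟨c, rfl⟩; simp at ht)
  obtain ⟨w, P, U', V, Δ, a, hP, hd, hΔ, hb, hk, ha⟩ := hPRES K t htr S
  filter_upwards [hS, Theta.ev_lift2 P, Theta.ev_lift2 U', Theta.ev_lift2 V, Theta.ev_lift1 Δ,
    (eventually_all_finset S).2 fun b _ => Theta.ev_lift2 (a b)] with ω h1 ⟨P, eP⟩ ⟨U', eU⟩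
    ⟨V, eV⟩ ⟨Δ, eΔ⟩ h2
  subst eP eU eV eΔ
  have i1 : Function.Injective ω.Λ.subtype := ω.Λ.subtype_injective
  have i2 : Function.Injective (Polynomial.mapRingHom ω.Λ.subtype) :=
    Polynomial.map_injective _ i1
  have hP' := Polynomial.monic_of_injective i2 hP
  have e0 : (Polynomial.aeval t : L[X] →ₐ[L] K).toRingHom.comp (Polynomial.mapRingHom ω.Λ.subtype) =
      Polynomial.eval₂RingHom ((algebraMap L K).comp ω.Λ.subtype) t :=
    RingHom.ext fun g => Polynomial.eval₂_map _ _ _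
  have e1 : ∀ f : ω.Λ[X][X], (f.map (Polynomial.mapRingHom ω.Λ.subtype)).eval₂
      (Polynomial.aeval t : L[X] →ₐ[L] K).toRingHom w =
        Theta.ev ((algebraMap L K).comp ω.Λ.subtype) t w f := fun f => by
    rw [Polynomial.eval₂_map, e0]; rfl
  have e2 : Polynomial.aeval t (Δ.map ω.Λ.subtype) =
      Theta.ev ((algebraMap L K).comp ω.Λ.subtype) t w (Polynomial.C Δ) := by
    rw [Theta.ev_C]; exact Polynomial.eval₂_map _ _ _
  have h0 : Theta.ev ((algebraMap L K).comp ω.Λ.subtype) t w (Polynomial.C Δ) ≠ 0 := fun h =>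
    htr ⟨_, hΔ.ne_zero, e2.trans h⟩
  obtain ⟨χ, hχ, hχ'⟩ := Theta.main (U := U') (V := V) hDER hLOCL ht ω w hP'
    (by rwa [Polynomial.natDegree_map_eq_of_injective i2] at hd)
    (Polynomial.monic_of_injective i1 hΔ)
    (Polynomial.map_injective _ i2 (by
      rw [Polynomial.map_add, Polynomial.map_mul, Polynomial.map_mul, ← Polynomial.derivative_map,
        hb, Polynomial.map_C, Polynomial.coe_mapRingHom])) _ rfl
    (fun f => by rw [← e1, hk, Polynomial.map_dvd_map _ i2 hP']) h0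
  refine ⟨χ, h1 χ fun b hb => ?_⟩
  obtain ⟨g, hg⟩ := h2 b hb
  have := ha b hb
  rw [← hg, e1, e2] at this
  rw [(eq_inv_mul_iff_mul_eq₀ h0).2 this]
  exact mul_mem hχ' (hχ g)

end Pool.Agent.P.MP_6f117a_ag.Sp
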