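import Pool.Agent.P.MP_6f117a_ag.C.VIface

/-! Step TOUG on specialisations of curves. -/

namespace Pool.Agent.P.MP_6f117a_ag.Sp

open MvPolynomial Filter
open scoped Polynomial WithZero

universe u

namespace Toug

theorem tay {O R ι : Type} [CommRing O] [CommRing R] [Algebra O R] (S : Subalgebra O R)
    (φ : Option ι → O) (u : ι → O) (s : O) {Y : R} (hY : Y ∈ S) (z : Option ι → R)
    (h0 : z none = algebraMap O R (φ none) + Y)
    (h1 : ∀ i, z (some i) = algebraMap O R (φ (some i) + s * u i))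
    (f : MvPolynomial (Option ι) O) : ∃ g₁ : O, ∃ g₂ ∈ S, ∃ q ∈ S, aeval z f =
      algebraMap O R (eval φ f) + algebraMap O R (eval φ (pderiv none f)) * Y +
        algebraMap O R s * (algebraMap O R g₁ + Y * g₂) + Y ^ 2 * q := by
  induction f using MvPolynomial.induction_on with
  | C a => exact ⟨0, 0, zero_mem _, 0, zero_mem _, by simp⟩
  | add f g hf hg =>
    obtain ⟨a, b, hb, c, hc, e⟩ := hf
    obtain ⟨a', b', hb', c', hc', e'⟩ := hg
    refine ⟨a + a', b + b', add_mem hb hb', c + c', add_mem hc hc', ?_⟩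
    simp only [map_add, e, e']
    ring
  | mul_X f i hf =>
    obtain ⟨a, b, hb, c, hc, e⟩ := hf
    rcases i with _ | i
    · refine ⟨a * φ none, algebraMap O R a + b * (algebraMap O R (φ none) + Y),
        add_mem (S.algebraMap_mem _) (mul_mem hb (add_mem (S.algebraMap_mem _) hY)),
        algebraMap O R (eval φ (pderiv none f)) + c * (algebraMap O R (φ none) + Y),
        add_mem (S.algebraMap_mem _) (mul_mem hc (add_mem (S.algebraMap_mem _) hY)), ?_⟩
      simp only [map_mul, aeval_X, eval_X, e, h0, Derivation.leibniz, pderiv_X_self, smul_eq_mul,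
        map_add, mul_one]
      ring
    · refine ⟨eval φ f * u i + a * (φ (some i) + s * u i),
        algebraMap O R (eval φ (pderiv none f) * u i) + b * algebraMap O R (φ (some i) + s * u i),
        add_mem (S.algebraMap_mem _) (mul_mem hb (S.algebraMap_mem _)),
        c * algebraMap O R (φ (some i) + s * u i), mul_mem hc (S.algebraMap_mem _), ?_⟩
      have : pderiv none (X (some i) : MvPolynomial (Option ι) O) = 0 :=
        pderiv_X_of_ne (by simp)
      simp only [map_mul, aeval_X, eval_X, e, h1, Derivation.leibniz, this, smul_eq_mul,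
        map_add, mul_zero, zero_add]
      ring

variable {p : ℕ} [Fact p.Prime] {Ω : Type} [Field Ω] {Φ : Filt Ω} {n : ℕ}

omit [Fact p.Prime] in
theorem int_zero {x : WittVector p Ω} (h : Φ.Int p n x) : x.coeff 0 ∈ Φ.F 0 := by
  simpa using h 0 (Nat.zero_le _)

theorem int_teich {a : Ω} (h : a ∈ Φ.F 0) : Φ.Int p n (WittVector.teichmuller p a) := by
  intro l _
  rcases Nat.eq_zero_or_pos l with rfl | hl
  · simpa using h
  · rw [WittVector.teichmuller_coeff_pos p a l hl]; exact zero_mem _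

theorem fix [CharP Ω p] (hREC : S_REC) {A : Subring Ω} {T : Ω} (hcl : Cl Φ A T)
    {O : Subring (WittVector p Ω)} (hO : ∀ z, z ∈ O ↔ Φ.Int p n z) (H : O[X]) (c : O)
    {y : WittVector p Ω} (hA : y.coeff 0 ∈ A)
    (e : y = c + WittVector.teichmuller p T * Polynomial.aeval y H) : Φ.Int p n y := by
  have h0 : y.coeff 0 ∈ Φ.F 0 := by
    refine hcl.fix (H.map (WittVector.constantCoeff.comp (algebraMap O (WittVector p Ω))))
      ((c : WittVector p Ω).coeff 0)
      _ (fun i => ?_) (int_zero ((hO _).1 c.2)) hA ?_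
    · rw [Polynomial.coeff_map]
      exact int_zero ((hO _).1 (H.coeff i).2)
    · have h1 := congrArg WittVector.constantCoeff e
      rw [map_add, map_mul, Polynomial.aeval_def, Polynomial.hom_eval₂] at h1
      rw [Polynomial.eval_map]
      simpa using h1
  let y' : Option Unit → WittVector p Ω := fun o => o.elim 0 fun _ => y
  have hy' : ∀ i, (y' i).coeff 0 ∈ Φ.F 0 := by
    rintro (_ | _)
    · simp [y']
    · exact h0
  let t : O := ⟨_, (hO _).2 (int_teich hcl.mem)⟩
  let G : MvPolynomial (Option Unit) O := Polynomial.aeval (X (some ())) H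
  have hw : (aeval y' (pderiv (some ()) G)).coeff 0 ∈ Φ.F 0 :=
    eval₂_mem (f := algebraMap O (WittVector p Ω)) (p := pderiv (some ()) G) (v := y')
      (s := Φ.sub.comap (WittVector.constantCoeff (p := p) (R := Ω)))
      (fun m _ => int_zero ((hO _).1 (coeff m (pderiv (some ()) G)).2)) hy'
  obtain ⟨b, hb, hb'⟩ := hcl.inv _ (neg_mem hw)
  refine hREC p Ω Φ n Unit (fun _ => MvPolynomial.map (algebraMap O _) (X (some ()) - C c - C t * G)) y'
    (fun _ _ => b) (fun _ m => ?_) (fun _ => ?_) ((hO _).1 (zero_mem _)) hy' (fun _ _ => hb)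
    (fun _ _ => ?_) (some ())
  · rw [coeff_map]; exact (hO _).1 (Subtype.property _)
  · rw [eval_map, ← aeval_def]
    simp only [map_sub, map_mul, aeval_X, aeval_C, G, ← Polynomial.aeval_algHom_apply]
    exact sub_eq_zero.2 (sub_eq_of_eq_add' e)
  · rw [pderiv_map, eval_map, ← aeval_def, if_pos rfl, Fintype.sum_unique, ← hb', mul_comm]
    congr 1
    simp only [map_sub, map_mul, pderiv_X_self, pderiv_C, pderiv_C_mul, map_one, sub_zero,
      aeval_C, ← WittVector.constantCoeff_apply]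
    rw [mul_neg, ← sub_eq_add_neg]
    congr 2

end Toug

theorem pTOUG (hGG : S_GG) (hTAY : S_TAY) (hREC : S_REC) (hINVW : S_INVW): S_TOUG := by
  intro p _ Ω _ _ Φ A T n ι _ f φ z u d v y₀ hcl hf hφ hu e1 e2 hd hv hdv hz hA h0
  obtain ⟨O, hO⟩ := hGG p Ω Φ n
  obtain ⟨f', rfl⟩ : f ∈ Set.range (MvPolynomial.map (algebraMap O (WittVector p Ω))) := by
    refine mem_range_map_iff_coeffs_subset.2 fun c hc => ?_
    obtain ⟨m, -, rfl⟩ := mem_coeffs_iff.1 hc
    exact ⟨⟨_, (hO _).2 (hf m)⟩, rfl⟩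
  let φ' : Option ι → O := fun i => ⟨φ i, (hO _).2 (hφ i)⟩
  have hev : ∀ g : MvPolynomial (Option ι) O,
      eval φ (MvPolynomial.map (algebraMap O _) g) = algebraMap O (WittVector p Ω) (eval φ' g) :=
    fun g => by rw [eval_map, eval₂_comp]; rfl
  rw [pderiv_map, hev] at hdv
  rw [hev] at e1
  rw [eval_map, ← aeval_def] at e2
  set J := algebraMap O (WittVector p Ω) (eval φ' (pderiv none f')) with hJ
  have hJO : Φ.Int p n J := (hO _).1 (eval φ' (pderiv none f')).2
  have hJ0 : J.coeff 0 ≠ 0 := left_ne_zero_of_mul (hdv ▸ hd)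
  have hd0 : d ∈ Φ.F 0 := hdv ▸ Φ.mul_mem0 (Toug.int_zero hJO) hv
  obtain ⟨κ, hκ, hκJ⟩ := hINVW p Ω Φ n J v hJO hJ0 hv
  rw [← hdv] at hκJ
  have hne : T * d ^ (n + 1) ≠ 0 := mul_ne_zero hcl.ne (pow_ne_zero _ hd)
  set y := WittVector.teichmuller p (T * d ^ (n + 1))⁻¹ * (z none - φ none) with hy
  have hz0 : z none = φ none + WittVector.teichmuller p (T * d ^ (n + 1)) * y := by
    rw [hy, ← mul_assoc, ← map_mul, mul_inv_cancel₀ hne, map_one, one_mul, add_sub_cancel]
  have hy0 : y.coeff 0 = y₀ := by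
    have h1 := congrArg WittVector.constantCoeff hz0
    rw [map_add, map_mul] at h1
    simp only [WittVector.constantCoeff_apply, WittVector.teichmuller_coeff_zero] at h1
    exact mul_left_cancel₀ hne (add_left_cancel (h1.symm.trans h0))
  refine ⟨y, ?_, hz0⟩
  have hp : ∀ m, d ^ m ∈ Φ.F 0 := fun m => Φ.sub.pow_mem hd0 m
  let t : O := ⟨_, (hO _).2 (Toug.int_teich hcl.mem)⟩
  let ε : O := ⟨_, (hO _).2 (Toug.int_teich (hp (n + 1)))⟩
  let κ' : O := ⟨κ, (hO _).2 hκ⟩
  let S := (Polynomial.aeval (R := O) y).range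
  have hyS : y ∈ S := ⟨Polynomial.X, Polynomial.aeval_X y⟩
  obtain ⟨g₁, g₂, hg₂, q, hq, e⟩ := Toug.tay S φ' (fun i => ⟨u i, (hO _).2 (hu i)⟩) (t * ε ^ 2)
    (mul_mem (S.algebraMap_mem (t * ε)) hyS) z (by rw [hz0, map_mul]; rfl) (fun i => by
      rw [hz, mul_comm 2, pow_mul, map_mul, map_pow]; rfl) f'
  obtain ⟨H, hH⟩ : -(algebraMap O _ κ' * (algebraMap O _ ε * y * g₂ + y ^ 2 * q)) ∈ S :=
    neg_mem (mul_mem (S.algebraMap_mem _) (add_mem (mul_mem (mul_mem (S.algebraMap_mem _) hyS) hg₂)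
      (mul_mem (pow_mem hyS 2) hq)))
  refine Toug.fix hREC hcl hO H (-(κ' * g₁)) (hy0 ▸ hA) ?_
  have hε : algebraMap O (WittVector p Ω) ε = κ * J := hκJ.symm
  have hT : ∀ a : Ω, a ≠ 0 → WittVector.teichmuller p a ≠ 0 := fun a ha h =>
    ha (by rw [← WittVector.teichmuller_coeff_zero p a, h, WittVector.zero_coeff])
  have hJ1 : J ≠ 0 := fun h => hJ0 (by rw [h, WittVector.zero_coeff])
  refine mul_left_cancel₀ (mul_ne_zero hJ1 (hT _ hne)) ?_
  rw [e1, e2, ← hJ] at e
  change Polynomial.aeval y H = _ at hH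
  rw [hH, map_mul, ← hκJ]
  simp only [map_mul, map_pow, hε] at e
  change _ = J * (algebraMap O _ t * (κ * J)) * (-(κ * algebraMap O _ g₁) + algebraMap O _ t *
    -(κ * (algebraMap O _ ε * y * g₂ + y ^ 2 * q)))
  change J * (algebraMap O _ t * (κ * J)) * y = _
  rw [hε]
  linear_combination -e

end Pool.Agent.P.MP_6f117a_ag.Sp
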