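import Pool.Agent.P.MP_6f117a_ag.C.VIface

/-! Step VAN on specialisations of curves. -/

namespace Pool.Agent.P.MP_6f117a_ag.Sp

open MvPolynomial Filter
open scoped Polynomial WithZero

universe u

namespace Van

open WithZero WittVector

theorem scale {R A σ : Type*} [CommRing R] [CommRing A] (g : R →+* A) (c : A) (x : σ → A)
    {f : MvPolynomial σ R} {d : ℕ} (hf : f.IsHomogeneous d) :
    eval₂ g (fun a => c * x a) f = c ^ d * eval₂ g x f := by
  rw [eval₂_eq, eval₂_eq, Finset.mul_sum]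
  refine Finset.sum_congr rfl fun m hm => ?_
  simp only [mul_pow, Finset.prod_mul_distrib, Finset.prod_pow_eq_pow_sum]
  rw [← hf.degree_eq_sum_deg_support hm]
  ring

theorem zero {L : Type u} [Field L] [IsAlgClosed L] [CharZero L] (hSIGMA : S_SIGMA L)
    {K : Type u} [Field K] [Algebra L K] [FF L K] {δ : Derivation L K K} (hδ : δ ≠ 0) {N : ℕ}
    {ξ : Fin (N + 1) → K} {a₀ : Fin (N + 1)} (h0 : ξ a₀ ≠ 0) {r₀ : ℕ}
    (hdeg : (2 * r₀ * genus L K : ℤ) < degree L ξ) :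
    ∃ (c : Place L K → Fin (N + 1)) (a : ℕ) (s : K), 0 < a ∧ s ≠ 0 ∧ ∀ P : Place L K,
      ξ (c P) ≠ 0 ∧ (∀ j, P.v ((ξ (c P))⁻¹ * ξ j) ≤ 1) ∧
        P.v (s * (ξ (c P))⁻¹ ^ a * δ P.π ^ (r₀ * a)) ≤ 1 := by
  classical
  choose c _ hc using fun P : Place L K =>
    Finset.exists_mem_eq_sup Finset.univ Finset.univ_nonempty fun j => P.v (ξ j)
  have le : ∀ (P : Place L K) j, P.v (ξ j) ≤ P.v (ξ (c P)) := fun P j =>
    hc P ▸ Finset.le_sup (f := fun j => P.v (ξ j)) (Finset.mem_univ j)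
  have v0 : ∀ P : Place L K, P.v (ξ (c P)) ≠ 0 := fun P =>
    ((zero_lt_iff.2 (by simpa using h0)).trans_le (le P a₀)).ne'
  have c0 : ∀ P : Place L K, ξ (c P) ≠ 0 := fun P => by simpa using v0 P
  have fin : {P : Place L K | log (P.v (ξ (c P))) ≠ 0}.Finite := by
    refine (Set.finite_iUnion fun j : {j // ξ j ≠ 0} => finite_supp (L := L) j.2).subset
      fun P hP => Set.mem_iUnion.2 ⟨⟨c P, c0 P⟩, fun h => hP ?_⟩
    rw [h, log_one]
  obtain ⟨Z, hZ⟩ : ∃ Z, Z = fin.toFinset ∪ (finite_κ' hδ).toFinset := ⟨_, rfl⟩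
  have e1 : degree L ξ = ∑ P ∈ Z, log (P.v (ξ (c P))) := by
    rw [degree]
    simp only [hc]
    exact finsum_eq_sum_of_support_subset _ fun P hP => by simp [hZ, Function.mem_support.1 hP]
  have e2 := deg_can_le hδ Z (by simp +contextual [hZ])
  obtain ⟨a, s, a0, s0, hs⟩ := hSIGMA K (fun P => log (P.v (ξ (c P))) - r₀ * P.κ δ) Z
    (fun P hP => by
      by_contra h
      simp only [hZ, Finset.mem_union, Set.Finite.mem_toFinset, Set.mem_ofPred_eq, not_or,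
        not_not] at h
      exact hP (by rw [h.1, h.2, mul_zero, sub_zero]))
    (by
      rw [Finset.sum_sub_distrib, ← Finset.mul_sum, ← e1]
      nlinarith [Int.natCast_nonneg r₀])
  refine ⟨c, a, s, a0, s0, fun P => ⟨c0 P, fun j => ?_, ?_⟩⟩
  · rw [map_mul, map_inv₀, inv_mul_le_iff₀ (zero_lt_iff.2 (v0 P)), mul_one]
    exact le P j
  · have e3 : P.v (δ P.π) = exp (P.κ δ) := (exp_log (by simpa using P.der_π_ne hδ)).symm
    rw [map_mul, map_mul, map_pow, map_pow, map_inv₀, e3, ← exp_log (v0 P), ← exp_neg,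
      ← exp_nsmul, ← exp_nsmul]
    refine (mul_le_mul_left (mul_le_mul_left (hs P) _) _).trans ?_
    rw [← exp_add, ← exp_add, ← exp_zero, exp_le_exp]
    simp only [nsmul_eq_mul]
    push_cast
    linarith

theorem const_mem (p : ℕ) [Fact p.Prime] {K : Type} [Field K] [Algebra (kk p) K]
    (V : ValuationSubring K) (a : kk p) : algebraMap (kk p) K a ∈ V := by
  have h1 : IsIntegral ℤ a :=
    isIntegral_trans (A := ZMod p) a (Algebra.IsIntegral.isIntegral a)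
  have h2 : IsIntegral V (algebraMap (kk p) K a) :=
    (h1.map (algebraMap (kk p) K).toIntAlgHom).tower_top
  obtain ⟨y, hy⟩ := IsIntegrallyClosed.isIntegral_iff.1 h2
  exact hy ▸ y.2

theorem num {K : Type} [Field K] {l Δ : K} (hl : l ≠ 0) {D A o e E : ℕ} (r : ℕ)
    (h : E + A * D * o = e + o) :
    ((l ^ D * Δ) ^ A / l) ^ o / (l ^ e * Δ ^ r) * l ^ E = Δ ^ (A * o) / Δ ^ r := by
  have : l ^ E * l ^ (A * D * o) = l ^ e * l ^ o := by rw [← pow_add, h, pow_add]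
  rw [div_pow, mul_pow, mul_pow, ← pow_mul, ← pow_mul, ← pow_mul, ← mul_assoc, mul_comm D A,
    ← div_div, div_mul_eq_mul_div]
  congr 1
  field_simp
  linear_combination Δ ^ (A * o) * this

theorem contra (hALG : S_ALG) {k K : Type} [Field k] [Field K] [Algebra k K] {ι : Type}
    {x : ι → K} {t s ψ : K} {a₀ b₀ : ι} {a r₀ E j : ℕ} (ht : Transcendental k t) (s0 : s ≠ 0)
    (ψ0 : ψ ≠ 0) (x0 : x a₀ ≠ 0) (hb : x b₀ = t * x a₀) (a0 : 0 < a) (hj : j < r₀ * E)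
    (h : ∀ V : ValuationSubring K, ∃ l d : K, (∀ i, l * x i ∈ V) ∧ s * l ^ a * d ^ (r₀ * a) ∈ V ∧
      ∃ v ∈ V, ψ = l ^ E * (d ^ j * v)) : False := by
  obtain ⟨F, hF⟩ := Nat.exists_eq_add_of_lt hj
  obtain ⟨G, hG⟩ : ∃ G, a * (F + 1) = G + 1 := ⟨a * (F + 1) - 1, by
    have : 0 < a * (F + 1) := Nat.mul_pos a0 F.succ_pos
    omega⟩
  refine ht (hALG k K (ψ ^ (r₀ * a) * s ^ j * x a₀ ^ (G + 1)) t
    (mul_ne_zero (mul_ne_zero (pow_ne_zero _ ψ0) (pow_ne_zero _ s0)) (pow_ne_zero _ x0))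
    fun V => ?_)
  obtain ⟨l, d, h1, h2, v, hv, rfl⟩ := h V
  have e : (l ^ E) ^ (r₀ * a) = l ^ (a * j) * l ^ (G + 1) := by
    rw [← pow_mul, ← pow_add, ← hG, ← mul_add, ← add_assoc, ← hF]
    ring
  have e1 : (l ^ E * (d ^ j * v)) ^ (r₀ * a) * s ^ j * x a₀ ^ (G + 1) =
      (s * l ^ a * d ^ (r₀ * a)) ^ j * v ^ (r₀ * a) * (l * x a₀) ^ G * (l * x a₀) := by
    rw [mul_pow, e]
    ring
  have m := mul_mem (mul_mem (pow_mem h2 j) (pow_mem hv (r₀ * a))) (pow_mem (h1 a₀) G)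
  rw [e1, mul_left_comm t, mul_left_comm t, ← hb]
  exact ⟨mul_mem m (h1 a₀), mul_mem m (h1 b₀)⟩

theorem main (hTCH : S_TCH) (hEXZ : S_EXZ) (hNRM : S_NRM) (hLOCAL : S_LOCAL) (hALG : S_ALG)
    {p : ℕ} [Fact p.Prime] {k K K₂ : Type} [Field k] [CharP k p] [Field K] [Field K₂]
    [Algebra k K] [Algebra K K₂] [Algebra k K₂] [IsScalarTower k K K₂]
    (M : Mod (WittVector p k)) {n r₀ a : ℕ} {x : Fin (M.N + 1) → K} {t s : K} {T : K₂}
    {a₀ b₀ : Fin (M.N + 1)} (hk : ∀ (V : ValuationSubring K) c, algebraMap k K c ∈ V)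
    (ht : Transcendental k t) (s0 : s ≠ 0) (T0 : T ≠ 0) (x0 : x a₀ ≠ 0) (hb : x b₀ = t * x a₀)
    (a0 : 0 < a) (hΔ : aeval x (MvPolynomial.map WittVector.constantCoeff M.Del) ≠ 0)
    {φ : Fin (M.N + 1) → WittVector p (MvPolynomial (Vr n) K₂)}
    (h0 : ∀ i, (φ i).coeff 0 = C (algebraMap K K₂ (x i)))
    (h1 : ∀ i, eval₂ (WittVector.map (algebraMap k _)) φ (M.eqn i) = 0)
    (h2 : ∀ V : ValuationSubring K, ∃ (c : Fin (M.N + 1)) (l d : K), l * x c = 1 ∧
      (∀ i, l * x i ∈ V) ∧ s * l ^ a * d ^ (r₀ * a) ∈ V ∧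
      ∃ Φ : Filt (MvPolynomial (Vr n) K₂), (∀ y ∈ V, C (algebraMap K K₂ y) ∈ Φ.F 0) ∧
        Lead p Φ (V.toSubring.map (algebraMap K K₂)) (algebraMap K K₂ d) ∧
        ∀ i, Φ.Int p n (teichmuller p (C (algebraMap K K₂ l)) * φ i))
    {m e r o : ℕ} {S P} (hS : M.Sec n m e r S) (hN : M.Nrm S P)
    (hm : m + 1 + r₀ * (2 * (n + 1) * M.dDel) * o ≤ r₀ * e) :
    Polynomial.X ^ o ∣ PJ.evT p k (fun i => teichmuller p (C T) * φ (M.e i)) P := by
  obtain ⟨φ', hφ⟩ : ∃ φ', φ' = fun i => teichmuller p (C T) * φ i := ⟨_, rfl⟩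
  obtain ⟨Ξ, hΞ⟩ : ∃ Ξ, Ξ = fun i => T * algebraMap K K₂ (x i) := ⟨_, rfl⟩
  have g0 : ∀ i, (φ' i).coeff 0 = algebraMap K₂ (MvPolynomial (Vr n) K₂) (Ξ i) := fun i => by
    simp only [hφ, hΞ]
    rw [hTCH, h0, pow_zero, pow_one, ← C_mul]
    rfl
  have g1 : ∀ i, eval₂ (WittVector.map (algebraMap k _)) φ' (M.eqn i) = 0 := fun i => by
    rw [hφ, scale _ _ _ (f := M.eqn i) (M.f_hom i).rename_isHomogeneous, h1, mul_zero]
  have g2 : ∀ {f : MvPolynomial (Fin (M.N + 1)) (WittVector p k)} {d}, f.IsHomogeneous d →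
      aeval Ξ (MvPolynomial.map WittVector.constantCoeff f) =
        T ^ d * algebraMap K K₂ (aeval x (MvPolynomial.map WittVector.constantCoeff f)) := fun hf => by
    rw [hΞ, aeval_def, scale _ _ _ (hf.map _), ← aeval_def, ← aeval_algebraMap_apply]
    rfl
  obtain ⟨Δ, eΔ⟩ : ∃ Δ, Δ = aeval Ξ (MvPolynomial.map WittVector.constantCoeff M.Del) := ⟨_, rfl⟩
  have Δ0 : Δ ≠ 0 := by
    rw [eΔ, g2 M.Del_hom]
    exact mul_ne_zero (pow_ne_zero _ T0) ((map_ne_zero _).2 hΔ)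
  have un : IsUnit (M.ev0 φ' M.Del) := by
    rw [Mod.ev0]
    simp only [g0]
    have := aeval_algebraMap_apply (MvPolynomial (Vr n) K₂) Ξ
      (MvPolynomial.map WittVector.constantCoeff M.Del)
    rw [← eΔ] at this
    exact this.symm ▸ Δ0.isUnit.map (algebraMap K₂ (MvPolynomial (Vr n) K₂))
  obtain ⟨z, hz⟩ := hEXZ p k M _ φ' g1 un
  have := hNRM p k M _ φ' z hz un S P o hN ?_
  · simpa only [hφ] using this
  have key : ∀ o' ≤ o, PowerSeries.X ^ o' ∣ Mod.ev (k := k) z S := by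
    intro o' ho
    induction o' with
    | zero => simp
    | succ o' ih =>
      have ih := ih (by omega)
      refine PowerSeries.X_pow_dvd_iff.2 fun i hi => ?_
      rcases (Nat.lt_succ_iff.1 hi).eq_or_lt with rfl | hi
      swap
      · exact PowerSeries.X_pow_dvd_iff.1 ih i hi
      by_contra hne
      obtain ⟨μ, hμ⟩ := ne_zero_iff.1 hne
      obtain ⟨h, eh⟩ : ∃ h, h = coeff μ (PowerSeries.coeff i (Mod.ev (k := k) z S)) := ⟨_, rfl⟩
      rw [← eh] at hμ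
      have l1 : r₀ * (2 * (n + 1) * M.dDel * i) ≤ r₀ * (2 * (n + 1) * M.dDel) * o := by
        rw [← mul_assoc]
        exact Nat.mul_le_mul_left _ (by omega)
      have l2 : 2 * (n + 1) * M.dDel * i ≤ e :=
        (Nat.lt_of_mul_lt_mul_left (a := r₀) (by omega)).le
      obtain ⟨E, hE⟩ : ∃ E, E + 2 * (n + 1) * M.dDel * i = e + i := 
        ⟨e + i - 2 * (n + 1) * M.dDel * i, by omega⟩
      have l3 : m < r₀ * E := by
        have := congrArg (r₀ * ·) hE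
        simp only [mul_add r₀] at this
        omega
      obtain ⟨j, hj⟩ : ∃ j, j = Finsupp.weight (Vr.w n p fun _ => 1)
        (MonomialOrder.lex.degree h) := ⟨_, rfl⟩
      have loc : ∀ V : ValuationSubring K, j ≤ m ∧ ∃ l d : K, (∀ i, l * x i ∈ V) ∧
          s * l ^ a * d ^ (r₀ * a) ∈ V ∧ ∃ v ∈ V,
            Δ ^ (2 * (n + 1) * i) / Δ ^ r * T ^ E * MonomialOrder.lex.leadingCoeff h =
              algebraMap K K₂ (l ^ E * (d ^ j * v)) := by
        intro V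
        obtain ⟨c, l, d, b1, b2, b3, Φ, b4, b5, b6⟩ := h2 V
        have l0 : algebraMap K K₂ l / T ≠ 0 :=
          div_ne_zero ((map_ne_zero _).2 (left_ne_zero_of_mul_eq_one b1)) T0
        have lx : ∀ i, algebraMap K K₂ l / T * Ξ i = algebraMap K K₂ (l * x i) := fun i => by
          simp only [hΞ]
          rw [map_mul, ← mul_assoc, div_mul_cancel₀ _ T0]
        choose jg hjg using fun g => Finite.exists_max fun j' : M.J g =>
          V.valuation (aeval x (MvPolynomial.map WittVector.constantCoeff (M.h g j')))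
        have q := hLOCAL p k M K₂ _ φ' z Ξ Δ (algebraMap K K₂ l / T)
          (V.toSubring.map (algebraMap K K₂)) Φ c jg n m e r i S g1 hz g0 eΔ Δ0
          (fun y => ⟨_, hk V y, (IsScalarTower.algebraMap_apply k K K₂ y).symm⟩)
          (by rintro _ ⟨y, hy, rfl⟩; exact b4 y hy) (by rw [lx, b1, map_one])
          (fun i => ⟨_, b2 i, (lx i).symm⟩)
          (fun i => by
            simp only [hφ]
            rw [← mul_assoc, ← map_mul, algebraMap_eq, ← C_mul, div_mul_cancel₀ _ T0]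
            exact b6 i)
          (fun g j' => by
            rw [g2 (M.h_hom g j'), g2 (M.h_hom g _), mul_div_mul_left _ _ (pow_ne_zero _ T0),
              ← map_div₀]
            refine ⟨_, (V.valuation_le_one_iff _).1 ?_, rfl⟩
            rw [map_div₀]
            exact div_le_one_of_le₀ (hjg g j') zero_le)
          hS ih μ
        rw [← eh, algebraMap_eq] at q
        have nm := num (Δ := Δ) l0 r hE
        obtain ⟨ψ, hψ⟩ : ∃ ψ, ψ = (((algebraMap K K₂ l / T) ^ M.dDel * Δ) ^ (2 * (n + 1)) /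
          (algebraMap K K₂ l / T)) ^ i / ((algebraMap K K₂ l / T) ^ e * Δ ^ r) := ⟨_, rfl⟩
        rw [← hψ] at q nm
        have ψ0 : C ψ ≠ (0 : MvPolynomial (Vr n) K₂) := C_ne_zero.2 (left_ne_zero_of_mul
          (nm ▸ div_ne_zero (pow_ne_zero _ Δ0) (pow_ne_zero _ Δ0)))
        obtain ⟨d1, _, ⟨v, hv, rfl⟩, d2⟩ := b5 m _ q (mul_ne_zero ψ0 hμ)
        rw [MonomialOrder.degree_mul ψ0 hμ, MonomialOrder.degree_C, zero_add, ← hj] at d1 d2
        rw [MonomialOrder.leadingCoeff_mul, MonomialOrder.leadingCoeff_C] at d2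
        refine ⟨d1, l, d, b2, b3, v, hv, ?_⟩
        rw [map_mul, map_mul, map_pow, map_pow, ← d2, ← nm, div_pow]
        field_simp
      obtain ⟨jm, l, d, -, -, v, -, e0⟩ := loc ⊤
      refine contra hALG (ψ := l ^ E * (d ^ j * v)) ht s0 (fun h => ?_) x0 hb a0
        (jm.trans_lt l3) fun V => ?_
      · rw [h, map_zero] at e0
        exact mul_ne_zero (mul_ne_zero (div_ne_zero (pow_ne_zero _ Δ0) (pow_ne_zero _ Δ0))
          (pow_ne_zero _ T0)) (MonomialOrder.leadingCoeff_ne_zero_iff.2 hμ) e0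
      · obtain ⟨-, l', d', b1, b2, v', hv, e1⟩ := loc V
        exact ⟨l', d', b1, b2, v', hv, (algebraMap K K₂).injective (e0.symm.trans e1)⟩
  exact key o le_rfl

theorem ev_prod {L : Type u} [Field L] {σ ι : Type} (s : Finset ι) (f : ι → MvPolynomial σ L) :
    ∀ᶠ ω in spF L, ω.red (∏ i ∈ s, f i) = ∏ i ∈ s, ω.red (f i) := by
  classical
  induction s using Finset.induction_on with
  | empty => exact .of_forall fun ω => by simpa using ω.red_map (1 : MvPolynomial σ ω.Λ)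
  | insert i s hi ih =>
    filter_upwards [ih, ev_red_mul (f i) (∏ i ∈ s, f i)] with ω h1 h2
    rw [Finset.prod_insert hi, Finset.prod_insert hi, h2, h1]

theorem ev_rename {L : Type u} [Field L] {σ τ : Type} (e : σ → τ) (f : MvPolynomial σ L) :
    ∀ᶠ ω in spF L, ω.red (rename e f) = rename e (ω.red f) := by
  filter_upwards [ev_lift f] with ω ⟨g, hg⟩
  rw [← hg, ← map_rename, ω.red_map, ω.red_map, map_rename]

theorem ev_model {L : Type u} [Field L] (M : Mod L) : ∀ᶠ ω in spF L,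
    (∀ a, ω.red (M.eqn a) = (M.red ω).eqn a) ∧ ω.red M.Del = (M.red ω).Del := by
  filter_upwards [eventually_all.2 fun a => ev_rename (fun o : Option M.ι => o.elim a M.e) (M.f a),
    eventually_all.2 fun a => ev_rename (fun o : Option M.ι => o.elim a M.e) (pderiv none (M.f a)),
    eventually_all.2 fun a => ev_red_pderiv none (M.f a),
    ev_red_mul (∏ a, M.der a) (∏ g, ∏ j, M.h g j), ev_prod Finset.univ M.der,
    ev_prod Finset.univ fun g => ∏ j, M.h g j,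
    eventually_all.2 fun g => ev_prod Finset.univ (M.h g)] with ω h1 h2 h3 h4 h5 h6 h7
  refine ⟨h1, ?_⟩
  rw [Mod.Del, h4, h5, h6]
  exact congrArg₂ (· * ·) (Finset.prod_congr rfl fun a _ => (h2 a).trans (by rw [h3]; rfl))
    (Finset.prod_congr rfl fun g _ => h7 g)

end Van

theorem pVAN (L : Type u) [Field L] [IsAlgClosed L] [CharZero L]
    (hTCH : S_TCH) (hEXZ : S_EXZ) (hNRM : S_NRM) (hLOCAL : S_LOCAL) (hHOMC : S_HOMC) (hJET : S_JET L) (hSIGMA : S_SIGMA L) (hALG : S_ALG) :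
    S_VAN L := by
  classical
  intro M n r₀ K _ _ _ t δ ξ hδ hE hD ⟨a₀, b₀, h0, hb⟩ hdeg
  obtain ⟨c, a, s, a0, s0, hc⟩ := Van.zero hSIGMA (δ := δ) (by rintro rfl; simp at hδ) h0 hdeg
  obtain ⟨Z, hZ⟩ := hJET K t δ hδ n M.N ξ M.eqn M.df (fun P => (ξ (c P))⁻¹)
    (fun P => insert (s * (ξ (c P))⁻¹ ^ a * δ P.π ^ (r₀ * a))
      (Finset.univ.image fun j => (ξ (c P))⁻¹ * ξ j))
    (fun a => (M.f_hom a).rename_isHomogeneous) hE (fun P => inv_ne_zero (hc P).1)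
    (fun P => (hc P).2.1) (fun P b hb => by
      rcases Finset.mem_insert.1 hb with rfl | hb
      · exact (hc P).2.2
      · obtain ⟨j, -, rfl⟩ := Finset.mem_image.1 hb
        exact (hc P).2.1 j)
  filter_upwards [hZ, ev_Bs ξ, ev_Bs fun j => (ξ j)⁻¹, ev_B s, ev_pi_ne s0, ev_pi_ne h0,
    ev_pi_ne hD, ev_pi_aeval ξ M.Del, ev_sp (Van.ev_model M),
    (eventually_all_finset Z).2 fun P _ => ev_B (δ P.π)] with χ h1 m1 m2 m3 n1 n2 n3 e1 e2 m4
  obtain ⟨φ, p0, p1, p2⟩ := h1 (RatFunc (KK χ.1.p))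
  refine ⟨fun i => WittVector.teichmuller χ.1.p (C RatFunc.X) * φ (M.e i), fun G hG => ?_,
    fun m e r o S P hS hN hm => ?_⟩
  · refine hHOMC _ (KK χ.1.p) (Vr n) M.ι _ G ?_
    rw [← hG]
    congr 2
    funext i
    rw [hTCH, p0, pow_zero, pow_one, C_mul]
  · refine Van.main hTCH hEXZ hNRM hLOCAL hALG (M.red χ.1) (x := fun j => χ.2.pi (ξ j))
      (t := tt χ.1.p) (s := χ.2.pi s) (a₀ := a₀) (b₀ := b₀) (Van.const_mem _)
      ((transcendental_algebraMap_iff (algebraMap (RatFunc (kk χ.1.p)) (KK χ.1.p)).injective).2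
        RatFunc.transcendental_X) n1 RatFunc.X_ne_zero n2 ?_ a0 ?_ p0
      (fun i => e2.1 i ▸ p1 i) (fun V => ?_) hS hN hm
    · simp only [hb]
      rw [← χ.2.pi_t]
      exact χ.2.ex_mul _ χ.2.t_mem (m1 _)
    · rw [← e2.2]
      exact e1 ▸ n3
    · obtain ⟨P, hP, q1, Φ, q2, q3, q4⟩ := p2 V
      refine ⟨c P, _, _, ?_, fun i => ?_, ?_, Φ, q2, q3, q4⟩
      · rw [← χ.2.ex_mul _ (m2 _) (m1 _), inv_mul_cancel₀ (hc P).1, χ.2.ex_one]
      · exact χ.2.ex_mul χ.2.π (m2 (c P)) (m1 i) ▸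
          q1 _ (Finset.mem_insert_of_mem (Finset.mem_image_of_mem _ (Finset.mem_univ i)))
      · rw [← χ.2.ex_pow _ (m2 _), ← χ.2.ex_pow _ (m4 P hP), ← χ.2.ex_mul _ m3 (pow_mem (m2 _) _),
          ← χ.2.ex_mul _ (mul_mem m3 (pow_mem (m2 _) _)) (pow_mem (m4 P hP) _)]
        exact q1 _ (Finset.mem_insert_self _ _)

end Pool.Agent.P.MP_6f117a_ag.Sp
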