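import Pool.Agent.P.MP_6f117a_ag.C.Iface

/-! Step WR on specialisations of curves. -/

namespace Pool.Agent.P.MP_6f117a_ag.Sp

open MvPolynomial Filter
open scoped Polynomial WithZero

universe u

namespace WrA

theorem key {L K ι : Type*} [Field L] [Field K] [Algebra L K] [Fintype ι]
    (δ : Derivation L K K) (hδ : ∀ x, δ x = 0 → ∃ c, algebraMap L K c = x) (m : ι → K)
    (hm : LinearIndependent L m) (n : ℕ) : ∀ s : Finset ι, s.card = n → ∀ v : ι → K,
      (∀ j ∉ s, v j = 0) → (∀ i < n, ∑ j, δ^[i] (m j) * v j = 0) → v = 0 := by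
  classical
  induction n with
  | zero =>
    intro s hs v hv _
    rw [Finset.card_eq_zero] at hs
    exact funext fun j => hv j (by simp [hs])
  | succ n ih =>
    intro s hs v hv he
    by_contra h0
    obtain ⟨j0, hj0⟩ := Function.ne_iff.1 h0
    have hj0' : v j0 ≠ 0 := hj0
    have hs0 : j0 ∈ s := by
      by_contra h
      exact hj0' (hv j0 h)
    have he' : ∀ i < n + 1, ∑ j, δ^[i] (m j) * (v j * (v j0)⁻¹) = 0 := fun i hi => by
      simp only [← mul_assoc]
      rw [← Finset.sum_mul, he i hi, zero_mul]
    have hu := ih (s.erase j0) (by rw [Finset.card_erase_of_mem hs0, hs]; rfl)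
      (fun j => δ (v j * (v j0)⁻¹)) (fun j hj => by
        by_cases h : j = j0
        · subst h
          rw [mul_inv_cancel₀ hj0', δ.map_one_eq_zero]
        · rw [hv j (fun h' => hj (Finset.mem_erase.2 ⟨h, h'⟩)), zero_mul, map_zero])
      (fun i hi => by
        have h1 := congrArg δ (he' i (by omega))
        rw [map_sum, map_zero] at h1
        have h2 := he' (i + 1) (by omega)
        rw [← h1, ← sub_eq_zero, ← neg_eq_zero, ← h2, neg_sub, ← Finset.sum_sub_distrib]
        refine Finset.sum_congr rfl fun j _ => ?_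
        rw [δ.leibniz (δ^[i] (m j)), Function.iterate_succ_apply', smul_eq_mul, smul_eq_mul]
        ring)
    choose c hc using fun j => hδ _ (congrFun hu j)
    have h3 := he' 0 (by omega)
    have h4 := Fintype.linearIndependent_iff.1 hm c (by
      rw [← h3]
      refine Finset.sum_congr rfl fun j _ => ?_
      rw [Algebra.smul_def, hc, Function.iterate_zero_apply, mul_comm]) j0
    have h5 := hc j0
    rw [h4, map_zero, mul_inv_cancel₀ hj0'] at h5
    exact zero_ne_one h5

end WrA

theorem pWR (L : Type u) [Field L] [IsAlgClosed L] [CharZero L] :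
    S_WR L := by
  intro K _ _ δ hδ n m hm hdet
  obtain ⟨v, hv, he⟩ := Matrix.exists_mulVec_eq_zero_iff.2 hdet
  refine hv (WrA.key δ hδ m hm n Finset.univ (by simp) v (fun j hj => absurd (Finset.mem_univ j) hj)
    fun i hi => ?_)
  exact congrFun he ⟨i, hi⟩

end Pool.Agent.P.MP_6f117a_ag.Sp
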