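import Pool.Agent.P.MP_6f117a_ag.C.Alg
import Pool.Agent.P.MP_6f117a_ag.C.Chart
import Pool.Agent.P.MP_6f117a_ag.C.Chart0
import Pool.Agent.P.MP_6f117a_ag.C.Core
import Pool.Agent.P.MP_6f117a_ag.C.Der
import Pool.Agent.P.MP_6f117a_ag.C.Exz
import Pool.Agent.P.MP_6f117a_ag.C.Fix
import Pool.Agent.P.MP_6f117a_ag.C.Gen
import Pool.Agent.P.MP_6f117a_ag.C.Gg
import Pool.Agent.P.MP_6f117a_ag.C.Hens
import Pool.Agent.P.MP_6f117a_ag.C.Homc
import Pool.Agent.P.MP_6f117a_ag.C.Invw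
import Pool.Agent.P.MP_6f117a_ag.C.Jet
import Pool.Agent.P.MP_6f117a_ag.C.Lead
import Pool.Agent.P.MP_6f117a_ag.C.Local
import Pool.Agent.P.MP_6f117a_ag.C.Locl
import Pool.Agent.P.MP_6f117a_ag.C.Multi
import Pool.Agent.P.MP_6f117a_ag.C.Nrm
import Pool.Agent.P.MP_6f117a_ag.C.Null
import Pool.Agent.P.MP_6f117a_ag.C.Pres
import Pool.Agent.P.MP_6f117a_ag.C.Rec
import Pool.Agent.P.MP_6f117a_ag.C.Rel
import Pool.Agent.P.MP_6f117a_ag.C.Sigma
import Pool.Agent.P.MP_6f117a_ag.C.Spec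
import Pool.Agent.P.MP_6f117a_ag.C.Tay
import Pool.Agent.P.MP_6f117a_ag.C.Tch
import Pool.Agent.P.MP_6f117a_ag.C.Theta
import Pool.Agent.P.MP_6f117a_ag.C.Toug
import Pool.Agent.P.MP_6f117a_ag.C.Van
import Pool.Agent.P.MP_6f117a_ag.C.Wr

/-! The statements on specialisations of curves, without hypotheses. -/

namespace Pool.Agent.P.MP_6f117a_ag.Sp

open MvPolynomial

universe u

theorem gg : S_GG := pGG pTCH

theorem rec' : S_REC := pREC gg pTAY

theorem gen : S_GEN := pGEN gg pTAY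

theorem invw : S_INVW := pINVW gg

theorem exz : S_EXZ := pEXZ pTCH gg pHENS rec'

variable (L : Type u) [Field L] [IsAlgClosed L] [CharZero L]

theorem theta : S_THETA L := pTHETA L pDER pLOCL (pPRES L)

theorem multi : S_MULTI L := pMULTI L (theta L) (pREL L (pWR L))

theorem van : S_VAN L :=
  pVAN L pTCH exz pNRM (pLOCAL pTCH gg pFIX (pTOUG gg pTAY rec' invw)) pHOMC
    (pJET L pTCH gg pTAY rec' gen pLEAD (pCHART0 L) (pCHART L) (pCOVER L)) (pSIGMA L) pALG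

variable {L}

/-- Sections on jet spaces in large characteristic bound the degree of curves by their genus. -/
theorem core (M : Mod L) [Nonempty M.ι] {n q c : ℕ} (h : M.HS n q c) :
    ∃ (a : ℕ) (G : MvPolynomial M.ι L), G ≠ 0 ∧ (∃ b, G.IsHomogeneous b) ∧
      ∀ (K : Type u) [Field K] [Algebra L K] [FF L K] (ξ : Fin (M.N + 1) → K),
        (∀ a, aeval ξ (M.eqn a) = 0) → aeval ξ M.Del ≠ 0 → aeval (fun i => ξ (M.e i)) G ≠ 0 →
          degree L ξ ≤ a * genus L K :=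
  pCORE L (pSPEC L) (multi L) (van L) M h

end Pool.Agent.P.MP_6f117a_ag.Sp
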