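import Pool.Agent.P.MP_6f117a_ag.Height

/-! Specialisations from characteristic zero to Witt vectors in characteristic `p`. -/

namespace Pool.Agent.P.MP_6f117a_ag.Sp

open MvPolynomial Filter

universe u

/-- The algebraic closure of the prime field. -/
abbrev kk (p : ℕ) [Fact p.Prime] : Type := AlgebraicClosure (ZMod p)

/-- The separable closure of the rational function field over `kk p`. -/
abbrev KK (p : ℕ) [Fact p.Prime] : Type := SeparableClosure (RatFunc (kk p))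

/-- The variable of the rational function field. -/
noncomputable def tt (p : ℕ) [Fact p.Prime] : KK p := algebraMap (RatFunc (kk p)) (KK p) RatFunc.X

/-- A specialisation of a subring of `L` to Witt vectors over `kk p`. -/
structure Spec (L : Type u) [Field L] where
  p : ℕ
  [pr : Fact p.Prime]
  Λ : Subring L
  ρ : Λ →+* WittVector p (kk p)

attribute [instance] Spec.pr

/-- Large primes and large subrings. -/
def spF (L : Type u) [Field L] : Filter (Spec L) where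
  sets := {U | ∃ (N : ℕ) (S : Finset L), ∀ ω : Spec L, N ≤ ω.p → (∀ a ∈ S, a ∈ ω.Λ) → ω ∈ U}
  univ_sets := ⟨0, ∅, fun _ _ _ => trivial⟩
  sets_of_superset := fun ⟨N, S, h⟩ h' => ⟨N, S, fun ω h1 h2 => h' (h ω h1 h2)⟩
  inter_sets := fun ⟨N, S, h⟩ ⟨N', S', h'⟩ => by
    classical
    exact ⟨max N N', S ∪ S', fun ω h1 h2 =>
      ⟨h ω (le_of_max_le_left h1) fun a ha => h2 a (Finset.mem_union_left _ ha),
        h' ω (le_of_max_le_right h1) fun a ha => h2 a (Finset.mem_union_right _ ha)⟩⟩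

variable {L : Type u} [Field L] {σ τ : Type}

namespace Spec

variable (ω : Spec L)

open Classical in
/-- The specialisation map, extended by zero. -/
noncomputable def r (a : L) : WittVector ω.p (kk ω.p) := if h : a ∈ ω.Λ then ω.ρ ⟨a, h⟩ else 0

/-- The specialisation map to the residue field. -/
noncomputable def r0 (a : L) : kk ω.p := (ω.r a).coeff 0

/-- Specialisation of the coefficients of a polynomial. -/
noncomputable def red (f : MvPolynomial σ L) : MvPolynomial σ (WittVector ω.p (kk ω.p)) :=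
  ∑ m ∈ f.support, monomial m (ω.r (coeff m f))

/-- Specialisation of the coefficients of a polynomial to the residue field. -/
noncomputable def red0 (f : MvPolynomial σ L) : MvPolynomial σ (kk ω.p) :=
  MvPolynomial.map WittVector.constantCoeff (ω.red f)

/-- The specialisation map to the residue field as a ring map. -/
noncomputable def ρ0 : ω.Λ →+* kk ω.p := WittVector.constantCoeff.comp ω.ρ

@[simp] theorem r_coe (a : ω.Λ) : ω.r a = ω.ρ a := dif_pos a.2

@[simp] theorem r0_coe (a : ω.Λ) : ω.r0 a = ω.ρ0 a := congrArg (·.coeff 0) (ω.r_coe a)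

@[simp] theorem r_zero : ω.r 0 = 0 := (ω.r_coe 0).trans (map_zero _)

@[simp] theorem r_one : ω.r 1 = 1 := (ω.r_coe 1).trans (map_one _)

@[simp] theorem r0_zero : ω.r0 0 = 0 := (ω.r0_coe 0).trans (map_zero _)

@[simp] theorem r0_one : ω.r0 1 = 1 := (ω.r0_coe 1).trans (map_one _)

theorem coeff_red (f : MvPolynomial σ L) (m : σ →₀ ℕ) : coeff m (ω.red f) = ω.r (coeff m f) := by
  classical
  rw [red, coeff_sum, Finset.sum_eq_single m (fun _ _ h => by rw [coeff_monomial, if_neg h])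
    fun h => by simp [notMem_support_iff.1 h], coeff_monomial, if_pos rfl]

theorem coeff_red0 (f : MvPolynomial σ L) (m : σ →₀ ℕ) :
    coeff m (ω.red0 f) = ω.r0 (coeff m f) := by
  rw [red0, coeff_map, coeff_red]; rfl

@[simp] theorem red_map (g : MvPolynomial σ ω.Λ) :
    ω.red (MvPolynomial.map ω.Λ.subtype g) = MvPolynomial.map ω.ρ g := by
  ext m : 1; simp [coeff_red, coeff_map]

@[simp] theorem red0_map (g : MvPolynomial σ ω.Λ) :
    ω.red0 (MvPolynomial.map ω.Λ.subtype g) = MvPolynomial.map ω.ρ0 g := by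
  ext m : 1; simp [coeff_red0, coeff_map]

theorem support_red (f : MvPolynomial σ L) : (ω.red f).support ⊆ f.support := fun m hm =>
  mem_support_iff.2 fun h => mem_support_iff.1 hm (by rw [coeff_red, h, r_zero])

theorem support_red0 (f : MvPolynomial σ L) : (ω.red0 f).support ⊆ f.support := fun m hm =>
  mem_support_iff.2 fun h => mem_support_iff.1 hm (by rw [coeff_red0, h, r0_zero])

theorem hom_red {f : MvPolynomial σ L} {n : ℕ} (h : f.IsHomogeneous n) :
    (ω.red f).IsHomogeneous n := fun _ hm =>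
  h (mem_support_iff.1 (ω.support_red f (mem_support_iff.2 hm)))

theorem hom_red0 {f : MvPolynomial σ L} {n : ℕ} (h : f.IsHomogeneous n) :
    (ω.red0 f).IsHomogeneous n := (ω.hom_red h).map _

theorem totalDegree_red0 (f : MvPolynomial σ L) : (ω.red0 f).totalDegree ≤ f.totalDegree :=
  Finset.sup_mono (ω.support_red0 f)

end Spec

theorem ev_p (N : ℕ) : ∀ᶠ ω in spF L, N ≤ ω.p := ⟨N, ∅, fun _ h _ => h⟩

theorem ev_mem (a : L) : ∀ᶠ ω in spF L, a ∈ ω.Λ :=
  ⟨0, {a}, fun _ _ h => h a (Finset.mem_singleton_self a)⟩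

theorem ev_lift (f : MvPolynomial σ L) :
    ∀ᶠ ω in spF L, ∃ g : MvPolynomial σ ω.Λ, MvPolynomial.map ω.Λ.subtype g = f :=
  ⟨0, f.coeffs, fun _ _ h => mem_range_map_iff_coeffs_subset.2 fun a ha => ⟨⟨a, h a ha⟩, rfl⟩⟩

theorem ev_lifts [Finite τ] (f : τ → MvPolynomial σ L) : ∀ᶠ ω in spF L,
    ∃ g : τ → MvPolynomial σ ω.Λ, ∀ i, MvPolynomial.map ω.Λ.subtype (g i) = f i :=
  (eventually_all.2 fun i => ev_lift (f i)).mono fun _ h => Classical.skolem.1 h

theorem ev_r_add (a b : L) : ∀ᶠ ω in spF L, ω.r (a + b) = ω.r a + ω.r b := by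
  filter_upwards [ev_mem a, ev_mem b] with ω ha hb
  lift a to ω.Λ using ha
  lift b to ω.Λ using hb
  rw [← Subring.coe_add, ω.r_coe, ω.r_coe, ω.r_coe, map_add]

theorem ev_r_mul (a b : L) : ∀ᶠ ω in spF L, ω.r (a * b) = ω.r a * ω.r b := by
  filter_upwards [ev_mem a, ev_mem b] with ω ha hb
  lift a to ω.Λ using ha
  lift b to ω.Λ using hb
  rw [← Subring.coe_mul, ω.r_coe, ω.r_coe, ω.r_coe, map_mul]

theorem ev_r0_ne {a : L} (h : a ≠ 0) : ∀ᶠ ω in spF L, ω.r0 a ≠ 0 := by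
  filter_upwards [ev_r_mul a a⁻¹] with ω h1 h2
  rw [mul_inv_cancel₀ h, ω.r_one] at h1
  have := congrArg (·.coeff 0) h1
  simp only [WittVector.mul_coeff_zero, WittVector.one_coeff_zero] at this
  exact one_ne_zero (this.trans (mul_eq_zero_of_left h2 _))

theorem ev_red_add (f g : MvPolynomial σ L) : ∀ᶠ ω in spF L, ω.red (f + g) = ω.red f + ω.red g := by
  filter_upwards [ev_lift f, ev_lift g] with ω ⟨f, hf⟩ ⟨g, hg⟩
  rw [← hf, ← hg, ← map_add, ω.red_map, ω.red_map, ω.red_map, map_add]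

theorem ev_red_mul (f g : MvPolynomial σ L) : ∀ᶠ ω in spF L, ω.red (f * g) = ω.red f * ω.red g := by
  filter_upwards [ev_lift f, ev_lift g] with ω ⟨f, hf⟩ ⟨g, hg⟩
  rw [← hf, ← hg, ← map_mul, ω.red_map, ω.red_map, ω.red_map, map_mul]

theorem ev_red_pderiv (i : σ) (f : MvPolynomial σ L) :
    ∀ᶠ ω in spF L, ω.red (pderiv i f) = pderiv i (ω.red f) := by
  filter_upwards [ev_lift f] with ω ⟨f, hf⟩
  rw [← hf, pderiv_map, ω.red_map, ω.red_map, pderiv_map]

theorem ev_red_bind (g : σ → MvPolynomial τ L) (f : MvPolynomial σ L) :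
    ∀ᶠ ω in spF L, ω.red (aeval g f) = aeval (fun i => ω.red (g i)) (ω.red f) := by
  induction f using MvPolynomial.induction_on with
  | C c =>
    filter_upwards [ev_mem c] with ω hc
    lift c to ω.Λ using hc
    have e : ∀ σ : Type, ω.red (C (c : L) : MvPolynomial σ L) = C (ω.ρ c) := fun σ => by
      simpa using ω.red_map (C c : MvPolynomial σ ω.Λ)
    simp [e]
  | add f f' hf hf' =>
    filter_upwards [hf, hf', ev_red_add f f', ev_red_add (aeval g f) (aeval g f')] with ω a b c d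
    rw [map_add, c, d, a, b, map_add]
  | mul_X f i hf =>
    filter_upwards [hf, ev_red_mul f (X i), ev_red_mul (aeval g f) (g i)] with ω a c d
    have e : ω.red (X i : MvPolynomial σ L) = X i := by simpa using ω.red_map (X i)
    rw [map_mul, aeval_X, c, d, a, map_mul, e, aeval_X]

theorem ev_support_red0 (f : MvPolynomial σ L) : ∀ᶠ ω in spF L, (ω.red0 f).support = f.support := by
  filter_upwards [(eventually_all_finset f.support).2 fun m hm =>
    ev_r0_ne (mem_support_iff.1 hm)] with ω h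
  exact (ω.support_red0 f).antisymm fun m hm =>
    mem_support_iff.2 (by rw [ω.coeff_red0]; exact h m hm)

/-! ### Specialisations of a function field -/

variable {K : Type u} [Field K] [Algebra L K]

/-- A specialisation of a subring of the function field `K`, sending `t` to the variable and `δ`
to the derivative, whose points lift to Witt vectors with a prescribed value at `t`. -/
structure Sq (t : K) (δ : Derivation L K K) (ω : Spec L) where
  B : Subring K
  π : B →+* KK ω.p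
  d : Derivation (kk ω.p) (KK ω.p) (KK ω.p)
  mem : ∀ a : ω.Λ, algebraMap L K a ∈ B
  t_mem : t ∈ B
  der_mem : ∀ b ∈ B, δ b ∈ B
  π_const : ∀ a : ω.Λ, π ⟨_, mem a⟩ = algebraMap (kk ω.p) (KK ω.p) (ω.ρ0 a)
  π_t : π ⟨t, t_mem⟩ = tt ω.p
  π_der : ∀ b : B, π ⟨δ b, der_mem b b.2⟩ = d (π b)
  lift : ∀ (Ω : Type) [Field Ω] [IsAlgClosed Ω] [CharP Ω ω.p] (ι : KK ω.p →+* Ω)
    (x : WittVector ω.p Ω), x.coeff 0 = ι (tt ω.p) → ∃ θ : B →+* WittVector ω.p Ω,
      θ ⟨t, t_mem⟩ = x ∧ (∀ b, (θ b).coeff 0 = ι (π b)) ∧ ∀ a : ω.Λ, θ ⟨_, mem a⟩ =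
        WittVector.map (ι.comp (algebraMap (kk ω.p) (KK ω.p))) (ω.ρ a)

/-- Large specialisations of the function field. -/
def sqF (t : K) (δ : Derivation L K K) : Filter (Σ ω : Spec L, Sq t δ ω) where
  sets := {U | ∃ S : Finset K, ∀ᶠ ω in spF L, ∀ χ : Sq t δ ω, (∀ b ∈ S, b ∈ χ.B) → ⟨ω, χ⟩ ∈ U}
  univ_sets := ⟨∅, .of_forall fun _ _ _ => trivial⟩
  sets_of_superset := fun ⟨S, h⟩ h' => ⟨S, h.mono fun _ h1 χ h2 => h' (h1 χ h2)⟩
  inter_sets := fun ⟨S, h⟩ ⟨S', h'⟩ => by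
    classical
    exact ⟨S ∪ S', (h.and h').mono fun _ h1 χ h2 =>
      ⟨h1.1 χ fun a ha => h2 a (Finset.mem_union_left _ ha),
        h1.2 χ fun a ha => h2 a (Finset.mem_union_right _ ha)⟩⟩

variable {t : K} {δ : Derivation L K K}

namespace Sq

variable {ω : Spec L} (χ : Sq t δ ω)

open Classical in
/-- A ring map on the subring, extended by zero. -/
noncomputable def ex {A : Type} [CommRing A] (θ : χ.B →+* A) (b : K) : A :=
  if h : b ∈ χ.B then θ ⟨b, h⟩ else 0

/-- The specialisation map, extended by zero. -/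
noncomputable abbrev pi : K → KK ω.p := χ.ex χ.π

variable {A : Type} [CommRing A] (θ : χ.B →+* A)

@[simp] theorem ex_coe (b : χ.B) : χ.ex θ b = θ b := dif_pos b.2

theorem ex_of_mem {b : K} (h : b ∈ χ.B) : χ.ex θ b = θ ⟨b, h⟩ := dif_pos h

@[simp] theorem ex_zero : χ.ex θ 0 = 0 := (χ.ex_coe θ 0).trans (map_zero _)

@[simp] theorem ex_one : χ.ex θ 1 = 1 := (χ.ex_coe θ 1).trans (map_one _)

theorem ex_add {a b : K} (ha : a ∈ χ.B) (hb : b ∈ χ.B) : χ.ex θ (a + b) = χ.ex θ a + χ.ex θ b := by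
  rw [χ.ex_of_mem θ ha, χ.ex_of_mem θ hb, χ.ex_of_mem θ (add_mem ha hb), ← map_add]; rfl

theorem ex_sub {a b : K} (ha : a ∈ χ.B) (hb : b ∈ χ.B) : χ.ex θ (a - b) = χ.ex θ a - χ.ex θ b := by
  rw [χ.ex_of_mem θ ha, χ.ex_of_mem θ hb, χ.ex_of_mem θ (sub_mem ha hb), ← map_sub]; rfl

theorem ex_mul {a b : K} (ha : a ∈ χ.B) (hb : b ∈ χ.B) : χ.ex θ (a * b) = χ.ex θ a * χ.ex θ b := by
  rw [χ.ex_of_mem θ ha, χ.ex_of_mem θ hb, χ.ex_of_mem θ (mul_mem ha hb), ← map_mul]; rfl

theorem ex_pow {a : K} (ha : a ∈ χ.B) (n : ℕ) : χ.ex θ (a ^ n) = χ.ex θ a ^ n := by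
  rw [χ.ex_of_mem θ ha, χ.ex_of_mem θ (pow_mem ha n), ← map_pow]; rfl

theorem ex_sum {ι : Type*} (s : Finset ι) {a : ι → K} (ha : ∀ i ∈ s, a i ∈ χ.B) :
    χ.ex θ (∑ i ∈ s, a i) = ∑ i ∈ s, χ.ex θ (a i) := by
  classical
  induction s using Finset.induction_on with
  | empty => simp
  | insert i s hi ih =>
    have h : ∀ j ∈ s, a j ∈ χ.B := fun j hj => ha j (Finset.mem_insert_of_mem hj)
    rw [Finset.sum_insert hi, Finset.sum_insert hi,
      χ.ex_add θ (ha i (Finset.mem_insert_self _ _)) (sum_mem h), ih h]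

theorem pi_t : χ.pi t = tt ω.p := (χ.ex_of_mem _ χ.t_mem).trans χ.π_t

theorem pi_const {a : L} (ha : a ∈ ω.Λ) :
    χ.pi (algebraMap L K a) = algebraMap (kk ω.p) (KK ω.p) (ω.r0 a) := by
  lift a to ω.Λ using ha
  rw [ω.r0_coe]; exact (χ.ex_of_mem _ (χ.mem a)).trans (χ.π_const a)

theorem pi_der {b : K} (hb : b ∈ χ.B) : χ.pi (δ b) = χ.d (χ.pi b) := by
  lift b to χ.B using hb
  rw [pi, χ.ex_coe]; exact (χ.ex_of_mem _ (χ.der_mem b b.2)).trans (χ.π_der b)

/-- Polynomial expressions with coefficients in the subring of constants. -/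
theorem ex_aeval (φ : ω.Λ →+* A) (hφ : ∀ a : ω.Λ, θ ⟨_, χ.mem a⟩ = φ a) {z : σ → K}
    (hz : ∀ i, z i ∈ χ.B) (g : MvPolynomial σ ω.Λ) :
    aeval z (MvPolynomial.map ω.Λ.subtype g) ∈ χ.B ∧
      χ.ex θ (aeval z (MvPolynomial.map ω.Λ.subtype g)) = eval₂ φ (fun i => χ.ex θ (z i)) g := by
  induction g using MvPolynomial.induction_on with
  | C c =>
    rw [map_C, aeval_C, eval₂_C]
    exact ⟨χ.mem c, (χ.ex_of_mem θ (χ.mem c)).trans (hφ c)⟩
  | add f g hf hg =>
    rw [map_add, map_add, eval₂_add, χ.ex_add θ hf.1 hg.1, hf.2, hg.2]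
    exact ⟨add_mem hf.1 hg.1, rfl⟩
  | mul_X f i hf =>
    rw [map_mul, map_mul, map_X, aeval_X, eval₂_mul, eval₂_X, χ.ex_mul θ hf.1 (hz i), hf.2]
    exact ⟨mul_mem hf.1 (hz i), rfl⟩

end Sq

theorem ev_sp {P : Spec L → Prop} (h : ∀ᶠ ω in spF L, P ω) : ∀ᶠ χ in sqF t δ, P χ.1 :=
  ⟨∅, h.mono fun _ h _ _ => h⟩

theorem ev_B (b : K) : ∀ᶠ χ in sqF t δ, b ∈ χ.2.B :=
  ⟨{b}, .of_forall fun _ _ h => h b (Finset.mem_singleton_self b)⟩

theorem ev_Bs {ι : Type*} [Finite ι] (b : ι → K) : ∀ᶠ χ in sqF t δ, ∀ i, b i ∈ χ.2.B :=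
  eventually_all.2 fun i => ev_B (b i)

theorem ev_pi_ne {b : K} (h : b ≠ 0) : ∀ᶠ χ in sqF t δ, χ.2.pi b ≠ 0 := by
  filter_upwards [ev_B b, ev_B b⁻¹] with χ h1 h2 h3
  have := χ.2.ex_mul χ.2.π h1 h2
  rw [mul_inv_cancel₀ h, χ.2.ex_one] at this
  exact one_ne_zero (this.trans (mul_eq_zero_of_left h3 _))

theorem ev_pi_aeval [Finite σ] (z : σ → K) (f : MvPolynomial σ L) :
    ∀ᶠ χ in sqF t δ, χ.2.pi (aeval z f) = aeval (fun i => χ.2.pi (z i)) (χ.1.red0 f) := by
  filter_upwards [ev_Bs z, ev_sp (ev_lift f)] with χ hz ⟨g, hg⟩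
  rw [← hg, χ.1.red0_map, aeval_def (fun i => χ.2.pi (z i)), eval₂_map]
  exact (χ.2.ex_aeval χ.2.π _ χ.2.π_const hz g).2

/-- The same for every lift to Witt vectors. -/
theorem ev_ex_aeval [Finite σ] (z : σ → K) (f : MvPolynomial σ L) :
    ∀ᶠ χ in sqF t δ, ∀ (A : Type) [CommRing A] (θ : χ.2.B →+* A)
      (φ : WittVector χ.1.p (kk χ.1.p) →+* A), (∀ a : χ.1.Λ, θ ⟨_, χ.2.mem a⟩ = φ (χ.1.ρ a)) →
      χ.2.ex θ (aeval z f) = eval₂ φ (fun i => χ.2.ex θ (z i)) (χ.1.red f) := by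
  filter_upwards [ev_Bs z, ev_sp (ev_lift f)] with χ hz ⟨g, hg⟩ A _ θ φ h
  rw [← hg, χ.1.red_map, eval₂_map]
  exact (χ.2.ex_aeval θ (φ.comp χ.1.ρ) h hz g).2

/-! ### Charts -/

/-- Elements of the subring `O` of `K`, among them `s` and the `x j`, with relations whose
Jacobian matrix in the variables other than `s` is invertible over `O`. -/
structure Chart (L : Type u) [Field L] [Algebra L K] (O : Subring K) (s : K) (x : σ → K) where
  n : ℕ
  z : Option (Fin n) → K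
  idx : σ → Fin n
  R : Fin n → MvPolynomial (Option (Fin n)) L
  J : Fin n → Fin n → K
  z_none : z none = s
  z_idx : ∀ j, z (some (idx j)) = x j
  z_mem : ∀ i, z i ∈ O
  J_mem : ∀ i j, J i j ∈ O
  rel : ∀ i, aeval z (R i) = 0
  inv : ∀ l l', ∑ i, J l i * aeval z (pderiv (some l') (R i)) = if l = l' then 1 else 0

end Pool.Agent.P.MP_6f117a_ag.Sp
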