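import Pool.Agent.P.MP_6f117a_ag.C.Defs

/-! The statements on specialisations of curves. -/

namespace Pool.Agent.P.MP_6f117a_ag.Sp

open MvPolynomial Filter
open scoped Polynomial WithZero

universe u

/-- Specialisations exist. -/
def S_SPEC (L : Type u) [Field L] : Prop := (spF L).NeBot

/-- The derivative on the separable closure of the rational function field. -/
def S_DER : Prop := ∀ (p : ℕ) [Fact p.Prime], Transcendental (kk p) (tt p) ∧
  ∃ d : Derivation (kk p) (KK p) (KK p), d (tt p) = 1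

/-- Ring maps on a localised quotient inside a field. -/
def S_LOCL : Prop := ∀ (R K : Type u) [CommRing R] [Field K] (I : R →+* K) (Δ : R), I Δ ≠ 0 →
  ∃ (B : Subring K) (h : ∀ r, I r ∈ B), (I Δ)⁻¹ ∈ B ∧
    (∀ C : Subring K, (∀ r, I r ∈ C) → (I Δ)⁻¹ ∈ C → B ≤ C) ∧
    ∀ (W : Type) [CommRing W],
      (∀ θ θ' : B →+* W, (∀ r, θ ⟨I r, h r⟩ = θ' ⟨I r, h r⟩) → θ = θ') ∧
      ∀ Θ : R →+* W, (∀ r, I r = 0 → Θ r = 0) → IsUnit (Θ Δ) →
        ∃ θ : B →+* W, ∀ r, θ ⟨I r, h r⟩ = Θ r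

/-- A primitive element with a common denominator. -/
def S_PRES (L : Type u) [Field L] : Prop := ∀ (K : Type u) [Field K] [Algebra L K] [FF L K]
  (t : K), Transcendental L t → ∀ S : Finset K, ∃ (w : K) (P U V : L[X][X]) (Δ : L[X])
    (a : K → L[X][X]), P.Monic ∧ 0 < P.natDegree ∧ Δ.Monic ∧
      U * P + V * P.derivative = Polynomial.C Δ ∧
      (∀ f : L[X][X], f.eval₂ (Polynomial.aeval t : L[X] →ₐ[L] K).toRingHom w = 0 ↔ P ∣ f) ∧
      ∀ b ∈ S, Polynomial.aeval t Δ * b =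
        (a b).eval₂ (Polynomial.aeval t : L[X] →ₐ[L] K).toRingHom w

/-- Specialisations of a function field exist over every large specialisation of the base. -/
def S_THETA (L : Type u) [Field L] : Prop := ∀ (K : Type u) [Field K] [Algebra L K] [FF L K]
  (t : K) (δ : Derivation L K K), δ t = 1 → ∀ U ∈ sqF t δ,
    ∀ᶠ ω in spF L, ∃ χ : Sq t δ ω, ⟨ω, χ⟩ ∈ U

/-- The Wronskian criterion. -/
def S_WR (L : Type u) [Field L] : Prop := ∀ (K : Type u) [Field K] [Algebra L K]
  (δ : Derivation L K K), (∀ x, δ x = 0 → ∃ c, algebraMap L K c = x) →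
    ∀ (n : ℕ) (m : Fin n → K), LinearIndependent L m →
      (Matrix.of fun i j : Fin n => δ^[i] (m j)).det ≠ 0

/-- Specialisation creates no new linear relations. -/
def S_REL (L : Type u) [Field L] : Prop := ∀ (K : Type u) [Field K] [Algebra L K] [FF L K]
  (t : K) (δ : Derivation L K K), δ t = 1 → ∀ (α : Type) [Fintype α] (m : α → K)
    (l : K →ₗ[L] L), ∀ᶠ χ in sqF t δ, ∀ c : α → kk χ.1.p, ∑ a, c a • χ.2.pi (m a) = 0 →
      ∑ a, c a * χ.1.r0 (l (m a)) = 0

/-- A function field in one variable with a chosen parameter. -/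
structure Fn (L : Type u) [Field L] where
  K : Type u
  [fld : Field K]
  [alg : Algebra L K]
  [ff : FF L K]
  t : K
  δ : Derivation L K K
  dt : δ t = 1

attribute [instance] Fn.fld Fn.alg Fn.ff

/-- Simultaneous specialisation of finitely many function fields, keeping finitely many joint
linear independence properties. -/
def S_MULTI (L : Type u) [Field L] : Prop := ∀ (J α : Type) [Fintype J] [Fintype α] (c : J → Fn L)
  (m : ∀ j, α → (c j).K) (U : ∀ j, Set (Σ ω : Spec L, Sq (c j).t (c j).δ ω)),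
    (∀ j, U j ∈ sqF (c j).t (c j).δ) → ∀ᶠ ω in spF L, ∃ χ : ∀ j, Sq (c j).t (c j).δ ω,
      (∀ j, ⟨ω, χ j⟩ ∈ U j) ∧ ∀ T : Finset J,
        (∀ e : α → L, (∀ j ∈ T, ∑ a, e a • m j a = 0) → e = 0) →
          ∀ e : α → kk ω.p, (∀ j ∈ T, ∑ a, e a • (χ j).pi (m j a) = 0) → e = 0

/-- The generic chart. -/
def S_CHART0 (L : Type u) [Field L] : Prop := ∀ (K : Type u) [Field K] [Algebra L K] [FF L K]
  (s : K), Transcendental L s → ∀ (σ : Type) [Fintype σ] (x : σ → K),
    Nonempty (Chart L ⊤ s x)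

/-- The chart at a place. -/
def S_CHART (L : Type u) [Field L] : Prop := ∀ (K : Type u) [Field K] [Algebra L K] [FF L K]
  (P : Place L K) (σ : Type) [Fintype σ] (x : σ → K), (∀ j, P.v (x j) ≤ 1) →
    Nonempty (Chart L P.v.integer P.π x)

/-- Finitely many places catch every valuation ring after specialisation. -/
def S_COVER (L : Type u) [Field L] : Prop := ∀ (K : Type u) [Field K] [Algebra L K] [FF L K]
  (t : K) (δ : Derivation L K K), δ t = 1 → ∀ S : Place L K → Finset K,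
    (∀ P, ∀ b ∈ S P, P.v b ≤ 1) → ∃ Z : Finset (Place L K), ∀ᶠ χ in sqF t δ,
      ∀ V : ValuationSubring (KK χ.1.p), ∃ P ∈ Z, ∀ b ∈ S P, χ.2.pi b ∈ V

/-- A multiple of a divisor of positive degree has a section. -/
def S_SIGMA (L : Type u) [Field L] : Prop := ∀ (K : Type u) [Field K] [Algebra L K] [FF L K]
  (D : Place L K → ℤ) (Z : Finset (Place L K)), (∀ P, D P ≠ 0 → P ∈ Z) → 0 < ∑ P ∈ Z, D P →
    ∃ (a : ℕ) (s : K), 0 < a ∧ s ≠ 0 ∧ ∀ P : Place L K, P.v s ≤ WithZero.exp (a * D P)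

/-- An element of all valuation rings is algebraic over the prime field. -/
def S_ALG : Prop := ∀ (k K : Type) [Field k] [Field K] [Algebra k K] (w y : K), w ≠ 0 →
  (∀ V : ValuationSubring K, w ∈ V ∧ y * w ∈ V) → IsAlgebraic k y

/-- Systems of equations without solution stay so. -/
def S_NULL (L : Type u) [Field L] : Prop := ∀ (ι J : Type) [Finite ι] (e : J → MvPolynomial ι L),
  (∀ ξ : ι → L, ∃ j, eval ξ (e j) ≠ 0) → ∀ᶠ ω in spF L,
    ∀ (A : Type) [CommRing A] [Nontrivial A] [Algebra (kk ω.p) A] (ξ : ι → A),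
      ∃ j, aeval ξ (ω.red0 (e j)) ≠ 0

end Pool.Agent.P.MP_6f117a_ag.Sp
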