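import Pool.Agent.P.MP_6f117a_ag.C.VIface

/-! Step INVW on specialisations of curves. -/

namespace Pool.Agent.P.MP_6f117a_ag.Sp

open MvPolynomial Filter
open scoped Polynomial WithZero

universe u

namespace InvwAux

open WittVector

theorem pow_coeff {p : ℕ} [Fact p.Prime] {A : Type} [CommRing A] [CharP A p]
    {N : WittVector p A} (h : N.coeff 0 = 0) (n : ℕ) : ∀ i < n, (N ^ n).coeff i = 0 := by
  induction n with
  | zero => intro i hi; omega
  | succ n ih =>
    intro i hi
    have h1 : ∀ i < 1, N.coeff i = 0 := fun i hi => by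
      obtain rfl : i = 0 := by omega
      exact h
    rw [pow_succ, eq_iterate_verschiebung ih, eq_iterate_verschiebung h1,
      iterate_verschiebung_mul]
    exact iterate_verschiebung_coeff_eq_zero _ hi

theorem teich_int {p : ℕ} [Fact p.Prime] {A : Type} [CommRing A] (M : Filt A) (n : ℕ) {a : A}
    (ha : a ∈ M.F 0) : M.Int p n (teichmuller p a) := by
  intro l _
  rcases Nat.eq_zero_or_pos l with rfl | hl
  · simpa using ha
  · rw [teichmuller_coeff_pos p a l hl]; exact zero_mem _

end InvwAux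

theorem pINVW (hGG : S_GG): S_INVW := by
  intro p _ A _ _ M n J v hJ h0 hv
  obtain ⟨O, hO⟩ := hGG p A M n
  obtain ⟨w, hw⟩ := (WittVector.isUnit_of_coeff_zero_ne_zero J h0).exists_left_inv
  have hJ0 : J.coeff 0 ∈ M.F 0 := by simpa using hJ 0 (Nat.zero_le _)
  set T := WittVector.teichmuller p (J.coeff 0) with hT
  have hTO : T ∈ O := (hO _).2 (InvwAux.teich_int M n hJ0)
  have hNO : T - J ∈ O := sub_mem hTO ((hO _).2 hJ)
  have hN0 : (T - J).coeff 0 = 0 := by
    have := map_sub (WittVector.constantCoeff : WittVector p A →+* A) T J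
    simpa [hT] using this
  have hK : (T - J) ^ (n + 1) * w ∈ RingHom.ker (WittVector.truncate (p := p) (R := A) (n + 1)) :=
    Ideal.mul_mem_right _ _
      ((WittVector.mem_ker_truncate _ _).2 (InvwAux.pow_coeff hN0 (n + 1)))
  have hKO : (T - J) ^ (n + 1) * w ∈ O := (hO _).2 fun l hl => by
    rw [(WittVector.mem_ker_truncate _ _).1 hK l (by omega)]; exact zero_mem _
  refine ⟨WittVector.teichmuller p v ^ (n + 1) *
    (∑ i ∈ Finset.range (n + 1), T ^ i * (T - J) ^ (n + 1 - 1 - i) + (T - J) ^ (n + 1) * w),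
    (hO _).1 (mul_mem (pow_mem ((hO _).2 (InvwAux.teich_int M n hv)) _) (add_mem
      (sum_mem fun i _ => mul_mem (pow_mem hTO _) (pow_mem hNO _)) hKO)), ?_⟩
  have e := geom_sum₂_mul T (T - J) (n + 1)
  rw [sub_sub_cancel] at e
  rw [mul_assoc, add_mul, e, mul_assoc, hw, mul_one, sub_add_cancel, map_pow, map_mul, mul_pow,
    mul_comm]

end Pool.Agent.P.MP_6f117a_ag.Sp
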