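import Pool.Agent.P.MP_6f117a_ag.C.Iface

/-! Step SPEC on specialisations of curves. -/

namespace Pool.Agent.P.MP_6f117a_ag.Sp

open MvPolynomial Filter
open scoped Polynomial WithZero IntermediateField nonZeroDivisors

universe u

namespace SpecA

theorem prim (k : Type u) [Field k] [CharZero k] [Module.Finite ℚ k] : ∃ θ : k, IsIntegral ℤ θ ∧
    Function.Surjective (Polynomial.aeval θ : ℚ[X] →ₐ[ℚ] k) := by
  obtain ⟨α, hα⟩ := Field.exists_primitive_element ℚ k
  have h1 : IsIntegral ℚ α := Algebra.IsIntegral.isIntegral α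
  obtain ⟨y, y0, hy⟩ := ((IsFractionRing.isAlgebraic_iff ℤ ℚ k).2
    h1.isAlgebraic).exists_integral_multiple
  refine ⟨_, hy, ?_⟩
  rw [← AlgHom.range_eq_top, ← Algebra.adjoin_singleton_eq_range_aeval, eq_top_iff,
    ← IntermediateField.top_toSubalgebra, ← hα,
    IntermediateField.adjoin_simple_toSubalgebra_of_isAlgebraic h1.isAlgebraic,
    Algebra.adjoin_le_iff, Set.singleton_subset_iff]
  have := Subalgebra.smul_mem _ (Algebra.self_mem_adjoin_singleton ℚ (y • α)) (y : ℚ)⁻¹
  rwa [← Int.cast_smul_eq_zsmul ℚ y α, inv_smul_smul₀ (Int.cast_ne_zero.2 y0),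
    Int.cast_smul_eq_zsmul] at this

theorem cz (p : ℕ) [Fact p.Prime] : CharZero (WittVector p (kk p)) := by
  obtain ⟨q, hq⟩ := CharP.exists (WittVector p (kk p))
  rcases CharP.char_is_prime_or_zero (WittVector p (kk p)) q with h | rfl
  · have h1 := congrArg WittVector.constantCoeff (CharP.cast_eq_zero (WittVector p (kk p)) q)
    rw [map_natCast, map_zero, CharP.cast_eq_zero_iff (kk p) p,
      Nat.prime_dvd_prime_iff_eq Fact.out h] at h1
    subst h1
    exact (WittVector.p_nonzero p (kk p) (CharP.cast_eq_zero _ p)).elim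
  · exact CharP.charP_to_charZero _

theorem root (p : ℕ) [Fact p.Prime] (κ : Type) [Field κ] [IsAlgClosed κ] [CharP κ p] {P A : ℤ[X]}
    {M : ℤ} (h1 : P.Monic) (h2 : 0 < P.degree) (dv : P ∣ A * P.derivative - Polynomial.C M)
    (ne : (M : κ) ≠ 0) : ∃ x : WittVector p κ, Polynomial.aeval x P = 0 := by
  have cc : ∀ (z : WittVector p κ) (f : ℤ[X]), (Polynomial.aeval z f).coeff 0 =
      Polynomial.aeval (z.coeff 0) f := fun z f =>
    (Polynomial.aeval_algHom_apply WittVector.constantCoeff.toIntAlgHom z f).symm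
  obtain ⟨x0, hx0⟩ := IsAlgClosed.exists_root (P.map (algebraMap ℤ κ)) (by
    rw [h1.degree_map]; exact h2.ne')
  rw [Polynomial.IsRoot.def, Polynomial.eval_map_algebraMap] at hx0
  obtain ⟨x, hx, -⟩ := HenselianRing.is_henselian (I := Ideal.span {(p : WittVector p κ)})
    (P.map (algebraMap ℤ _)) (h1.map _) (WittVector.teichmuller p x0)
    (by rw [Polynomial.eval_map_algebraMap, WittVector.mem_span_p_iff_coeff_zero_eq_zero, cc,
      WittVector.teichmuller_coeff_zero, hx0]) (by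
      refine (WittVector.isUnit_of_coeff_zero_ne_zero _ fun h => ne ?_).map _
      rw [Polynomial.derivative_map, Polynomial.eval_map_algebraMap, cc,
        WittVector.teichmuller_coeff_zero] at h
      have := Polynomial.aeval_eq_zero_of_dvd_aeval_eq_zero dv hx0
      simpa [h] using this)
  exact ⟨x, by rwa [Polynomial.IsRoot.def, Polynomial.eval_map_algebraMap] at hx⟩

theorem lift {k : Type u} [Field k] [CharZero k] {W F : Type} [CommRing W] [Field F] [CharZero F]
    (ι : W →+* F) {θ : k} (h1 : IsIntegral ℤ θ)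
    (h2 : Function.Surjective (Polynomial.aeval θ : ℚ[X] →ₐ[ℚ] k)) {x : W}
    (hx : Polynomial.aeval x (minpoly ℤ θ) = 0) :
    ∃ φ : k →+* F, ∀ f : ℤ[X], φ (Polynomial.aeval θ f) = ι (Polynomial.aeval x f) := by
  have am : ∀ f : ℤ[X], Polynomial.aeval (ι x) f = ι (Polynomial.aeval x f) := fun f =>
    Polynomial.aeval_algHom_apply ι.toIntAlgHom x f
  refine ⟨(Polynomial.aeval θ : ℚ[X] →ₐ[ℚ] k).toRingHom.liftOfSurjective h2
    ⟨(Polynomial.aeval (ι x) : ℚ[X] →ₐ[ℚ] F).toRingHom, fun q hq =>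
      Polynomial.aeval_eq_zero_of_dvd_aeval_eq_zero (minpoly.dvd ℚ θ hq) (by
        rw [minpoly.isIntegrallyClosed_eq_field_fractions' ℚ h1, Polynomial.aeval_map_algebraMap,
          am, hx, map_zero])⟩, fun f => ?_⟩
  rw [← Polynomial.aeval_map_algebraMap ℚ θ f]
  exact (RingHom.liftOfSurjective_comp_apply _ _ _ _).trans
    ((Polynomial.aeval_map_algebraMap ℚ (ι x) f).trans (am f))

theorem nf (k : Type u) [Field k] [CharZero k] [Module.Finite ℚ k] (N : ℕ) (S : Finset k) :
    ∃ (p : ℕ) (_ : Fact p.Prime) (φ : k →+* FractionRing (WittVector p (kk p))), N ≤ p ∧ ∀ b ∈ S,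
      φ b ∈ (algebraMap (WittVector p (kk p)) (FractionRing (WittVector p (kk p)))).range := by
  obtain ⟨θ, h1, h2⟩ := prim k
  have den : ∀ y : k, ∃ (M : ℤ) (a : ℤ[X]), M ≠ 0 ∧ Polynomial.aeval θ a = M * y := fun y => by
    obtain ⟨q, rfl⟩ := h2 y
    obtain ⟨M, hM, e⟩ := IsLocalization.integerNormalization_spec ℤ⁰ q
    refine ⟨M, IsLocalization.integerNormalization ℤ⁰ q, nonZeroDivisors.ne_zero hM, ?_⟩
    rw [← Polynomial.aeval_map_algebraMap ℚ, e, map_zsmul, zsmul_eq_mul]
  choose M a M0 e using den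
  have hP := minpoly.isIntegrallyClosed_eq_field_fractions' ℚ h1
  have d0 : Polynomial.aeval θ (minpoly ℤ θ).derivative ≠ 0 := by
    have := (Algebra.IsSeparable.isSeparable ℚ θ).aeval_derivative_ne_zero (minpoly.aeval ℚ θ)
    rwa [hP, Polynomial.derivative_map, Polynomial.aeval_map_algebraMap] at this
  set y := (Polynomial.aeval θ (minpoly ℤ θ).derivative)⁻¹ with hy
  have dv : minpoly ℤ θ ∣ a y * (minpoly ℤ θ).derivative - Polynomial.C (M y) :=
    minpoly.isIntegrallyClosed_dvd h1 (by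
      rw [map_sub, map_mul, e, hy, inv_mul_cancel_right₀ d0]; simp)
  obtain ⟨p, hp, pr⟩ := Nat.exists_infinite_primes
    (N + (M y).natAbs + ∑ b ∈ S, (M b).natAbs + 1)
  have : Fact p.Prime := ⟨pr⟩
  have := cz p
  have ne : ∀ b, (M b).natAbs < p → (M b : kk p) ≠ 0 := fun b h e =>
    M0 b (Int.eq_zero_of_dvd_of_natAbs_lt_natAbs ((CharP.intCast_eq_zero_iff (kk p) p _).1 e) h)
  obtain ⟨x, hx⟩ := root p (kk p) (minpoly.monic h1) (minpoly.degree_pos h1) dv (ne y (by omega))
  let F := FractionRing (WittVector p (kk p))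
  have : CharZero F := charZero_of_injective_algebraMap
    (IsFractionRing.injective (WittVector p (kk p)) F)
  obtain ⟨φ, hφ⟩ := lift (algebraMap _ F) h1 h2 hx
  refine ⟨p, inferInstance, φ, by omega, fun b hb => ?_⟩
  have h3 := Finset.single_le_sum (f := fun b => (M b).natAbs) (fun _ _ => Nat.zero_le _) hb
  obtain ⟨v, hv⟩ := (WittVector.isUnit_of_coeff_zero_ne_zero (M b : WittVector p (kk p)) fun h =>
    ne b (by omega) ((map_intCast (WittVector.constantCoeff (p := p) (R := kk p)) _).symm.trans h)).exists_left_inv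
  refine ⟨v * Polynomial.aeval x (a b), ?_⟩
  rw [map_mul, ← hφ, e, map_mul, map_intCast, ← map_intCast (algebraMap (WittVector p (kk p)) F),
    ← mul_assoc, ← map_mul, hv, map_one, one_mul]

end SpecA

open SpecA in
theorem pSPEC (L : Type u) [Field L] [IsAlgClosed L] [CharZero L] :
    S_SPEC L := by
  classical
  refine ⟨fun h => ?_⟩
  obtain ⟨N, S, hS⟩ : ∅ ∈ spF L := h ▸ mem_bot
  let A := Algebra.adjoin ℚ (S : Set L)
  have : Algebra.FiniteType ℚ A := (Subalgebra.fg_iff_finiteType _).1 ⟨S, rfl⟩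
  obtain ⟨m, hm⟩ := Ideal.exists_maximal A
  let := Ideal.Quotient.field m
  have h0 := finite_of_finite_type_of_isJacobsonRing ℚ (A ⧸ m)
  have : CharZero (A ⧸ m) := charZero_of_injective_algebraMap (algebraMap ℚ _).injective
  have h1 : @Module.Finite ℚ (A ⧸ m) _ _ DivisionRing.toRatAlgebra.toModule := by
    rw [Subsingleton.elim (DivisionRing.toRatAlgebra (R := A ⧸ m)) (Ideal.instAlgebraQuotient ℚ m)]
    exact h0
  obtain ⟨p, _, φ, hp, hφ⟩ := nf (A ⧸ m) N (S.attach.image fun b : {x // x ∈ S} =>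
    Ideal.Quotient.mk m ⟨b.1, Algebra.subset_adjoin (s := (S : Set L)) b.2⟩)
  let ι := algebraMap (WittVector p (kk p)) (FractionRing (WittVector p (kk p)))
  let ψ := φ.comp (Ideal.Quotient.mk m)
  let Λ := ι.range.comap ψ
  let e := RingEquiv.ofBijective ι.rangeRestrict ⟨fun a b h =>
    IsFractionRing.injective _ _ (congrArg Subtype.val h), ι.rangeRestrict_surjective⟩
  exact hS ⟨p, Λ.map A.val.toRingHom, (e.symm.toRingHom.comp (ψ.restrict Λ ι.range fun _ h => h)).comp
    (Λ.equivMapOfInjective A.val.toRingHom Subtype.val_injective).symm.toRingHom⟩ hp fun b hb =>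
      ⟨⟨b, Algebra.subset_adjoin hb⟩, hφ _ (Finset.mem_image.2 ⟨⟨b, hb⟩, Finset.mem_attach _ _, rfl⟩),
        rfl⟩

end Pool.Agent.P.MP_6f117a_ag.Sp
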