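import Pool.Agent.P.MP_6f117a_ag.C.Iface
import Pool.Agent.P.MP_6f117a_ag.PJ.ZDefs

/-! Filtrations, models of a cone over affine space, and sections on jet spaces. -/

namespace Pool.Agent.P.MP_6f117a_ag.Sp

open MvPolynomial

universe u

/-- A multiplicative increasing filtration by additive subgroups. -/
structure Filt (A : Type) [CommRing A] where
  F : ℕ → AddSubgroup A
  mono : Monotone F
  one_mem : 1 ∈ F 0
  mul_mem : ∀ {a b : A} {i j : ℕ}, a ∈ F i → b ∈ F j → a * b ∈ F (i + j)

namespace Filt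

variable {A B : Type} [CommRing A] [CommRing B]

/-- The component number `l` has weight at most `l * p ^ l`, for `l ≤ n`. -/
def Int (M : Filt A) (p n : ℕ) (z : WittVector p A) : Prop :=
  ∀ l ≤ n, z.coeff l ∈ M.F (l * p ^ l)

/-- The part of weight zero. -/
def sub (M : Filt A) : Subring A where
  __ := M.F 0
  one_mem' := M.one_mem
  mul_mem' ha hb := M.mul_mem ha hb

theorem mem_sub {M : Filt A} {a : A} : a ∈ M.sub ↔ a ∈ M.F 0 := Iff.rfl

theorem mul_mem0 (M : Filt A) {a b : A} {i : ℕ} (ha : a ∈ M.F 0) (hb : b ∈ M.F i) :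
    a * b ∈ M.F i := by simpa using M.mul_mem ha hb

theorem pow_mem (M : Filt A) {a : A} {i : ℕ} (ha : a ∈ M.F i) (k : ℕ) : a ^ k ∈ M.F (k * i) := by
  induction k with
  | zero => simpa using M.one_mem
  | succ k ih => rw [pow_succ, Nat.succ_mul]; exact M.mul_mem ih ha

/-- The constant filtration. -/
def const (R : Subring A) : Filt A where
  F _ := R.toAddSubgroup
  mono _ _ _ := le_rfl
  one_mem := R.one_mem
  mul_mem ha hb := R.mul_mem ha hb

/-- The image of a filtration. -/
def map (M : Filt A) (f : A →+* B) : Filt B where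
  F i := (M.F i).map f.toAddMonoidHom
  mono _ _ h := AddSubgroup.map_mono (M.mono h)
  one_mem := ⟨1, M.one_mem, map_one f⟩
  mul_mem := by
    rintro _ _ i j ⟨a, ha, rfl⟩ ⟨b, hb, rfl⟩
    exact ⟨a * b, M.mul_mem ha hb, map_mul f a b⟩

theorem mem_map {M : Filt A} {f : A →+* B} {i : ℕ} {b : B} :
    b ∈ (M.map f).F i ↔ ∃ a ∈ M.F i, f a = b := Iff.rfl

/-- Polynomials with coefficients in `V` and weighted degree at most `i`. -/
def wt {σ : Type} (V : Subring A) (w : σ → ℕ) : Filt (MvPolynomial σ A) where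
  F i :=
    { carrier := {q | ∀ m, coeff m q ∈ V ∧ (coeff m q ≠ 0 → Finsupp.weight w m ≤ i)}
      add_mem' := fun {a b} ha hb m => ⟨coeff_add m a b ▸ add_mem (ha m).1 (hb m).1, fun h => by
        by_cases e : coeff m a = 0
        · exact (hb m).2 (by simpa [e] using h)
        · exact (ha m).2 e⟩
      zero_mem' := fun m => by simp
      neg_mem' := fun {a} ha m => by simpa using ha m }
  mono _ _ h _ ha m := ⟨(ha m).1, fun e => ((ha m).2 e).trans h⟩
  one_mem m := by
    classical
    rw [coeff_one]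
    split_ifs with h
    · subst h; simp
    · simp
  mul_mem {a b i j} ha hb m := by
    classical
    rw [coeff_mul]
    refine ⟨sum_mem fun x _ => V.mul_mem (ha _).1 (hb _).1, fun h => ?_⟩
    obtain ⟨x, hx, h1⟩ := Finset.exists_ne_zero_of_sum_ne_zero h
    rw [← Finset.HasAntidiagonal.mem_antidiagonal.1 hx, map_add]
    exact add_le_add ((ha _).2 (left_ne_zero_of_mul h1)) ((hb _).2 (right_ne_zero_of_mul h1))

/-- Power series in `T / γ` whose coefficients are polynomials with coefficients in `M`. -/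
def ser (σ : Type) (M : Filt A) (γ : A) : Filt (PowerSeries (MvPolynomial σ A)) where
  F i :=
    { carrier := {a | ∀ o m, γ ^ o * coeff m (PowerSeries.coeff o a) ∈ M.F i}
      add_mem' := fun {a b} ha hb o m => by
        simpa [mul_add] using add_mem (ha o m) (hb o m)
      zero_mem' := fun o m => by simp
      neg_mem' := fun {a} ha o m => by simpa using ha o m }
  mono _ _ h _ ha o m := M.mono h (ha o m)
  one_mem o m := by
    classical
    rw [PowerSeries.coeff_one]
    split_ifs with h
    · rw [h, pow_zero, one_mul, coeff_one]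
      split_ifs
      exacts [M.one_mem, zero_mem _]
    · simp
  mul_mem {a b i j} ha hb o m := by
    classical
    rw [PowerSeries.coeff_mul, coeff_sum, Finset.mul_sum]
    refine sum_mem fun x hx => ?_
    rw [coeff_mul, Finset.mul_sum, ← Finset.HasAntidiagonal.mem_antidiagonal.1 hx, pow_add]
    refine sum_mem fun y _ => ?_
    rw [mul_mul_mul_comm]
    exact M.mul_mem (ha _ _) (hb _ _)

end Filt

/-- A cone with coordinates `z`, given near its generic point by one equation
`f a (x, z a) = 0` for each coordinate, where the `x i = z (e i)` are free, together with finitely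
many families `h g` of forms of the same degree. -/
structure Mod (R : Type u) [CommRing R] where
  N : ℕ
  ι : Type
  [fι : Fintype ι]
  e : ι → Fin (N + 1)
  f : Fin (N + 1) → MvPolynomial (Option ι) R
  df : Fin (N + 1) → ℕ
  f_hom : ∀ a, (f a).IsHomogeneous (df a)
  f_e : ∀ i, f (e i) = X none - X (some i)
  G : Type
  [fG : Fintype G]
  J : G → Type
  [fJ : ∀ g, Fintype (J g)]
  [nJ : ∀ g, Nonempty (J g)]
  h : ∀ g, J g → MvPolynomial (Fin (N + 1)) R
  dh : G → ℕ
  h_hom : ∀ g j, (h g j).IsHomogeneous (dh g)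

attribute [instance] Mod.fι Mod.fG Mod.fJ Mod.nJ

namespace Mod

section

variable {R : Type u} [CommRing R] (M : Mod R)

/-- The equation of the coordinate number `a`. -/
noncomputable def eqn (a : Fin (M.N + 1)) : MvPolynomial (Fin (M.N + 1)) R :=
  rename (fun o : Option M.ι => o.elim a M.e) (M.f a)

/-- The derivative of the equation of the coordinate number `a`. -/
noncomputable def der (a : Fin (M.N + 1)) : MvPolynomial (Fin (M.N + 1)) R :=
  rename (fun o : Option M.ι => o.elim a M.e) (pderiv none (M.f a))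

/-- The form outside whose zero set the model is used. -/
noncomputable def Del : MvPolynomial (Fin (M.N + 1)) R :=
  (∏ a, M.der a) * ∏ g, ∏ j, M.h g j

/-- The degree of `Del`. -/
def dDel : ℕ := ∑ a, (M.df a - 1) + ∑ g, Fintype.card (M.J g) * M.dh g

theorem Del_hom : M.Del.IsHomogeneous M.dDel := by
  refine (IsHomogeneous.prod _ _ _ fun a _ => (M.f_hom a).pderiv.rename_isHomogeneous).mul
    (IsHomogeneous.prod _ _ _ fun g _ => ?_)
  simpa using IsHomogeneous.prod Finset.univ (M.h g) (fun _ => M.dh g) fun j _ => M.h_hom g j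

end

/-- Specialisation of a model. -/
noncomputable def red {L : Type u} [Field L] (M : Mod L) (ω : Spec L) :
    Mod (WittVector ω.p (kk ω.p)) where
  N := M.N
  ι := M.ι
  e := M.e
  f a := ω.red (M.f a)
  df := M.df
  f_hom a := ω.hom_red (M.f_hom a)
  f_e i := by
    have := ω.red_map (X none - X (some i) : MvPolynomial (Option M.ι) ω.Λ)
    simp only [map_sub, map_X] at this
    rw [M.f_e, this]
  G := M.G
  J := M.J
  h g j := ω.red (M.h g j)
  dh := M.dh
  h_hom g j := ω.hom_red (M.h_hom g j)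

variable {p : ℕ} [Fact p.Prime] {k : Type} [Field k] (M : Mod (WittVector p k))

/-- Evaluation of a form at the components number zero. -/
noncomputable def ev0 {A : Type} [CommRing A] [Algebra k A] (z : Fin (M.N + 1) → WittVector p A)
    (g : MvPolynomial (Fin (M.N + 1)) (WittVector p k)) : A :=
  aeval (fun b => (z b).coeff 0) (MvPolynomial.map WittVector.constantCoeff g)

/-- Evaluation of a polynomial in Witt coordinates. -/
noncomputable def ev {β A : Type} [CommRing A] [Algebra k A] (z : β → WittVector p A) :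
    MvPolynomial (β × ℕ) k →ₐ[k] A := aeval fun v => (z v.1).coeff v.2

/-- Witt vector points of the model. -/
def Pt {A : Type} [CommRing A] [Algebra k A] (z : Fin (M.N + 1) → WittVector p A) : Prop :=
  (∀ a, eval₂ (WittVector.map (algebraMap k A)) z (M.eqn a) = 0) ∧ M.ev0 z M.Del ≠ 0

/-- `S / Del ^ r` is a section of weight `m` on jets of order `n`, with values in `O(-e)`. -/
def Sec (n m e r : ℕ) (S : MvPolynomial (Fin (M.N + 1) × ℕ) k) : Prop :=
  ∀ (Ω : Type) [Field Ω] [Algebra k Ω] (z : Fin (M.N + 1) → WittVector p Ω), M.Pt z →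
    ∀ (c : Fin (M.N + 1)) (j : ∀ g, M.J g) (Φ : Filt Ω), (∀ a, algebraMap k Ω a ∈ Φ.F 0) →
      (z c).coeff 0 ≠ 0 →
      (∀ b, ∀ l ≤ n, (z b).coeff l / (z c).coeff 0 ^ p ^ l ∈ Φ.F (l * p ^ l)) →
      (∀ g j', M.ev0 z (M.h g j') / M.ev0 z (M.h g (j g)) ∈ Φ.F 0) →
      (z c).coeff 0 ^ e * ev z S / M.ev0 z M.Del ^ r ∈ Φ.F m

/-- `P` is a multiple of `S` on the points of the model. -/
def Nrm (S : MvPolynomial (Fin (M.N + 1) × ℕ) k) (P : MvPolynomial (M.ι × ℕ) k) : Prop :=
  ∃ (r : ℕ) (Q : MvPolynomial (Fin (M.N + 1) × ℕ) k),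
    ∀ (Ω : Type) [Field Ω] [Algebra k Ω] (z : Fin (M.N + 1) → WittVector p Ω), M.Pt z →
      M.ev0 z M.Del ^ r * ev (fun i => z (M.e i)) P = ev z S * ev z Q

end Mod

/-- The jet variables: `inl l` for the scaling and `inr l` for the parameter, of level `l + 1`. -/
def Vr (n : ℕ) : Type := Fin n ⊕ Fin n

instance (n : ℕ) : Fintype (Vr n) := inferInstanceAs (Fintype (Fin n ⊕ Fin n))

/-- Scalings come first, and higher levels come first. -/
def Vr.rk {n : ℕ} : Vr n → ℕ := Sum.elim (fun l => n - 1 - l) fun l => 2 * n - 1 - l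

instance (n : ℕ) : LinearOrder (Vr n) := LinearOrder.lift' Vr.rk (by
  rintro (a | a) (b | b) h <;> simp only [Vr.rk, Sum.elim_inl, Sum.elim_inr] at h
  · exact congrArg Sum.inl (Fin.ext (by omega))
  · omega
  · omega
  · exact congrArg Sum.inr (Fin.ext (by omega)))

theorem Vr.lt_iff {n : ℕ} {a b : Vr n} : a < b ↔ a.rk < b.rk := Iff.rfl

/-- The weights: zero for the scaling, `c l * p ^ l` in level `l` for the parameter. -/
def Vr.w (n p : ℕ) (c : ℕ → ℕ) : Vr n → ℕ :=
  Sum.elim (fun _ => 0) fun l => c (l + 1) * p ^ (l + 1 : ℕ)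

/-- The leading coefficients of the elements of the filtration lie in `c ^ j * V`. -/
def Lead {n : ℕ} (p : ℕ) {K : Type} [Field K] (M : Filt (MvPolynomial (Vr n) K)) (V : Subring K)
    (c : K) : Prop :=
  ∀ m, ∀ q ∈ M.F m, q ≠ 0 →
    Finsupp.weight (Vr.w n p fun _ => 1) (MonomialOrder.lex.degree q) ≤ m ∧
    ∃ v ∈ V, MonomialOrder.lex.leadingCoeff q =
      c ^ Finsupp.weight (Vr.w n p fun _ => 1) (MonomialOrder.lex.degree q) * v

end Pool.Agent.P.MP_6f117a_ag.Sp
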