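import Pool.Agent.P.MP_6f117a_ag.C.VDefs

/-! The statements on the vanishing of jet sections along curves. -/

namespace Pool.Agent.P.MP_6f117a_ag.Sp

open MvPolynomial Filter WittVector
open scoped Polynomial WithZero

universe u

/-- Multiplication by a Teichmüller vector. -/
def S_TCH : Prop := ∀ (p : ℕ) [Fact p.Prime] (A : Type) [CommRing A] (a : A) (z : WittVector p A)
  (l : ℕ), (teichmuller p a * z).coeff l = a ^ p ^ l * z.coeff l

/-- The Witt vectors of controlled weight form a subring. -/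
def S_GG : Prop := ∀ (p : ℕ) [Fact p.Prime] (A : Type) [CommRing A] [CharP A p] (M : Filt A)
  (n : ℕ), ∃ O : Subring (WittVector p A), ∀ z, z ∈ O ↔ M.Int p n z

/-- The Taylor formula in level `l`. -/
def S_TAY : Prop := ∀ (p : ℕ) [Fact p.Prime] (A : Type) [CommRing A] [CharP A p] (σ : Type)
  [Fintype σ] (f : MvPolynomial σ (WittVector p A)) (z z' : σ → WittVector p A) (l : ℕ),
    (∀ i, ∀ j < l, (z i).coeff j = (z' i).coeff j) →
    (∀ j < l, (eval z f).coeff j = (eval z' f).coeff j) ∧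
    (0 < l → (eval z f).coeff l - (eval z' f).coeff l =
      ∑ i, (eval z (pderiv i f)).coeff 0 ^ p ^ l * ((z i).coeff l - (z' i).coeff l))

/-- Solutions of a system with invertible Jacobian matrix are integral. -/
def S_REC : Prop := ∀ (p : ℕ) [Fact p.Prime] (A : Type) [CommRing A] [CharP A p] (M : Filt A)
  (n : ℕ) (σ : Type) [Fintype σ] [DecidableEq σ] (g : σ → MvPolynomial (Option σ) (WittVector p A))
  (y : Option σ → WittVector p A) (J : σ → σ → A), (∀ i m, M.Int p n (coeff m (g i))) →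
    (∀ i, eval y (g i) = 0) → M.Int p n (y none) → (∀ i, (y i).coeff 0 ∈ M.F 0) →
    (∀ i j, J i j ∈ M.F 0) →
    (∀ l l', ∑ i, J l i * (eval y (pderiv (some l') (g i))).coeff 0 = if l = l' then 1 else 0) →
    ∀ i, M.Int p n (y i)

/-- The triangular shape of such solutions. -/
def S_GEN : Prop := ∀ (p : ℕ) [Fact p.Prime] (A : Type) [CommRing A] [CharP A p]
  (R : ℕ → Subring A) (σ : Type) [Fintype σ] [DecidableEq σ]
  (g : σ → MvPolynomial (Option σ) (WittVector p A)) (y : Option σ → WittVector p A)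
  (J : σ → σ → A) (D : σ → A), Monotone R → (∀ i m l, (coeff m (g i)).coeff l ∈ R 0) →
    (∀ i, eval y (g i) = 0) → (∀ l, (y none).coeff l ∈ R (l + 1)) → (∀ i, (y i).coeff 0 ∈ R 0) →
    (∀ i j, J i j ∈ R 0) → (∀ i, D i ∈ R 0) →
    (∀ l l', ∑ i, J l i * (eval y (pderiv (some l') (g i))).coeff 0 = if l = l' then 1 else 0) →
    (∀ i, (eval y (pderiv none (g i))).coeff 0 +
      ∑ j, (eval y (pderiv (some j) (g i))).coeff 0 * D j = 0) →
    ∀ i l, 0 < l → (y (some i)).coeff l - D i ^ p ^ l * (y none).coeff l ∈ R l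

/-- Denominators of the inverse of a Witt vector. -/
def S_INVW : Prop := ∀ (p : ℕ) [Fact p.Prime] (A : Type) [Field A] [CharP A p] (M : Filt A)
  (n : ℕ) (J : WittVector p A) (v : A), M.Int p n J → J.coeff 0 ≠ 0 → v ∈ M.F 0 →
    ∃ κ, M.Int p n κ ∧ κ * J = teichmuller p ((J.coeff 0 * v) ^ (n + 1))

/-- The weight zero part is closed for the `T`-adic topology of `A`. -/
structure Cl {Ω : Type} [Field Ω] (Φ : Filt Ω) (A : Subring Ω) (T : Ω) : Prop where
  mem : T ∈ Φ.F 0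
  ne : T ≠ 0
  inv : ∀ a ∈ Φ.F 0, ∃ b ∈ Φ.F 0, (1 + T * a) * b = 1
  fix : ∀ (H : Polynomial Ω) (c y : Ω), (∀ i, H.coeff i ∈ Φ.F 0) → c ∈ Φ.F 0 → y ∈ A →
    y = c + T * H.eval y → y ∈ Φ.F 0

/-- Basic facts on the filtration of power series. -/
def S_FIX : Prop := ∀ (B : Type) [CommRing B] (σ : Type) (M : Filt B) (γ γ' : B), γ * γ' = 1 →
  (∀ i, ∀ a ∈ M.F i, PowerSeries.C (C a) ∈ (M.ser σ γ).F i) ∧
  (∀ v, PowerSeries.C (X v) ∈ (M.ser σ γ).F 0) ∧
  ∀ (Ω : Type) [Field Ω] (j : PowerSeries (MvPolynomial σ B) →+* Ω), Function.Injective j →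
    Cl ((M.ser σ γ).map j) j.range (j (PowerSeries.C (C γ') * PowerSeries.X))

/-- Integrality of a root after a small perturbation of the parameters. -/
def S_TOUG : Prop := ∀ (p : ℕ) [Fact p.Prime] (Ω : Type) [Field Ω] [CharP Ω p] (Φ : Filt Ω)
  (A : Subring Ω) (T : Ω) (n : ℕ) (ι : Type) [Fintype ι]
  (f : MvPolynomial (Option ι) (WittVector p Ω)) (φ z : Option ι → WittVector p Ω)
  (u : ι → WittVector p Ω) (d v y₀ : Ω), Cl Φ A T → (∀ m, Φ.Int p n (coeff m f)) →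
    (∀ i, Φ.Int p n (φ i)) → (∀ i, Φ.Int p n (u i)) → eval φ f = 0 → eval z f = 0 → d ≠ 0 →
    v ∈ Φ.F 0 → d = (eval φ (pderiv none f)).coeff 0 * v →
    (∀ i, z (some i) = φ (some i) + teichmuller p (T * d ^ (2 * (n + 1))) * u i) → y₀ ∈ A →
    (z none).coeff 0 = (φ none).coeff 0 + T * d ^ (n + 1) * y₀ →
    ∃ y, Φ.Int p n y ∧ z none = φ none + teichmuller p (T * d ^ (n + 1)) * y

/-- Hensel's lemma for polynomials that need not be monic. -/
def S_HENS : Prop := ∀ (R : Type) [CommRing R] (I : Ideal R) [HenselianRing R I] (f : R[X])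
  (a₀ : R), f.eval a₀ ∈ I → IsUnit (Ideal.Quotient.mk I (f.derivative.eval a₀)) →
    ∃ a : R, f.eval a = 0 ∧ a - a₀ ∈ I

/-- The point `z` deforms `φ` along the universal perturbation of the free coordinates. -/
structure Mod.Def {p : ℕ} [Fact p.Prime] {k : Type} [Field k] (M : Mod (WittVector p k)) {B : Type}
    [CommRing B] [Algebra k B] (φ : Fin (M.N + 1) → WittVector p B)
    (z : Fin (M.N + 1) → WittVector p (PowerSeries (MvPolynomial (M.ι × ℕ) B))) : Prop where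
  eqn : ∀ a, eval₂ (WittVector.map (algebraMap k _)) z (M.eqn a) = 0
  free : ∀ i, z (M.e i) =
    WittVector.map Polynomial.coeToPowerSeries.ringHom (PJ.pert p (fun i => φ (M.e i)) i)
  const : ∀ a, PowerSeries.constantCoeff ((z a).coeff 0) = C ((φ a).coeff 0)

/-- The deformation exists. -/
def S_EXZ : Prop := ∀ (p : ℕ) [Fact p.Prime] (k : Type) [Field k] [CharP k p]
  (M : Mod (WittVector p k)) (B : Type) [CommRing B] [IsDomain B] [Algebra k B]
  (φ : Fin (M.N + 1) → WittVector p B),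
    (∀ a, eval₂ (WittVector.map (algebraMap k B)) φ (M.eqn a) = 0) → IsUnit (M.ev0 φ M.Del) →
    ∃ z, M.Def φ z

/-- From the section to its norm. -/
def S_NRM : Prop := ∀ (p : ℕ) [Fact p.Prime] (k : Type) [Field k] [CharP k p]
  (M : Mod (WittVector p k)) (B : Type) [CommRing B] [IsDomain B] [Algebra k B]
  (φ : Fin (M.N + 1) → WittVector p B) z, M.Def φ z → IsUnit (M.ev0 φ M.Del) →
    ∀ S P (o : ℕ), M.Nrm S P → PowerSeries.X ^ o ∣ Mod.ev (k := k) z S →
      Polynomial.X ^ o ∣ PJ.evT p k (fun i => φ (M.e i)) P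

/-- The local estimate for the first coefficient of a section. -/
def S_LOCAL : Prop := ∀ (p : ℕ) [Fact p.Prime] (k : Type) [Field k] [CharP k p]
  (M : Mod (WittVector p k)) (K B : Type) [Field K] [CommRing B] [IsDomain B] [Algebra k K]
  [Algebra K B] [Algebra k B] [IsScalarTower k K B] (φ : Fin (M.N + 1) → WittVector p B) z
  (ξ : Fin (M.N + 1) → K) (Δ lam : K) (V : Subring K) (Φ : Filt B) (c : Fin (M.N + 1))
  (j : ∀ g, M.J g) (n m e r o : ℕ) S,
    (∀ a, eval₂ (WittVector.map (algebraMap k B)) φ (M.eqn a) = 0) → M.Def φ z →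
    (∀ a, (φ a).coeff 0 = algebraMap K B (ξ a)) →
    Δ = aeval ξ (MvPolynomial.map WittVector.constantCoeff M.Del) → Δ ≠ 0 →
    (∀ a, algebraMap k K a ∈ V) → (∀ a ∈ V, algebraMap K B a ∈ Φ.F 0) → lam * ξ c = 1 →
    (∀ a, lam * ξ a ∈ V) → (∀ a, Φ.Int p n (teichmuller p (algebraMap K B lam) * φ a)) →
    (∀ g j', aeval ξ (MvPolynomial.map WittVector.constantCoeff (M.h g j')) /
      aeval ξ (MvPolynomial.map WittVector.constantCoeff (M.h g (j g))) ∈ V) →
    M.Sec n m e r S → PowerSeries.X ^ o ∣ Mod.ev (k := k) z S → ∀ μ,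
      algebraMap K B (((lam ^ M.dDel * Δ) ^ (2 * (n + 1)) / lam) ^ o / (lam ^ e * Δ ^ r)) *
        coeff μ (PowerSeries.coeff o (Mod.ev (k := k) z S)) ∈ Φ.F m

/-- A triangular substitution. -/
def Tri {σ K : Type} [LinearOrder σ] [Field K] (g : σ → MvPolynomial σ K) (c : σ → K) : Prop :=
  ∀ v, ∃ r : MvPolynomial σ K, g v = C (c v) * X v + r ∧ ∀ w ∈ r.vars, v < w

/-- Leading terms under a triangular substitution. -/
def S_LEAD : Prop := ∀ (n p : ℕ) (K : Type) [Field K] (V : Subring K) (c : K)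
  (g : Vr n → MvPolynomial (Vr n) K), c ≠ 0 →
    Tri g (Sum.elim (fun _ => 1) fun l : Fin n => c ^ p ^ (l + 1 : ℕ)) →
    Lead p ((Filt.wt V (Vr.w n p id)).map (aeval g : _ →ₐ[K] _).toRingHom) V c

/-- A point with a transcendental scaling. -/
def S_HOMC : Prop := ∀ (k K σ ι : Type) [Field k] [Field K] [Algebra k K] (y : ι → K)
  (G : MvPolynomial ι k), aeval (fun i => (C (RatFunc.X * algebraMap K (RatFunc K) (y i)) :
    MvPolynomial σ (RatFunc K))) G = 0 → ∀ b, aeval y (homogeneousComponent b G) = 0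

/-- The generic jet of the cone over a curve and its local models. -/
def S_JET (L : Type u) [Field L] : Prop := ∀ (K : Type u) [Field K] [Algebra L K] [FF L K]
  (t : K) (δ : Derivation L K K), δ t = 1 → ∀ (n N : ℕ) (ξ : Fin (N + 1) → K)
  (E : Fin (N + 1) → MvPolynomial (Fin (N + 1)) L) (dE : Fin (N + 1) → ℕ)
  (lam : Place L K → K) (S : Place L K → Finset K), (∀ a, (E a).IsHomogeneous (dE a)) →
    (∀ a, aeval ξ (E a) = 0) → (∀ P, lam P ≠ 0) → (∀ (P : Place L K) a, P.v (lam P * ξ a) ≤ 1) →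
    (∀ P, ∀ b ∈ S P, P.v b ≤ 1) → ∃ Z : Finset (Place L K), ∀ᶠ χ in sqF t δ,
      ∀ (K₂ : Type) [Field K₂] [Algebra (KK χ.1.p) K₂] [Algebra (kk χ.1.p) K₂]
        [IsScalarTower (kk χ.1.p) (KK χ.1.p) K₂],
      ∃ φ : Fin (N + 1) → WittVector χ.1.p (MvPolynomial (Vr n) K₂),
        (∀ a, (φ a).coeff 0 = C (algebraMap _ K₂ (χ.2.pi (ξ a)))) ∧
        (∀ a, eval₂ (WittVector.map (algebraMap (kk χ.1.p) _)) φ (χ.1.red (E a)) = 0) ∧
        ∀ V : ValuationSubring (KK χ.1.p), ∃ P ∈ Z, (∀ b ∈ S P, χ.2.pi b ∈ V) ∧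
          ∃ Φ : Filt (MvPolynomial (Vr n) K₂), (∀ a ∈ V, C (algebraMap _ K₂ a) ∈ Φ.F 0) ∧
            Lead χ.1.p Φ (V.toSubring.map (algebraMap _ K₂)) (algebraMap _ K₂ (χ.2.pi (δ P.π))) ∧
            ∀ a, Φ.Int χ.1.p n
              (teichmuller χ.1.p (C (algebraMap _ K₂ (χ.2.pi (lam P)))) * φ a)

/-- The ring of generic jets of the cone over a curve. -/
abbrev BB (p : ℕ) [Fact p.Prime] (n : ℕ) : Type := MvPolynomial (Vr n) (RatFunc (KK p))

/-- Sections vanish to high order along curves of large degree. -/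
def S_VAN (L : Type u) [Field L] : Prop := ∀ (M : Mod L) (n r₀ : ℕ) (K : Type u) [Field K]
  [Algebra L K] [FF L K] (t : K) (δ : Derivation L K K) (ξ : Fin (M.N + 1) → K), δ t = 1 →
    (∀ a, aeval ξ (M.eqn a) = 0) → aeval ξ M.Del ≠ 0 → (∃ a b, ξ a ≠ 0 ∧ ξ b = t * ξ a) →
    (2 * r₀ * genus L K : ℤ) < degree L ξ → ∀ᶠ χ in sqF t δ,
      ∃ φ : M.ι → WittVector χ.1.p (BB χ.1.p n),
        (∀ G : MvPolynomial M.ι (kk χ.1.p), aeval (fun i => (φ i).coeff 0) G = 0 →
          ∀ b, aeval (fun i => χ.2.pi (ξ (M.e i))) (homogeneousComponent b G) = 0) ∧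
        ∀ (m e r o : ℕ) S P, (M.red χ.1).Sec n m e r S → (M.red χ.1).Nrm S P →
          m + 1 + r₀ * (2 * (n + 1) * M.dDel) * o ≤ r₀ * e →
          Polynomial.X ^ o ∣ PJ.evT χ.1.p (kk χ.1.p) φ P

end Pool.Agent.P.MP_6f117a_ag.Sp
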